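import Mathlib
import Pool.Agent.Helper602.MK.J5b

namespace Pool.Agent.H373R2.NB
open Finset
open Pool.Agent.Helper602.MK (ee)
open Pool.Agent.Helper602.MK.N_J5b (normsq_sum)

variable {M : ℕ} [NeZero M]

/-- Fourier transform on `ZMod M` -/
noncomputable def hat (u : ZMod M → ℝ) (ξ : ZMod M) : ℂ := ∑ m, (u m : ℂ) * ZMod.stdAddChar (ξ * m)

/-- autocorrelation on `ZMod M` -/
noncomputable def cor (u : ZMod M → ℝ) (Δ : ZMod M) : ℝ := ∑ m, u m * u (m + Δ)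

lemma chi_conj (t : ZMod M) : (starRingEnd ℂ) (ZMod.stdAddChar t) = ZMod.stdAddChar (-t) :=
  (AddChar.map_neg_eq_conj _ _).symm

lemma norm_chi (t : ZMod M) : ‖(ZMod.stdAddChar t : ℂ)‖ = 1 := AddChar.norm_apply _ _

lemma sum_chi (t : ZMod M) : ∑ ξ : ZMod M, (ZMod.stdAddChar (ξ * t) : ℂ) = if t = 0 then (M : ℂ) else 0 := by
  rw [AddChar.sum_mulShift t (ZMod.isPrimitive_stdAddChar M), ZMod.card]
  split_ifs <;> simp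

lemma normsq_hat (u : ZMod M → ℝ) (ξ : ZMod M) : ((‖hat u ξ‖ ^ 2 : ℝ) : ℂ) =
    ∑ m, ∑ m', ((u m : ℂ) * u m') * ZMod.stdAddChar (ξ * (m - m')) := by
  unfold hat
  rw [normsq_sum]
  apply sum_congr rfl; intro m _
  apply sum_congr rfl; intro m' _
  rw [map_mul (starRingEnd ℂ), Complex.conj_ofReal, chi_conj, mul_sub, sub_eq_add_neg, AddChar.map_add_eq_mul]
  ring

lemma cor_eq (u : ZMod M → ℝ) (Δ : ZMod M) :
    (M : ℂ) * (cor u Δ : ℝ) = ∑ ξ, ((‖hat u ξ‖ ^ 2 : ℝ) : ℂ) * ZMod.stdAddChar (ξ * Δ) := by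
  have h1 : ∀ ξ : ZMod M, ((‖hat u ξ‖ ^ 2 : ℝ) : ℂ) * ZMod.stdAddChar (ξ * Δ) =
      ∑ m, ∑ m', ((u m : ℂ) * u m') * ZMod.stdAddChar (ξ * (m - m' + Δ)) := by
    intro ξ
    rw [normsq_hat, sum_mul]
    apply sum_congr rfl; intro m _
    rw [sum_mul]
    apply sum_congr rfl; intro m' _
    rw [mul_assoc, ← AddChar.map_add_eq_mul, ← mul_add]
  rw [sum_congr rfl fun ξ _ => h1 ξ, sum_comm]
  unfold cor
  push_cast
  rw [mul_sum]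
  apply sum_congr rfl; intro m _
  rw [sum_comm]
  have h2 : ∀ m' : ZMod M, ∑ ξ : ZMod M, ((u m : ℂ) * u m') * ZMod.stdAddChar (ξ * (m - m' + Δ)) =
      if m' = m + Δ then (M : ℂ) * ((u m : ℂ) * u m') else 0 := by
    intro m'
    rw [← mul_sum, sum_chi]
    by_cases h : m' = m + Δ
    · rw [if_pos h, if_pos (by rw [h]; ring)]; ring
    · rw [if_neg h, if_neg (fun h3 => h (by linear_combination -h3)), mul_zero]
  rw [sum_congr rfl fun m' _ => h2 m', sum_ite_eq' univ (m + Δ), if_pos (mem_univ _)]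

lemma parseval (u : ZMod M → ℝ) : ∑ ξ, ‖hat u ξ‖ ^ 2 = M * ∑ m, u m ^ 2 := by
  have h1 := cor_eq u 0
  simp only [mul_zero, AddChar.map_zero_eq_one, mul_one] at h1
  have h2 : cor u 0 = ∑ m, u m ^ 2 := by
    unfold cor
    apply sum_congr rfl; intro m _
    rw [add_zero]; ring
  rw [h2] at h1
  exact_mod_cast h1.symm

/-- the fourth order identity -/
theorem sum_cor_sq {ι : Type*} (u : ZMod M → ℝ) (s : Finset ι) (c : ι → ZMod M) :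
    (M : ℝ) ^ 2 * ∑ i ∈ s, ∑ j ∈ s, cor u (c i - c j) ^ 2 =
      ∑ ξ, ∑ ξ', ‖hat u ξ‖ ^ 2 * ‖hat u ξ'‖ ^ 2 * ‖∑ i ∈ s, (ZMod.stdAddChar ((ξ - ξ') * c i) : ℂ)‖ ^ 2 := by
  have h1 : ∀ Δ : ZMod M, ((M : ℝ) ^ 2 * cor u Δ ^ 2 : ℂ) =
      ∑ ξ, ∑ ξ', ((‖hat u ξ‖ ^ 2 * ‖hat u ξ'‖ ^ 2 : ℝ) : ℂ) * ZMod.stdAddChar ((ξ - ξ') * Δ) := by
    intro Δ
    have h2 := cor_eq u Δ
    have h3 := congrArg (starRingEnd ℂ) h2
    have h4 : ((M : ℝ) ^ 2 * cor u Δ ^ 2 : ℂ) = ((M : ℂ) * (cor u Δ : ℝ)) * (starRingEnd ℂ) ((M : ℂ) * (cor u Δ : ℝ)) := by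
      rw [map_mul (starRingEnd ℂ), Complex.conj_ofReal, Complex.conj_natCast]
      push_cast; ring
    rw [h4, h3, h2, map_sum, sum_mul_sum]
    apply sum_congr rfl; intro ξ _
    apply sum_congr rfl; intro ξ' _
    rw [map_mul (starRingEnd ℂ), Complex.conj_ofReal, chi_conj, sub_mul, sub_eq_add_neg, AddChar.map_add_eq_mul]
    push_cast; ring
  have h5 : (((M : ℝ) ^ 2 * ∑ i ∈ s, ∑ j ∈ s, cor u (c i - c j) ^ 2 : ℝ) : ℂ) =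
      ((∑ ξ, ∑ ξ', ‖hat u ξ‖ ^ 2 * ‖hat u ξ'‖ ^ 2 * ‖∑ i ∈ s, (ZMod.stdAddChar ((ξ - ξ') * c i) : ℂ)‖ ^ 2 : ℝ) : ℂ) := by
    have h6 : (((M : ℝ) ^ 2 * ∑ i ∈ s, ∑ j ∈ s, cor u (c i - c j) ^ 2 : ℝ) : ℂ) =
        ∑ i ∈ s, ∑ j ∈ s, ((M : ℝ) ^ 2 * cor u (c i - c j) ^ 2 : ℂ) := by
      push_cast
      rw [mul_sum]
      apply sum_congr rfl; intro i _
      rw [mul_sum]
    rw [h6]
    simp_rw [h1]
    have h7 : ∀ i ∈ s, ∑ j ∈ s, ∑ ξ, ∑ ξ', ((‖hat u ξ‖ ^ 2 * ‖hat u ξ'‖ ^ 2 : ℝ) : ℂ) * ZMod.stdAddChar ((ξ - ξ') * (c i - c j)) =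
        ∑ ξ, ∑ ξ', ∑ j ∈ s, ((‖hat u ξ‖ ^ 2 * ‖hat u ξ'‖ ^ 2 : ℝ) : ℂ) * ZMod.stdAddChar ((ξ - ξ') * (c i - c j)) := by
      intro i _
      rw [sum_comm]
      apply sum_congr rfl; intro ξ _
      rw [sum_comm]
    rw [sum_congr rfl h7, sum_comm]
    rw [Complex.ofReal_sum]
    apply sum_congr rfl; intro ξ _
    rw [sum_comm, Complex.ofReal_sum]
    apply sum_congr rfl; intro ξ' _
    have e : ((‖hat u ξ‖ ^ 2 * ‖hat u ξ'‖ ^ 2 * ‖∑ i ∈ s, (ZMod.stdAddChar ((ξ - ξ') * c i) : ℂ)‖ ^ 2 : ℝ) : ℂ) =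
        ((‖hat u ξ‖ ^ 2 * ‖hat u ξ'‖ ^ 2 : ℝ) : ℂ) * ((‖∑ i ∈ s, (ZMod.stdAddChar ((ξ - ξ') * c i) : ℂ)‖ ^ 2 : ℝ) : ℂ) :=
      Complex.ofReal_mul _ _
    rw [e, normsq_sum, mul_sum]
    apply sum_congr rfl; intro i _
    rw [mul_sum]
    apply sum_congr rfl; intro j _
    rw [chi_conj, ← AddChar.map_add_eq_mul]
    congr 2
    ring
  exact_mod_cast h5

end Pool.Agent.H373R2.NB
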