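import Mathlib

namespace Pool.Agent.H373R2.NB
open Finset

/-- Young's inequality for one term -/
lemma young_term (θ : ℝ) (hθ0 : 0 < θ) (hθ1 : θ < 1) (a b w : ℝ) (ha : 0 ≤ a) (hb : 0 ≤ b) (hw : 0 ≤ w) :
    a * b * w ≤ a ^ (1 + θ) * b ^ (1 + θ) + a ^ (1 + θ) * w ^ ((1 + θ) / (2 * θ)) +
      b ^ (1 + θ) * w ^ ((1 + θ) / (2 * θ)) := by
  have h0 : 0 < 1 + θ := by linarith
  have h1 := Real.geom_mean_le_arith_mean3_weighted (w₁ := (1 - θ) / (1 + θ)) (w₂ := θ / (1 + θ)) (w₃ := θ / (1 + θ))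
    (p₁ := a ^ (1 + θ) * b ^ (1 + θ)) (p₂ := a ^ (1 + θ) * w ^ ((1 + θ) / (2 * θ)))
    (p₃ := b ^ (1 + θ) * w ^ ((1 + θ) / (2 * θ)))
    (div_nonneg (by linarith) h0.le) (by positivity) (by positivity) (by positivity) (by positivity) (by positivity)
    (by field_simp; ring)
  have e1 : (a ^ (1 + θ) * b ^ (1 + θ)) ^ ((1 - θ) / (1 + θ)) = a ^ (1 - θ) * b ^ (1 - θ) := by
    rw [Real.mul_rpow (by positivity) (by positivity), ← Real.rpow_mul ha, ← Real.rpow_mul hb]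
    congr 2 <;> field_simp
  have e2 : ∀ c : ℝ, 0 ≤ c → (c ^ (1 + θ) * w ^ ((1 + θ) / (2 * θ))) ^ (θ / (1 + θ)) = c ^ θ * w ^ (1 / 2 : ℝ) := by
    intro c hc
    rw [Real.mul_rpow (by positivity) (by positivity), ← Real.rpow_mul hc, ← Real.rpow_mul hw]
    congr 2 <;> field_simp
  have e3 : ∀ c : ℝ, 0 ≤ c → c ^ (1 - θ) * c ^ θ = c := by
    intro c hc
    rw [← Real.rpow_add_of_nonneg hc (by linarith) hθ0.le]
    rw [show 1 - θ + θ = 1 by ring, Real.rpow_one]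
  have e4 : w ^ (1 / 2 : ℝ) * w ^ (1 / 2 : ℝ) = w := by
    rw [← Real.rpow_add_of_nonneg hw (by norm_num) (by norm_num)]
    norm_num
  rw [e1, e2 a ha, e2 b hb] at h1
  have e5 : a ^ (1 - θ) * b ^ (1 - θ) * (a ^ θ * w ^ (1 / 2 : ℝ)) * (b ^ θ * w ^ (1 / 2 : ℝ)) = a * b * w := by
    calc _ = (a ^ (1 - θ) * a ^ θ) * (b ^ (1 - θ) * b ^ θ) * (w ^ (1 / 2 : ℝ) * w ^ (1 / 2 : ℝ)) := by ring
      _ = _ := by rw [e3 a ha, e3 b hb, e4]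
  rw [e5] at h1
  have w1 : (1 - θ) / (1 + θ) ≤ 1 := by rw [div_le_one h0]; linarith
  have w2 : θ / (1 + θ) ≤ 1 := by rw [div_le_one h0]; linarith
  have k1 : (1 - θ) / (1 + θ) * (a ^ (1 + θ) * b ^ (1 + θ)) ≤ a ^ (1 + θ) * b ^ (1 + θ) :=
    mul_le_of_le_one_left (by positivity) w1
  have k2 : θ / (1 + θ) * (a ^ (1 + θ) * w ^ ((1 + θ) / (2 * θ))) ≤ a ^ (1 + θ) * w ^ ((1 + θ) / (2 * θ)) :=
    mul_le_of_le_one_left (by positivity) w2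
  have k3 : θ / (1 + θ) * (b ^ (1 + θ) * w ^ ((1 + θ) / (2 * θ))) ≤ b ^ (1 + θ) * w ^ ((1 + θ) / (2 * θ)) :=
    mul_le_of_le_one_left (by positivity) w2
  linarith

/-- the convolution form is small if `g` is uniformly small -/
theorem conv_small {G : Type*} [AddCommGroup G] [Fintype G] (g s : G → ℝ) (p : ℕ) (hp : 2 ≤ p) (κ C₁ C₂ : ℝ)
    (hκ : 0 ≤ κ) (hg0 : ∀ ξ, 0 ≤ g ξ) (hgκ : ∀ ξ, g ξ ≤ κ) (hs0 : ∀ t, 0 ≤ s t) (hs1 : ∀ t, s t ≤ 1)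
    (h1 : ∑ t, s t ^ p ≤ C₁) (h2 : ∑ ξ, g ξ ^ (1 + 1 / (2 * p : ℝ)) ≤ C₂) :
    ∑ ξ, ∑ ξ', g ξ * g ξ' * s (ξ - ξ') ^ 2 ≤
      (κ ^ (1 / (2 * p : ℝ)) * C₂) ^ 2 + 2 * (κ ^ (1 / (2 * p : ℝ)) * C₂) * C₁ := by
  have hp0 : (0 : ℝ) < p := by exact_mod_cast (by omega : 0 < p)
  have hp2 : (2 : ℝ) ≤ p := by exact_mod_cast hp
  set θ : ℝ := 1 / p with hθ
  have hθ0 : 0 < θ := by positivity
  have hθ1 : θ < 1 := by rw [hθ, div_lt_one hp0]; linarith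
  set A : G → ℝ := fun ξ => g ξ ^ (1 + θ) with hA
  set D : G → ℝ := fun t => s t ^ (p + 1) with hD
  have hA0 : ∀ ξ, 0 ≤ A ξ := fun ξ => Real.rpow_nonneg (hg0 ξ) _
  have hD0 : ∀ t, 0 ≤ D t := fun t => pow_nonneg (hs0 t) _
  have hterm : ∀ ξ ξ', g ξ * g ξ' * s (ξ - ξ') ^ 2 ≤ A ξ * A ξ' + A ξ * D (ξ - ξ') + A ξ' * D (ξ - ξ') := by
    intro ξ ξ'
    have h3 := young_term θ hθ0 hθ1 (g ξ) (g ξ') (s (ξ - ξ') ^ 2) (hg0 _) (hg0 _) (by positivity)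
    have e : (s (ξ - ξ') ^ 2) ^ ((1 + θ) / (2 * θ)) = s (ξ - ξ') ^ (p + 1) := by
      rw [← Real.rpow_natCast (s (ξ - ξ')) 2, ← Real.rpow_mul (hs0 _), ← Real.rpow_natCast (s (ξ - ξ')) (p + 1)]
      congr 1
      rw [hθ]; push_cast; field_simp
    rw [e] at h3
    exact h3
  have hAsum : ∑ ξ, A ξ ≤ κ ^ (1 / (2 * p : ℝ)) * C₂ := by
    calc ∑ ξ, A ξ ≤ ∑ ξ, κ ^ (1 / (2 * p : ℝ)) * g ξ ^ (1 + 1 / (2 * p : ℝ)) := by
          apply sum_le_sum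
          intro ξ _
          simp only [hA]
          have e : (1 + θ) = 1 / (2 * p : ℝ) + (1 + 1 / (2 * p : ℝ)) := by rw [hθ]; field_simp; ring
          rw [e, Real.rpow_add_of_nonneg (hg0 ξ) (by positivity) (by positivity)]
          apply mul_le_mul_of_nonneg_right _ (Real.rpow_nonneg (hg0 ξ) _)
          exact Real.rpow_le_rpow (hg0 ξ) (hgκ ξ) (by positivity)
      _ = κ ^ (1 / (2 * p : ℝ)) * ∑ ξ, g ξ ^ (1 + 1 / (2 * p : ℝ)) := by rw [mul_sum]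
      _ ≤ _ := mul_le_mul_of_nonneg_left h2 (by positivity)
  have hAs0 : 0 ≤ ∑ ξ, A ξ := sum_nonneg fun ξ _ => hA0 ξ
  have hDsum : ∑ t, D t ≤ C₁ := by
    refine le_trans (sum_le_sum fun t _ => ?_) h1
    simp only [hD]
    exact pow_le_pow_of_le_one (hs0 t) (hs1 t) (by omega)
  have hDs0 : 0 ≤ ∑ t, D t := sum_nonneg fun ξ _ => hD0 ξ
  have r1 : ∀ ξ, ∑ ξ', D (ξ - ξ') = ∑ t, D t := fun ξ => Equiv.sum_comp (Equiv.subLeft ξ) D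
  have r2 : ∀ ξ', ∑ ξ, D (ξ - ξ') = ∑ t, D t := fun ξ' => Equiv.sum_comp (Equiv.subRight ξ') D
  calc ∑ ξ, ∑ ξ', g ξ * g ξ' * s (ξ - ξ') ^ 2 ≤
      ∑ ξ, ∑ ξ', (A ξ * A ξ' + A ξ * D (ξ - ξ') + A ξ' * D (ξ - ξ')) :=
        sum_le_sum fun ξ _ => sum_le_sum fun ξ' _ => hterm ξ ξ'
    _ = (∑ ξ, A ξ) ^ 2 + 2 * (∑ ξ, A ξ) * ∑ t, D t := by
        simp_rw [sum_add_distrib]
        have s1 : ∑ ξ, ∑ ξ', A ξ * A ξ' = (∑ ξ, A ξ) ^ 2 := by rw [sq, sum_mul_sum]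
        have s2 : ∑ ξ, ∑ ξ', A ξ * D (ξ - ξ') = (∑ ξ, A ξ) * ∑ t, D t := by
          rw [sum_mul]
          apply sum_congr rfl; intro ξ _
          rw [← mul_sum, r1]
        have s3 : ∑ ξ, ∑ ξ', A ξ' * D (ξ - ξ') = (∑ ξ, A ξ) * ∑ t, D t := by
          rw [sum_comm, sum_mul]
          apply sum_congr rfl; intro ξ' _
          rw [← mul_sum, r2]
        rw [s1, s2, s3]; ring
    _ ≤ _ := by
        apply add_le_add
        · exact pow_le_pow_left₀ hAs0 hAsum 2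
        · apply mul_le_mul _ hDsum hDs0 _
          · linarith
          · have := hAs0.trans hAsum; linarith

end Pool.Agent.H373R2.NB
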