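import Mathlib
import Pool.Agent.H373R2.NB.Restr
import Pool.Agent.H373R2.NB.Young

namespace Pool.Agent.H373R2.NB
open Finset
open Pool.Agent.Helper602.MK
open Pool.Agent.Helper602.MK.N_J5b (ee_add ee_zero ee_conj norm_ee ee_int norm_one_sub_ee)

/-- average of the indicator of the primes over the shifts `W, 2W, ..., JW` -/
noncomputable def bZ (k M W J : ℕ) (m : ZMod M) : ℝ := (1 / (J : ℝ)) * ∑ j ∈ Icc 1 J, aZ k M (m - ((j * W : ℕ) : ZMod M))

/-- the difference -/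
noncomputable def EZ (k M W J : ℕ) (m : ZMod M) : ℝ := aZ k M m - bZ k M W J m

/-- the multiplier -/
noncomputable def nuZ {M : ℕ} [NeZero M] (W J : ℕ) (ξ : ZMod M) : ℂ :=
  (1 / (J : ℂ)) * ∑ j ∈ Icc 1 J, ZMod.stdAddChar (ξ * ((j * W : ℕ) : ZMod M))

lemma hat_shift {M : ℕ} [NeZero M] (u : ZMod M → ℝ) (c ξ : ZMod M) :
    ∑ m, ((u (m - c) : ℝ) : ℂ) * ZMod.stdAddChar (ξ * m) = ZMod.stdAddChar (ξ * c) * hat u ξ := by
  unfold hat
  rw [mul_sum, ← Equiv.sum_comp (Equiv.addRight c)]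
  apply sum_congr rfl
  intro m _
  simp only [Equiv.coe_addRight]
  rw [add_sub_cancel_right, mul_add, AddChar.map_add_eq_mul]
  ring

lemma hat_bZ {M : ℕ} [NeZero M] (k W J : ℕ) (ξ : ZMod M) :
    hat (bZ k M W J) ξ = nuZ W J ξ * hat (aZ k M) ξ := by
  have h1 : hat (bZ k M W J) ξ = (1 / (J : ℂ)) * ∑ j ∈ Icc 1 J, ∑ m : ZMod M,
      ((aZ k M (m - ((j * W : ℕ) : ZMod M)) : ℝ) : ℂ) * ZMod.stdAddChar (ξ * m) := by
    rw [hat, sum_comm, mul_sum]
    apply sum_congr rfl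
    intro m _
    rw [← sum_mul]
    unfold bZ
    push_cast
    ring
  rw [h1]
  unfold nuZ
  rw [mul_assoc, sum_mul]
  congr 1
  apply sum_congr rfl
  intro j _
  rw [hat_shift]

lemma hat_EZ {M : ℕ} [NeZero M] (k W J : ℕ) (ξ : ZMod M) :
    hat (EZ k M W J) ξ = (1 - nuZ W J ξ) * hat (aZ k M) ξ := by
  have h1 : hat (EZ k M W J) ξ = hat (aZ k M) ξ - hat (bZ k M W J) ξ := by
    unfold hat EZ
    rw [← sum_sub_distrib]
    apply sum_congr rfl
    intro m _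
    push_cast; ring
  rw [h1, hat_bZ]; ring

lemma one_sub_nuZ {M : ℕ} [NeZero M] (W J : ℕ) (hJ : 1 ≤ J) (ξ : ZMod M) :
    ‖1 - nuZ W J ξ‖ ≤ (1 / (J : ℝ)) * ∑ j ∈ Icc 1 J, ‖1 - (ZMod.stdAddChar (ξ * ((j * W : ℕ) : ZMod M)) : ℂ)‖ := by
  have hJ0 : (J : ℂ) ≠ 0 := by exact_mod_cast (by omega : J ≠ 0)
  have h1 : 1 - nuZ W J ξ = (1 / (J : ℂ)) * ∑ j ∈ Icc 1 J, (1 - (ZMod.stdAddChar (ξ * ((j * W : ℕ) : ZMod M)) : ℂ)) := by
    unfold nuZ
    rw [sum_sub_distrib, sum_const, Nat.card_Icc, Nat.add_sub_cancel, nsmul_eq_mul, mul_one]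
    field_simp
  rw [h1, norm_mul, norm_div, norm_one, Complex.norm_natCast]
  exact mul_le_mul_of_nonneg_left (norm_sum_le _ _) (by positivity)

lemma one_sub_nuZ_two {M : ℕ} [NeZero M] (W J : ℕ) (hJ : 1 ≤ J) (ξ : ZMod M) : ‖1 - nuZ W J ξ‖ ≤ 2 := by
  refine (one_sub_nuZ W J hJ ξ).trans ?_
  have hJ0 : (0 : ℝ) < J := by exact_mod_cast hJ
  calc (1 / (J : ℝ)) * ∑ j ∈ Icc 1 J, ‖1 - (ZMod.stdAddChar (ξ * ((j * W : ℕ) : ZMod M)) : ℂ)‖ ≤
      (1 / (J : ℝ)) * ∑ _j ∈ Icc 1 J, (2 : ℝ) := by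
        apply mul_le_mul_of_nonneg_left _ (by positivity)
        apply sum_le_sum
        intro j _
        refine (norm_sub_le _ _).trans ?_
        rw [norm_one, norm_chi]; norm_num
    _ = 2 := by
        rw [sum_const, Nat.card_Icc, Nat.add_sub_cancel, nsmul_eq_mul]; field_simp

lemma norm_one_sub_ee_le (t : ℝ) : ‖1 - ee t‖ ≤ 8 * |t| := by
  rw [norm_one_sub_ee]
  have h1 : |Real.sin (Real.pi * t)| ≤ |Real.pi * t| := by
    exact Real.abs_sin_le_abs
  rw [abs_mul, abs_of_pos Real.pi_pos] at h1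
  have h2 := Real.pi_le_four
  have h3 := abs_nonneg t
  nlinarith

/-- uniform smallness of the Fourier transform of `EZ` -/
theorem sup_small (κ : ℝ) (hκ : 0 < κ) : ∃ W₀ : ℕ, 1 ≤ W₀ ∧ ∃ τ₀ : ℝ, 0 < τ₀ ∧ ∃ k0 : ℕ, 2 ≤ k0 ∧ ∀ k : ℕ, k0 ≤ k →
    ∀ M : ℕ, [NeZero M] → k < M → ∀ W J : ℕ, 1 ≤ J → W₀ ∣ W → ((J * W : ℕ) : ℝ) ≤ τ₀ * k → ∀ ξ : ZMod M,
      ‖hat (EZ k M W J) ξ‖ ^ 2 * (Real.log k / k) ^ 2 ≤ κ := by
  set κ₁ := min 1 κ with hκ₁
  have hκ₁0 : 0 < κ₁ := by positivity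
  have hκ₁1 : κ₁ ≤ 1 := min_le_left _ _
  have hκ₁κ : κ₁ ≤ κ := min_le_right _ _
  obtain ⟨Q, hQ, N0, hN0, h4⟩ := mj4 (κ₁ / 4) (by positivity)
  have hlog4 : Real.log 4 ≤ 2 := by
    have h1 : Real.log 4 = 2 * Real.log 2 := by
      rw [show (4 : ℝ) = 2 ^ 2 by norm_num, Real.log_pow]; push_cast; ring
    have := Real.log_two_lt_d9
    linarith
  have hsq : ∀ᶠ k : ℕ in Filter.atTop, Real.log (k : ℝ) ≤ (κ₁ / 4) * (k : ℝ) ^ (1 / 2 : ℝ) := by
    have h1 := isLittleO_log_rpow_atTop (show (0 : ℝ) < 1 / 2 by norm_num)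
    have h2 := h1.bound (show 0 < κ₁ / 4 by positivity)
    have h3 := tendsto_natCast_atTop_atTop (R := ℝ) |>.eventually h2
    filter_upwards [h3, Filter.eventually_ge_atTop 1] with k hk hk1
    have hlog0 : 0 ≤ Real.log (k : ℝ) := Real.log_natCast_nonneg k
    rw [Real.norm_of_nonneg hlog0, Real.norm_of_nonneg (by positivity)] at hk
    exact hk
  obtain ⟨k1, hk1⟩ := Filter.eventually_atTop.1 hsq
  refine ⟨⌊Q⌋₊.factorial, Nat.factorial_pos _, κ₁ / (64 * Q), by positivity, N0 + k1 + 2, by omega, ?_⟩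
  intro k hk M hM hkM W J hJ hW hJW ξ
  have hk2 : 2 ≤ k := by omega
  have hkpos : (0 : ℝ) < k := by exact_mod_cast (by omega : 0 < k)
  have hlk : 0 < Real.log k := Real.log_pos (by exact_mod_cast hk2)
  have hMpos : (0 : ℝ) < M := by exact_mod_cast (by omega : 0 < M)
  have hmain : ‖hat (EZ k M W J) ξ‖ ≤ κ₁ * (k / Real.log k) := by
    rw [hat_EZ, norm_mul]
    set α : ℝ := (ξ.val : ℝ) / M with hα
    have hhat : hat (aZ k M) ξ = ∑ p ∈ PP k, ee (α * p) := by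
      rw [hat_aZ k hkM]
      apply sum_congr rfl; intro p _
      congr 1; rw [hα]; ring
    by_cases hmaj : Major Q k α
    · obtain ⟨q, hq1, hqQ, a, ha⟩ := hmaj
      have hqW : q ∣ W := (Nat.dvd_factorial hq1 (Nat.le_floor hqQ)).trans hW
      obtain ⟨w, hw⟩ := hqW
      have hq0 : (0 : ℝ) < q := by exact_mod_cast hq1
      have h1 : ‖1 - nuZ W J ξ‖ ≤ κ₁ / 8 := by
        refine (one_sub_nuZ W J hJ ξ).trans ?_
        have hJ0 : (0 : ℝ) < J := by exact_mod_cast hJ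
        calc (1 / (J : ℝ)) * ∑ j ∈ Icc 1 J, ‖1 - (ZMod.stdAddChar (ξ * ((j * W : ℕ) : ZMod M)) : ℂ)‖ ≤
            (1 / (J : ℝ)) * ∑ _j ∈ Icc 1 J, (κ₁ / 8) := by
              apply mul_le_mul_of_nonneg_left _ (by positivity)
              apply sum_le_sum
              intro j hj
              rw [mem_Icc] at hj
              rw [chi_eq]
              have e1 : (ξ.val : ℝ) * ((j * W : ℕ) : ℝ) / M = (α - a / q) * ((j * W : ℕ) : ℝ) + ((a * (j * w) : ℤ) : ℝ) := by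
                rw [hw, hα]; push_cast; field_simp; ring
              rw [e1, ee_add, ee_int, mul_one]
              refine (norm_one_sub_ee_le _).trans ?_
              rw [abs_mul, abs_of_nonneg (Nat.cast_nonneg (j * W) : (0 : ℝ) ≤ ((j * W : ℕ) : ℝ))]
              have h2 : ((j * W : ℕ) : ℝ) ≤ κ₁ / (64 * Q) * k := by
                refine le_trans ?_ hJW
                exact_mod_cast Nat.mul_le_mul_right W hj.2
              calc 8 * (|α - a / q| * ((j * W : ℕ) : ℝ)) ≤ 8 * ((Q / k) * (κ₁ / (64 * Q) * k)) := by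
                    apply mul_le_mul_of_nonneg_left _ (by norm_num)
                    exact mul_le_mul ha h2 (Nat.cast_nonneg _) (by positivity)
                _ = κ₁ / 8 := by field_simp; norm_num
          _ = _ := by rw [sum_const, Nat.card_Icc, Nat.add_sub_cancel, nsmul_eq_mul]; field_simp
      have h2 : ‖hat (aZ k M) ξ‖ ≤ 4 * (k / Real.log k) := by
        rw [hhat]
        calc ‖∑ p ∈ PP k, ee (α * p)‖ ≤ ∑ p ∈ PP k, ‖ee (α * p)‖ := norm_sum_le _ _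
          _ = #(PP k) := by simp [norm_ee]
          _ ≤ 2 * Real.log 4 * (k / Real.log k) := N_J6.j6_card k hk2
          _ ≤ _ := by
            apply mul_le_mul_of_nonneg_right _ (by positivity)
            linarith
      calc ‖1 - nuZ W J ξ‖ * ‖hat (aZ k M) ξ‖ ≤ (κ₁ / 8) * (4 * (k / Real.log k)) :=
            mul_le_mul h1 h2 (norm_nonneg _) (by positivity)
        _ ≤ _ := by
            have : 0 ≤ κ₁ * (k / Real.log k) := by positivity
            linarith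
    · have h1 := one_sub_nuZ_two W J hJ ξ
      have h2 := h4 k (by omega) α hmaj
      have h3 : ‖hat (aZ k M) ξ‖ ≤ (κ₁ / 2) * (k / Real.log k) := by
        rw [hhat]
        have hsplit : ∑ p ∈ (Icc 1 k).filter Nat.Prime, ee (α * p) = ∑ p ∈ PP k, ee (α * p) +
            ∑ p ∈ (Icc 1 k).filter (fun p => p.Prime ∧ ¬ k < p ^ 2), ee (α * p) := by
          unfold PP
          rw [← sum_filter_add_sum_filter_not ((Icc 1 k).filter Nat.Prime) (fun p => k < p ^ 2), filter_filter, filter_filter]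
        have h5 : ‖∑ p ∈ (Icc 1 k).filter (fun p => p.Prime ∧ ¬ k < p ^ 2), ee (α * p)‖ ≤ (k : ℝ) ^ (1 / 2 : ℝ) := by
          calc _ ≤ ∑ p ∈ (Icc 1 k).filter (fun p => p.Prime ∧ ¬ k < p ^ 2), ‖ee (α * p)‖ := norm_sum_le _ _
            _ = #((Icc 1 k).filter (fun p => p.Prime ∧ ¬ k < p ^ 2)) := by simp [norm_ee]
            _ ≤ (Nat.sqrt k : ℝ) := by
              have : (Icc 1 k).filter (fun p => p.Prime ∧ ¬ k < p ^ 2) ⊆ Icc 1 (Nat.sqrt k) := by
                intro p hp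
                rw [mem_filter, mem_Icc] at hp
                rw [mem_Icc]
                refine ⟨hp.1.1, Nat.le_sqrt.2 ?_⟩
                have := hp.2.2
                nlinarith
              have h6 := card_le_card this
              rw [Nat.card_Icc, Nat.add_sub_cancel] at h6
              exact_mod_cast h6
            _ ≤ _ := by
              rw [← Real.sqrt_eq_rpow]
              exact Real.nat_sqrt_le_real_sqrt
        have h6 : (k : ℝ) ^ (1 / 2 : ℝ) ≤ (κ₁ / 4) * (k / Real.log k) := by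
          have h7 := hk1 k (by omega)
          rw [← mul_div_assoc, le_div_iff₀ hlk]
          calc (k : ℝ) ^ (1 / 2 : ℝ) * Real.log k ≤ (k : ℝ) ^ (1 / 2 : ℝ) * ((κ₁ / 4) * (k : ℝ) ^ (1 / 2 : ℝ)) :=
                mul_le_mul_of_nonneg_left h7 (by positivity)
            _ = (κ₁ / 4) * ((k : ℝ) ^ (1 / 2 : ℝ) * (k : ℝ) ^ (1 / 2 : ℝ)) := by ring
            _ = (κ₁ / 4) * k := by
              rw [← Real.rpow_add hkpos]; norm_num
        have e : ∑ p ∈ PP k, ee (α * p) = ∑ p ∈ (Icc 1 k).filter Nat.Prime, ee (α * p) -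
            ∑ p ∈ (Icc 1 k).filter (fun p => p.Prime ∧ ¬ k < p ^ 2), ee (α * p) := by
          rw [hsplit]; ring
        rw [e]
        refine (norm_sub_le _ _).trans ?_
        have h8 : κ₁ / 4 * k / Real.log k = κ₁ / 4 * (k / Real.log k) := by ring
        rw [h8] at h2
        linarith
      calc ‖1 - nuZ W J ξ‖ * ‖hat (aZ k M) ξ‖ ≤ 2 * ((κ₁ / 2) * (k / Real.log k)) :=
            mul_le_mul h1 h3 (norm_nonneg _) (by positivity)
        _ = _ := by ring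
  calc ‖hat (EZ k M W J) ξ‖ ^ 2 * (Real.log k / k) ^ 2 ≤ (κ₁ * (k / Real.log k)) ^ 2 * (Real.log k / k) ^ 2 :=
        mul_le_mul_of_nonneg_right (pow_le_pow_left₀ (norm_nonneg _) hmain 2) (by positivity)
    _ = κ₁ ^ 2 := by field_simp
    _ ≤ κ₁ := by nlinarith
    _ ≤ κ := hκ₁κ

end Pool.Agent.H373R2.NB
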