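import Mathlib
import Pool.Agent.H373R2.NB.SupE
import Pool.Agent.Helper602.MK.J13

namespace Pool.Agent.H373R2.NB
open Finset
open Pool.Agent.Helper602.MK

/-- primes up to `N` in the class of `c` -/
def piA (W c N : ℕ) : ℕ := #((Icc 1 N).filter (fun p => p.Prime ∧ p ≡ c [MOD W]))

lemma piA_mod (W c N : ℕ) : piA W c N = piA W (c % W) N := by
  unfold piA
  congr 1
  ext p
  simp only [mem_filter]
  constructor
  · rintro ⟨h1, h2, h3⟩; exact ⟨h1, h2, h3.trans (Nat.mod_modEq c W).symm⟩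
  · rintro ⟨h1, h2, h3⟩; exact ⟨h1, h2, h3.trans (Nat.mod_modEq c W)⟩

lemma piA_unif (W : ℕ) (hW : 1 ≤ W) (δ : ℝ) (hδ : 0 < δ) : ∃ N₀ : ℕ, ∀ N : ℕ, N₀ ≤ N → ∀ c : ℕ, Nat.Coprime c W →
    |(piA W c N : ℝ) * Real.log N - N / Nat.totient W| ≤ δ * N := by
  have h1 : ∀ c ∈ range W, ∃ N₀ : ℕ, ∀ N : ℕ, N₀ ≤ N → Nat.Coprime c W →
      |(piA W c N : ℝ) * Real.log N - N / Nat.totient W| ≤ δ * N := by
    intro c _
    by_cases hc : Nat.Coprime c W
    · have h2 := N_J13.J13 W c hW hc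
      have h3 := Metric.tendsto_atTop.1 h2 δ hδ
      obtain ⟨N₀, hN₀⟩ := h3
      refine ⟨N₀ + 1, fun N hN _ => ?_⟩
      have h4 := hN₀ N (by omega)
      rw [Real.dist_eq] at h4
      have hN0 : (0 : ℝ) < N := by exact_mod_cast (by omega : 0 < N)
      have e : (piA W c N : ℝ) * Real.log N - N / Nat.totient W =
          ((piA W c N : ℝ) * Real.log N / N - 1 / Nat.totient W) * N := by field_simp
      rw [e, abs_mul, abs_of_pos hN0]
      exact mul_le_mul_of_nonneg_right h4.le hN0.le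
    · exact ⟨0, fun N _ h => absurd h hc⟩
  choose! N₀ hN₀ using h1
  refine ⟨(range W).sup N₀, fun N hN c hc => ?_⟩
  rw [piA_mod]
  apply hN₀ (c % W) (mem_range.2 (Nat.mod_lt _ hW)) N ((le_sup (mem_range.2 (Nat.mod_lt _ hW))).trans hN)
  have h2 : Nat.gcd (c % W) W = Nat.gcd c W := by rw [← Nat.gcd_rec, Nat.gcd_comm]
  rw [Nat.Coprime, h2]; exact hc

lemma window_count (W J m : ℕ) (hW : 1 ≤ W) (hJ : J * W < m) :
    #{j ∈ Icc 1 J | (m - j * W).Prime} + piA W m (m - J * W - 1) = piA W m (m - 1) := by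
  unfold piA
  have h1 : #{j ∈ Icc 1 J | (m - j * W).Prime} =
      #(((Icc (m - J * W) (m - 1)).filter (fun p => p.Prime ∧ p ≡ m [MOD W]))) := by
    apply card_bij (fun j _ => m - j * W)
    · intro j hj
      rw [mem_filter, mem_Icc] at hj
      have h2 : j * W ≤ J * W := Nat.mul_le_mul_right _ hj.1.2
      have h3 : 1 * 1 ≤ j * W := Nat.mul_le_mul hj.1.1 hW
      rw [mem_filter, mem_Icc]
      refine ⟨⟨by omega, by omega⟩, hj.2, ?_⟩
      exact (Nat.modEq_iff_dvd' (by omega)).2 ⟨j, by rw [Nat.sub_sub_self (by omega), mul_comm]⟩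
    · intro a ha b hb hab
      rw [mem_filter, mem_Icc] at ha hb
      have h2 : a * W ≤ J * W := Nat.mul_le_mul_right _ ha.1.2
      have h3 : b * W ≤ J * W := Nat.mul_le_mul_right _ hb.1.2
      have h4 : a * W = b * W := by omega
      exact Nat.eq_of_mul_eq_mul_right hW h4
    · intro p hp
      rw [mem_filter, mem_Icc] at hp
      obtain ⟨⟨h2, h3⟩, h4, h5⟩ := hp
      have h6 : W ∣ m - p := (Nat.modEq_iff_dvd' (by omega)).1 h5
      obtain ⟨j, hj⟩ := h6
      have h7 : m - p ≤ J * W := by omega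
      have h8 : 1 ≤ m - p := by omega
      refine ⟨j, ?_, ?_⟩
      · rw [mem_filter, mem_Icc]
        refine ⟨⟨?_, ?_⟩, ?_⟩
        · rcases Nat.eq_zero_or_pos j with h0 | h0
          · subst h0; simp at hj; omega
          · exact h0
        · rw [hj, mul_comm] at h7
          exact Nat.le_of_mul_le_mul_right h7 hW
        · rw [mul_comm, ← hj, Nat.sub_sub_self (by omega)]; exact h4
      · rw [mul_comm, ← hj, Nat.sub_sub_self (by omega)]
  rw [h1, ← card_union_of_disjoint]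
  · congr 1
    ext p
    simp only [mem_union, mem_filter, mem_Icc]
    constructor
    · rintro (⟨⟨h2, h3⟩, h4⟩ | ⟨⟨h2, h3⟩, h4⟩)
      · exact ⟨⟨by omega, h3⟩, h4⟩
      · exact ⟨⟨h2, by omega⟩, h4⟩
    · rintro ⟨⟨h2, h3⟩, h4⟩
      by_cases h5 : m - J * W ≤ p
      · exact Or.inl ⟨⟨h5, h3⟩, h4⟩
      · exact Or.inr ⟨⟨h2, by omega⟩, h4⟩
  · rw [disjoint_left]
    intro p hp hp'
    rw [mem_filter, mem_Icc] at hp hp'
    omega

/-- asymptotics of the averaged indicator -/
theorem model_b (W : ℕ) (hW : 1 ≤ W) (τ η ε : ℝ) (hτ : 0 < τ) (hτη : 2 * τ ≤ η) (hη1 : η ≤ 1) (hε : 0 < ε) :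
    ∃ K₀ : ℕ, ∀ K : ℕ, K₀ ≤ K → ∀ J : ℕ, τ / 2 * K ≤ ((J * W : ℕ) : ℝ) → ((J * W : ℕ) : ℝ) ≤ τ * K →
      ∀ M : ℕ, [NeZero M] → K < M → ∀ m : ℕ, η * K ≤ m → m ≤ K →
      (Nat.Coprime m W → (1 - ε) * ((W / Nat.totient W) / Real.log K) ≤ bZ K M W J (m : ZMod M) ∧
        bZ K M W J (m : ZMod M) ≤ (1 + ε) * ((W / Nat.totient W) / Real.log K)) ∧
      (¬ Nat.Coprime m W → bZ K M W J (m : ZMod M) = 0) := by
  have hη0 : 0 < η := by linarith
  have hW0 : (0 : ℝ) < W := by exact_mod_cast hW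
  have hφ0 : (0 : ℝ) < Nat.totient W := by exact_mod_cast Nat.totient_pos.2 hW
  set φ : ℝ := ((Nat.totient W : ℕ) : ℝ) with hφ
  set δ : ℝ := min (1 / 2) (ε * τ / (8 * φ)) with hδ
  have hδ0 : 0 < δ := by positivity
  have hδ1 : δ ≤ 1 / 2 := min_le_left _ _
  have hδ2 : 8 * φ * δ ≤ ε * τ := by
    have := min_le_right (1 / 2) (ε * τ / (8 * φ))
    rw [← hδ, le_div_iff₀ (by positivity)] at this
    linarith
  obtain ⟨N₀, hN₀⟩ := piA_unif W hW δ hδ0
  have hη4 : 0 ≤ Real.log (4 / η) := Real.log_nonneg (by rw [le_div_iff₀ hη0]; linarith)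
  have hlogt : Filter.Tendsto (fun x : ℕ => Real.log ((η / 4) * (x : ℝ))) Filter.atTop Filter.atTop :=
    Real.tendsto_log_atTop.comp (tendsto_natCast_atTop_atTop.const_mul_atTop (by positivity))
  obtain ⟨K₁, hK₁⟩ := Filter.eventually_atTop.1 (hlogt.eventually_ge_atTop (2 * Real.log (4 / η) / δ + 1))
  obtain ⟨K₂, hK₂⟩ := exists_nat_gt ((N₀ + 16) / (η / 4) + 16 / η ^ 2 + W ^ 2)
  refine ⟨K₁ + K₂ + 2, ?_⟩
  intro K hK J hJ1 hJ2 M hM hKM m hm1 hm2
  have hKr : (N₀ + 16) / (η / 4) + 16 / η ^ 2 + W ^ 2 < K := hK₂.trans_le (by exact_mod_cast (by omega : K₂ ≤ K))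
  have hKpos : (0 : ℝ) < K := by exact_mod_cast (by omega : 0 < K)
  have t1 : (0 : ℝ) ≤ (N₀ + 16) / (η / 4) := by positivity
  have t2 : (0 : ℝ) ≤ 16 / η ^ 2 := by positivity
  have t3 : (0 : ℝ) ≤ (W : ℝ) ^ 2 := by positivity
  have hK4 : (N₀ : ℝ) + 16 ≤ (η / 4) * K := by
    have : (N₀ + 16) / (η / 4) ≤ K := by linarith
    rw [div_le_iff₀ (by positivity)] at this
    linarith
  have hN₀n : (0 : ℝ) ≤ N₀ := Nat.cast_nonneg _
  have hKW : W ^ 2 ≤ K := by
    have : (W : ℝ) ^ 2 ≤ K := by linarith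
    exact_mod_cast this
  have hKη : 16 ≤ η ^ 2 * K := by
    have : 16 / η ^ 2 ≤ K := by linarith
    rw [div_le_iff₀ (by positivity)] at this
    linarith
  have hJm : ((J * W : ℕ) : ℝ) ≤ η / 2 * K := hJ2.trans (mul_le_mul_of_nonneg_right (by linarith) hKpos.le)
  have hlow : ∀ j ∈ Icc 1 J, j * W < m ∧ η / 2 * K ≤ ((m - j * W : ℕ) : ℝ) := by
    intro j hj
    rw [mem_Icc] at hj
    have h1 : ((j * W : ℕ) : ℝ) ≤ ((J * W : ℕ) : ℝ) := by exact_mod_cast Nat.mul_le_mul_right _ hj.2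
    have h2 : ((j * W : ℕ) : ℝ) < m := by nlinarith
    have h3 : j * W < m := by exact_mod_cast h2
    refine ⟨h3, ?_⟩
    rw [Nat.cast_sub h3.le]
    linarith
  have hJW : J * W < m := by
    have h2 : ((J * W : ℕ) : ℝ) < m := by nlinarith
    exact_mod_cast h2
  have hval : ∀ j ∈ Icc 1 J, aZ K M ((m : ZMod M) - ((j * W : ℕ) : ZMod M)) = if (m - j * W).Prime then 1 else 0 := by
    intro j hj
    obtain ⟨h1, h2⟩ := hlow j hj
    have h3 : (m : ZMod M) - ((j * W : ℕ) : ZMod M) = ((m - j * W : ℕ) : ZMod M) := by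
      rw [Nat.cast_sub h1.le]
    unfold aZ
    rw [h3, ZMod.val_natCast_of_lt (by omega)]
    by_cases h4 : (m - j * W).Prime
    · rw [if_pos h4, if_pos]
      rw [PP, mem_filter, mem_Icc]
      refine ⟨⟨by omega, by omega⟩, h4, ?_⟩
      have h5 : (K : ℝ) < ((m - j * W : ℕ) : ℝ) ^ 2 := by
        calc (K : ℝ) < (η / 2 * K) ^ 2 := by nlinarith
          _ ≤ _ := pow_le_pow_left₀ (by positivity) h2 2
      exact_mod_cast h5
    · rw [if_neg h4, if_neg]
      intro h5
      rw [PP, mem_filter] at h5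
      exact h4 h5.2.1
  have hJ0 : 0 < J := by
    rcases Nat.eq_zero_or_pos J with h0 | h0
    · subst h0
      rw [zero_mul, Nat.cast_zero] at hJ1
      have : 0 < τ / 2 * K := by positivity
      linarith
    · exact h0
  have hJr : (0 : ℝ) < J := by exact_mod_cast hJ0
  have hb : bZ K M W J (m : ZMod M) = (1 / (J : ℝ)) * #{j ∈ Icc 1 J | (m - j * W).Prime} := by
    unfold bZ
    rw [sum_congr rfl hval, ← sum_filter, sum_const, nsmul_eq_mul, mul_one]
  refine ⟨fun hcop => ?_, fun hcop => ?_⟩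
  · have hw := window_count W J m hW hJW
    have hwr : (#{j ∈ Icc 1 J | (m - j * W).Prime} : ℝ) = piA W m (m - 1) - piA W m (m - J * W - 1) := by
      have : ((#{j ∈ Icc 1 J | (m - j * W).Prime} + piA W m (m - J * W - 1) : ℕ) : ℝ) = piA W m (m - 1) := by rw [hw]
      push_cast at this
      linarith
    have hest : ∀ N : ℕ, (η / 4) * K ≤ N → N ≤ K → |(piA W m N : ℝ) * Real.log K - N / φ| ≤ 2 * δ * K := by
      intro N hN1 hN2
      have hN2r : (N : ℝ) ≤ K := by exact_mod_cast hN2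
      have hNN : N₀ ≤ N := by
        have : (N₀ : ℝ) ≤ N := by linarith
        exact_mod_cast this
      have hNpos : (0 : ℝ) < N := by linarith
      have h1 := hN₀ N hNN m hcop
      have h2 : Real.log K - Real.log N ≤ Real.log (4 / η) := by
        rw [← Real.log_div hKpos.ne' hNpos.ne']
        apply Real.log_le_log (by positivity)
        rw [div_le_div_iff₀ hNpos hη0]
        linarith
      have h3 : 0 ≤ Real.log K - Real.log N := sub_nonneg.2 (Real.log_le_log hNpos hN2r)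
      have h4 : 2 * Real.log (4 / η) / δ + 1 ≤ Real.log N :=
        (hK₁ K (by omega)).trans (Real.log_le_log (by positivity) hN1)
      have hlogN : 0 < Real.log N := by
        have : 0 ≤ 2 * Real.log (4 / η) / δ := by positivity
        linarith
      have h5 : (piA W m N : ℝ) * Real.log N ≤ 2 * K := by
        have h6 := (abs_le.1 h1).2
        have h7 : (N : ℝ) / φ ≤ N := by
          apply div_le_self hNpos.le
          rw [hφ]; exact_mod_cast Nat.totient_pos.2 hW
        nlinarith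
      have h6 : (piA W m N : ℝ) * (Real.log K - Real.log N) ≤ δ * K := by
        have h7 : (piA W m N : ℝ) * (2 * Real.log (4 / η) / δ) ≤ 2 * K := by
          refine le_trans (mul_le_mul_of_nonneg_left ?_ (Nat.cast_nonneg _)) h5
          linarith
        have h8 : (piA W m N : ℝ) * Real.log (4 / η) ≤ δ * K := by
          rw [mul_div_assoc', div_le_iff₀ hδ0] at h7
          linarith
        exact (mul_le_mul_of_nonneg_left h2 (Nat.cast_nonneg _)).trans h8
      have h7 : 0 ≤ (piA W m N : ℝ) * (Real.log K - Real.log N) := by positivity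
      have e : (piA W m N : ℝ) * Real.log K - N / φ = ((piA W m N : ℝ) * Real.log N - N / φ) +
          (piA W m N : ℝ) * (Real.log K - Real.log N) := by ring
      rw [e]
      refine (abs_add_le _ _).trans ?_
      rw [abs_of_nonneg h7]
      have h8 : δ * N ≤ δ * K := mul_le_mul_of_nonneg_left hN2r hδ0.le
      linarith
    have hm0 : 1 ≤ m := by omega
    have hm1r : (1 : ℝ) ≤ m := by exact_mod_cast hm0
    have e1 := hest (m - 1) (by rw [Nat.cast_sub hm0]; push_cast; nlinarith) (by omega)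
    have e2 := hest (m - J * W - 1) (by
      rw [Nat.cast_sub (by omega), Nat.cast_sub hJW.le]
      push_cast
      push_cast at hJm
      nlinarith) (by omega)
    have hlK : 0 < Real.log K := Real.log_pos (by exact_mod_cast (by omega : 1 < K))
    have e3 : |(#{j ∈ Icc 1 J | (m - j * W).Prime} : ℝ) * Real.log K - J * W / φ| ≤ 4 * δ * K := by
      rw [hwr]
      have e4 : ((piA W m (m - 1) : ℝ) - piA W m (m - J * W - 1)) * Real.log K - J * W / φ =
          ((piA W m (m - 1) : ℝ) * Real.log K - ((m - 1 : ℕ) : ℝ) / φ) -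
          ((piA W m (m - J * W - 1) : ℝ) * Real.log K - ((m - J * W - 1 : ℕ) : ℝ) / φ) := by
        rw [Nat.cast_sub hm0, Nat.cast_sub (show 1 ≤ m - J * W by omega), Nat.cast_sub hJW.le]
        push_cast; ring
      rw [e4]
      refine (abs_sub _ _).trans ?_
      linarith
    have e5 : |bZ K M W J (m : ZMod M) * Real.log K - W / φ| ≤ ε * (W / φ) := by
      rw [hb]
      have e6 : (1 / (J : ℝ)) * #{j ∈ Icc 1 J | (m - j * W).Prime} * Real.log K - W / φ =
          ((#{j ∈ Icc 1 J | (m - j * W).Prime} : ℝ) * Real.log K - J * W / φ) / J := by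
        field_simp
      rw [e6, abs_div, abs_of_pos hJr, div_le_iff₀ hJr]
      refine e3.trans ?_
      have e7 : (K : ℝ) ≤ 2 * (J * W) / τ := by
        rw [le_div_iff₀ hτ]
        push_cast at hJ1
        linarith
      calc 4 * δ * K ≤ 4 * δ * (2 * (J * W) / τ) := mul_le_mul_of_nonneg_left e7 (by positivity)
        _ = (8 * φ * δ) * (J * W) / (τ * φ) := by field_simp; ring
        _ ≤ (ε * τ) * (J * W) / (τ * φ) := by
            apply div_le_div_of_nonneg_right _ (by positivity)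
            exact mul_le_mul_of_nonneg_right hδ2 (by positivity)
        _ = ε * (W / φ) * J := by field_simp
    obtain ⟨e6, e7⟩ := abs_le.1 e5
    constructor
    · rw [← mul_div_assoc, div_le_iff₀ hlK]; linarith
    · rw [← mul_div_assoc, le_div_iff₀ hlK]; linarith
  · rw [hb]
    have h1 : {j ∈ Icc 1 J | (m - j * W).Prime} = ∅ := by
      rw [filter_eq_empty_iff]
      intro j hj hp
      obtain ⟨h2, h3⟩ := hlow j hj
      apply hcop
      have h4 : Nat.Coprime (m - j * W) W := by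
        rw [Nat.Prime.coprime_iff_not_dvd hp]
        intro h5
        have h6 := Nat.le_of_dvd hW h5
        have h7 : (K : ℝ) < ((m - j * W : ℕ) : ℝ) ^ 2 := by
          calc (K : ℝ) < (η / 2 * K) ^ 2 := by nlinarith
            _ ≤ _ := pow_le_pow_left₀ (by positivity) h3 2
        have h8 : K < (m - j * W) ^ 2 := by exact_mod_cast h7
        have h9 : (m - j * W) ^ 2 ≤ W ^ 2 := Nat.pow_le_pow_left h6 2
        omega
      have h5 : m = (m - j * W) + j * W := by omega
      rw [h5]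
      exact (Nat.coprime_add_mul_right_left _ _ _).2 h4
    rw [h1, card_empty, Nat.cast_zero, mul_zero]

end Pool.Agent.H373R2.NB
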