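import Mathlib
import Pool.Agent.H373R2.NB.ModelB
import Pool.Agent.H373R2.SH.STail

namespace Pool.Agent.H373R2.NB
open Finset Polynomial
open Pool.Agent.Helper602.MK
open Pool.Agent.H373R2.BH (card_filter_real LD)
open Pool.Agent.H373R2.SH (sgS dnS ufS prod_dnS LD_eval' sgS_nonneg one_sub_pos)

variable {r : ℕ}

lemma coprime_fact (y m : ℕ) : Nat.Coprime m y.factorial ↔ ∀ p ∈ (range (y + 1)).filter Nat.Prime, ¬ p ∣ m := by
  constructor
  · intro h p hp hpm
    rw [mem_filter, mem_range] at hp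
    have h1 : p ∣ y.factorial := (Nat.Prime.dvd_factorial hp.2).2 (by omega)
    exact hp.2.one_lt.ne' (Nat.eq_one_of_dvd_coprimes h hpm h1)
  · intro h
    apply Nat.Coprime.symm
    rw [Nat.coprime_comm]
    apply Nat.coprime_of_dvd
    intro p hp hpm hpy
    rw [Nat.Prime.dvd_factorial hp] at hpy
    exact h p (mem_filter.2 ⟨mem_range.2 (by omega), hp⟩) hpm

lemma ratio_fact (y : ℕ) : ((y.factorial : ℝ) / Nat.totient y.factorial) =
    ∏ p ∈ (range (y + 1)).filter Nat.Prime, (1 - 1 / (p : ℝ))⁻¹ := by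
  have hW : 0 < y.factorial := Nat.factorial_pos y
  have hWr : (0 : ℝ) < y.factorial := by exact_mod_cast hW
  have hpf : y.factorial.primeFactors = (range (y + 1)).filter Nat.Prime := by
    ext p
    rw [Nat.mem_primeFactors, mem_filter, mem_range]
    constructor
    · rintro ⟨h1, h2, _⟩
      rw [Nat.Prime.dvd_factorial h1] at h2
      exact ⟨by omega, h1⟩
    · rintro ⟨h1, h2⟩
      exact ⟨h2, (Nat.Prime.dvd_factorial h2).2 (by omega), hW.ne'⟩
  have h1 : (Nat.totient y.factorial : ℝ) = y.factorial * ∏ p ∈ y.factorial.primeFactors, (1 - (p : ℝ)⁻¹) := by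
    have := Nat.totient_eq_mul_prod_factors y.factorial
    have h2 : ((Nat.totient y.factorial : ℚ) : ℝ) = ((y.factorial * ∏ p ∈ y.factorial.primeFactors, (1 - (p : ℚ)⁻¹) : ℚ) : ℝ) := by
      rw [this]
    push_cast at h2
    push_cast
    exact h2
  rw [h1, ← div_div, div_self hWr.ne', one_div, hpf, prod_inv_distrib]
  congr 1
  apply prod_congr rfl
  intro p _
  rw [one_div]

lemma count_period (P : ℕ) (hP : 0 < P) (Q : ℕ → Prop) [DecidablePred Q] (hQ : Function.Periodic Q P) (x : ℕ) :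
    |(#{n ∈ Icc 1 x | Q n} : ℝ) - x * ((#{n ∈ range P | Q n} : ℝ) / P)| ≤ P := by
  have h1 : ∀ t, #{u ∈ Ico 1 (1 + t * P) | Q u} = t * #{u ∈ range P | Q u} := by
    intro t
    induction t with
    | zero => simp
    | succ t ih =>
      have h2 : Ico 1 (1 + (t + 1) * P) = Ico 1 (1 + t * P) ∪ Ico (1 + t * P) (1 + t * P + P) := by
        rw [Ico_union_Ico_eq_Ico (by omega) (by omega)]
        congr 1; ring
      have h3 : Disjoint (Ico 1 (1 + t * P)) (Ico (1 + t * P) (1 + t * P + P)) := Ico_disjoint_Ico_consecutive _ _ _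
      rw [h2, filter_union, card_union_of_disjoint (disjoint_filter_filter h3), ih]
      have h4 := Nat.filter_Ico_card_eq_of_periodic (1 + t * P) P Q hQ
      rw [h4, Nat.count_eq_card_filter_range]
      ring
  set c := #{u ∈ range P | Q u} with hc
  have hcP : c ≤ P := (card_filter_le _ _).trans (by rw [card_range])
  have hPr : (0 : ℝ) < P := by exact_mod_cast hP
  have hcPr : (c : ℝ) ≤ P := by exact_mod_cast hcP
  have hc0 : (0 : ℝ) ≤ c := Nat.cast_nonneg _
  have hdm := Nat.div_add_mod x P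
  have hmod := Nat.mod_lt x hP
  have hup : #{n ∈ Icc 1 x | Q n} ≤ (x / P + 1) * c := by
    rw [hc, ← h1]
    apply card_le_card
    apply filter_subset_filter
    intro n hn
    rw [mem_Icc] at hn
    rw [mem_Ico]
    refine ⟨hn.1, ?_⟩
    have : (x / P + 1) * P = P * (x / P) + P := by ring
    omega
  have hlo : (x / P) * c ≤ #{n ∈ Icc 1 x | Q n} := by
    rw [hc, ← h1]
    apply card_le_card
    apply filter_subset_filter
    intro n hn
    rw [mem_Ico] at hn
    rw [mem_Icc]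
    refine ⟨hn.1, ?_⟩
    have : (x / P) * P = P * (x / P) := by ring
    omega
  have hq1 : ((x / P : ℕ) : ℝ) ≤ x / P := Nat.cast_div_le
  have hq2 : (x : ℝ) / P ≤ ((x / P : ℕ) : ℝ) + 1 := by
    rw [div_le_iff₀ hPr]
    have h3 : x ≤ (x / P + 1) * P := by
      have : (x / P + 1) * P = P * (x / P) + P := by ring
      omega
    exact_mod_cast h3
  have hupr : (#{n ∈ Icc 1 x | Q n} : ℝ) ≤ (((x / P : ℕ) : ℝ) + 1) * c := by exact_mod_cast hup
  have hlor : ((x / P : ℕ) : ℝ) * c ≤ (#{n ∈ Icc 1 x | Q n} : ℝ) := by exact_mod_cast hlo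
  have e : (x : ℝ) * ((c : ℝ) / P) = (x / P) * c := by ring
  rw [e, abs_le]
  constructor <;> nlinarith

/-- the main term -/
theorem model_count (hr : 1 ≤ r) (f : Fin r → ℕ[X]) (y : ℕ) (τ η ε : ℝ) (hτ : 0 < τ) (hτη : 2 * τ ≤ η)
    (hη1 : η ≤ 1) (hε : 0 < ε) :
    ∃ x₀ : ℕ, ∀ x : ℕ, x₀ ≤ x → ∀ K M J h : Fin r → ℕ, [∀ i, NeZero (M i)] →
      (∀ i, x ≤ K i ∧ K i < M i ∧ τ / 2 * K i ≤ ((J i * y.factorial : ℕ) : ℝ) ∧ ((J i * y.factorial : ℕ) : ℝ) ≤ τ * K i ∧
        η * K i ≤ h i ∧ ∀ n ∈ Icc 1 x, h i + (f i).eval n ≤ K i) →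
      |(∑ n ∈ Icc 1 x, ∏ i, bZ (K i) (M i) y.factorial (J i) ((((f i).eval n : ℕ) : ZMod (M i)) + ((h i : ℕ) : ZMod (M i)))) *
        (∏ i, Real.log (K i)) - sgS (fun i n => (f i).eval n) h y * x| ≤ ε * (sgS (fun i n => (f i).eval n) h y + 1) * x := by
  set W := y.factorial with hW
  have hW1 : 1 ≤ W := Nat.factorial_pos y
  have hφpos : (0 : ℝ) < Nat.totient W := by exact_mod_cast Nat.totient_pos.2 hW1
  set ρ : ℝ := (W : ℝ) / Nat.totient W with hρ
  have hρ0 : 0 < ρ := by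
    have : (0 : ℝ) < W := by exact_mod_cast hW1
    positivity
  set s := (range (y + 1)).filter Nat.Prime with hs
  set P := ∏ p ∈ s, p with hP
  have hPpos : 0 < P := prod_pos fun p hp => (mem_filter.1 hp).2.pos
  have hPr : (0 : ℝ) < P := by exact_mod_cast hPpos
  -- choice of the precision
  set ε₁ : ℝ := min 1 ε / (2 * (2 ^ r * r + 1)) with hε₁
  have hrr : (0 : ℝ) ≤ r := Nat.cast_nonneg r
  have hmin0 : 0 < min 1 ε := by positivity
  have hε₁0 : 0 < ε₁ := by positivity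
  have hε₁1 : ε₁ ≤ 1 := by
    rw [hε₁, div_le_one (by positivity)]
    have : min 1 ε ≤ 1 := min_le_left _ _
    have : (0 : ℝ) ≤ 2 ^ r * r := by positivity
    linarith
  have hup : (1 + ε₁) ^ r ≤ 1 + ε / 2 := by
    have h1 := Pool.Agent.H373R2.SH.pow_one_add_le ε₁ hε₁0.le hε₁1 r
    refine h1.trans ?_
    have h2 : 2 ^ r * ε₁ ≤ ε / 2 := by
      rw [hε₁, mul_div_assoc', div_le_div_iff₀ (by positivity) (by norm_num)]
      have h3 : min 1 ε ≤ ε := min_le_right _ _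
      have h4 : (1 : ℝ) ≤ r := by exact_mod_cast hr
      have h5 : (0 : ℝ) < 2 ^ r := by positivity
      nlinarith [mul_le_mul_of_nonneg_left h3 h5.le, mul_le_mul_of_nonneg_left h4 (mul_pos h5 hε).le]
    linarith
  have hdown : 1 - ε / 2 ≤ (1 - ε₁) ^ r := by
    have h1 := one_add_mul_le_pow (show -2 ≤ -ε₁ by linarith) r
    have h2 : (r : ℝ) * ε₁ ≤ ε / 2 := by
      rw [hε₁, mul_div_assoc', div_le_div_iff₀ (by positivity) (by norm_num)]
      have h3 : min 1 ε ≤ ε := min_le_right _ _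
      have h5 : (1 : ℝ) ≤ 2 ^ r := one_le_pow₀ (by norm_num)
      nlinarith [mul_le_mul_of_nonneg_left h3 hrr, mul_le_mul_of_nonneg_left h5 (mul_nonneg hε.le hrr)]
    have h3 : 1 + (r : ℝ) * -ε₁ = 1 - r * ε₁ := by ring
    rw [h3] at h1
    have h4 : (1 + -ε₁) = 1 - ε₁ := by ring
    rw [h4] at h1
    linarith
  obtain ⟨K₀, hK₀⟩ := model_b W hW1 τ η ε₁ hτ hτη hη1 hε₁0
  obtain ⟨x₁, hx₁⟩ := exists_nat_gt (2 * (1 + ε / 2) * (ρ ^ r * P) / ε)
  refine ⟨K₀ + x₁ + 2, ?_⟩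
  intro x hx K M J h hM hK
  have hx0 : (0 : ℝ) < x := by exact_mod_cast (by omega : 0 < x)
  have hxb : 2 * (1 + ε / 2) * (ρ ^ r * P) ≤ ε * x := by
    have h1 : 2 * (1 + ε / 2) * (ρ ^ r * P) / ε < x := hx₁.trans_le (by exact_mod_cast (by omega : x₁ ≤ x))
    rw [div_lt_iff₀ hε] at h1
    linarith
  have hlK : ∀ i, 0 < Real.log (K i) := fun i =>
    Real.log_pos (by exact_mod_cast (by have := (hK i).1; omega : 1 < K i))
  set L := ∏ i, Real.log (K i) with hL
  have hL0 : 0 < L := prod_pos fun i _ => hlK i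
  set σ := sgS (fun i n => (f i).eval n) h y with hσ
  have hσ0 : 0 ≤ σ := sgS_nonneg _ _ _
  set b : Fin r → ℕ → ℝ := fun i n => bZ (K i) (M i) W (J i) ((((f i).eval n : ℕ) : ZMod (M i)) + ((h i : ℕ) : ZMod (M i))) with hb
  set cond : ℕ → Prop := fun n => ∀ i, ∀ p ∈ s, ¬ p ∣ h i + (f i).eval n with hcond
  classical
  have hpt : ∀ i, ∀ n ∈ Icc 1 x, (Nat.Coprime (h i + (f i).eval n) W → (1 - ε₁) * (ρ / Real.log (K i)) ≤ b i n ∧
      b i n ≤ (1 + ε₁) * (ρ / Real.log (K i))) ∧ (¬ Nat.Coprime (h i + (f i).eval n) W → b i n = 0) := by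
    intro i n hn
    obtain ⟨h1, h2, h3, h4, h5, h6⟩ := hK i
    have e : (((f i).eval n : ℕ) : ZMod (M i)) + ((h i : ℕ) : ZMod (M i)) = ((h i + (f i).eval n : ℕ) : ZMod (M i)) := by
      push_cast; ring
    simp only [hb, e]
    apply hK₀ (K i) (by omega) (J i) h3 h4 (M i) h2 (h i + (f i).eval n)
    · have : (0 : ℝ) ≤ (((f i).eval n : ℕ) : ℝ) := Nat.cast_nonneg _
      push_cast; linarith
    · exact h6 n hn
  have hprod : ∀ n ∈ Icc 1 x, (cond n → (1 - ε / 2) * (ρ ^ r / L) ≤ ∏ i, b i n ∧ ∏ i, b i n ≤ (1 + ε / 2) * (ρ ^ r / L)) ∧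
      (¬ cond n → ∏ i, b i n = 0) := by
    intro n hn
    have e1 : ∀ c : ℝ, ∏ i : Fin r, (c * (ρ / Real.log (K i))) = c ^ r * (ρ ^ r / L) := by
      intro c
      rw [prod_mul_distrib, prod_const, card_fin, prod_div_distrib, prod_const, card_fin]
    have hρL : 0 ≤ ρ ^ r / L := by positivity
    refine ⟨fun hc => ?_, fun hc => ?_⟩
    · have h1 : ∀ i, (1 - ε₁) * (ρ / Real.log (K i)) ≤ b i n ∧ b i n ≤ (1 + ε₁) * (ρ / Real.log (K i)) := fun i =>
        (hpt i n hn).1 ((coprime_fact y _).2 (hc i))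
      have h2 : ∀ i, 0 ≤ (1 - ε₁) * (ρ / Real.log (K i)) := fun i =>
        mul_nonneg (by linarith) (div_nonneg hρ0.le (hlK i).le)
      constructor
      · calc (1 - ε / 2) * (ρ ^ r / L) ≤ (1 - ε₁) ^ r * (ρ ^ r / L) := mul_le_mul_of_nonneg_right hdown hρL
          _ = ∏ i : Fin r, ((1 - ε₁) * (ρ / Real.log (K i))) := (e1 _).symm
          _ ≤ _ := prod_le_prod (fun i _ => h2 i) fun i _ => (h1 i).1
      · calc ∏ i, b i n ≤ ∏ i : Fin r, ((1 + ε₁) * (ρ / Real.log (K i))) :=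
              prod_le_prod (fun i _ => (h2 i).trans (h1 i).1) fun i _ => (h1 i).2
          _ = (1 + ε₁) ^ r * (ρ ^ r / L) := e1 _
          _ ≤ _ := mul_le_mul_of_nonneg_right hup hρL
    · simp only [hcond, not_forall] at hc
      obtain ⟨i, p, hp, hpd⟩ := hc
      apply prod_eq_zero (mem_univ i)
      apply (hpt i n hn).2
      rw [coprime_fact]
      intro h7
      exact hpd (h7 p hp)
  set N : ℝ := (#{n ∈ Icc 1 x | cond n} : ℝ) with hN
  have hNeq : N = ∑ n ∈ Icc 1 x, (if cond n then (1 : ℝ) else 0) := card_filter_real _ _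
  have hS1 : (1 - ε / 2) * (ρ ^ r / L) * N ≤ ∑ n ∈ Icc 1 x, ∏ i, b i n := by
    rw [hNeq, mul_sum]
    apply sum_le_sum; intro n hn
    obtain ⟨h1, h2⟩ := hprod n hn
    split_ifs with h3
    · rw [mul_one]; exact (h1 h3).1
    · rw [mul_zero, h2 h3]
  have hS2 : ∑ n ∈ Icc 1 x, ∏ i, b i n ≤ (1 + ε / 2) * (ρ ^ r / L) * N := by
    rw [hNeq, mul_sum]
    apply sum_le_sum; intro n hn
    obtain ⟨h1, h2⟩ := hprod n hn
    split_ifs with h3
    · rw [mul_one]; exact (h1 h3).2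
    · rw [mul_zero, h2 h3]
  have hper : Function.Periodic cond P := by
    intro n
    apply propext
    simp only [hcond]
    apply forall_congr'; intro i
    apply forall_congr'; intro p
    apply forall_congr'; intro hp
    apply not_congr
    obtain ⟨c, hc⟩ := LD_eval' (f i) n (n + P) (Nat.le_add_right _ _)
    have hc' : (f i).eval (n + P) = (f i).eval n + (n + P - n) * c := hc
    rw [hc', ← add_assoc]
    have h2 : p ∣ (n + P - n) * c := by
      rw [Nat.add_sub_cancel_left]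
      exact (dvd_prod_of_mem (fun p => p) hp).mul_right c
    exact Nat.dvd_add_left h2
  have hcnt := count_period P hPpos cond hper x
  rw [← hN] at hcnt
  have hσeq : σ = ρ ^ r * ((#{n ∈ range P | cond n} : ℝ) / P) := by
    rw [hσ]
    unfold sgS
    have h1 : ∏ p ∈ s, ufS (fun i n => (f i).eval n) h p = (∏ p ∈ s, (1 - 1 / (p : ℝ))⁻¹) ^ r *
        ∏ p ∈ s, dnS (fun i n => (f i).eval n) h p := by
      rw [← prod_pow, ← prod_mul_distrib]
      apply prod_congr rfl; intro p _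
      unfold ufS; rw [inv_pow]
    rw [← hs, h1, hρ, hW, ratio_fact y, ← hs]
    congr 1
    have hpd := prod_dnS r (fun i n => (f i).eval n) (fun i => LD_eval' (f i)) y h
    rw [← hs, ← hP] at hpd
    rw [hpd, one_div, ← div_eq_inv_mul, card_filter_real]
    congr 1
    apply sum_congr rfl; intro n _
    rw [prod_ite_zero]
    simp only [hcond, prod_const_one, mem_univ, true_imp_iff]
  have hρr : 0 < ρ ^ r := by positivity
  have hNL1 : ρ ^ r * N ≤ σ * x + ρ ^ r * P := by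
    have h1 := (abs_le.1 hcnt).2
    have h2 : ρ ^ r * N ≤ ρ ^ r * (x * ((#{n ∈ range P | cond n} : ℝ) / P) + P) :=
      mul_le_mul_of_nonneg_left (by linarith) hρr.le
    rw [hσeq]
    linarith
  have hNL2 : σ * x - ρ ^ r * P ≤ ρ ^ r * N := by
    have h1 := (abs_le.1 hcnt).1
    have h2 : ρ ^ r * (x * ((#{n ∈ range P | cond n} : ℝ) / P) - P) ≤ ρ ^ r * N :=
      mul_le_mul_of_nonneg_left (by linarith) hρr.le
    rw [hσeq]
    linarith
  have hN0 : 0 ≤ N := Nat.cast_nonneg _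
  have g1 : (∑ n ∈ Icc 1 x, ∏ i, b i n) * L ≤ (1 + ε / 2) * (ρ ^ r * N) := by
    calc _ ≤ ((1 + ε / 2) * (ρ ^ r / L) * N) * L := mul_le_mul_of_nonneg_right hS2 hL0.le
      _ = _ := by field_simp
  have g2 : (1 - ε / 2) * (ρ ^ r * N) ≤ (∑ n ∈ Icc 1 x, ∏ i, b i n) * L := by
    calc _ = ((1 - ε / 2) * (ρ ^ r / L) * N) * L := by field_simp
      _ ≤ _ := mul_le_mul_of_nonneg_right hS1 hL0.le
  have hσx : 0 ≤ σ * x := by positivity
  have hρN : 0 ≤ ρ ^ r * N := by positivity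
  have hρP : 0 ≤ ρ ^ r * P := by positivity
  rw [abs_le]
  constructor
  · have h1 : ρ ^ r * N - (ε / 2) * (σ * x + ρ ^ r * P) ≤ (∑ n ∈ Icc 1 x, ∏ i, b i n) * L := by
      have := mul_le_mul_of_nonneg_left hNL1 (show 0 ≤ ε / 2 by positivity)
      nlinarith
    nlinarith
  · have h1 := mul_le_mul_of_nonneg_left hNL1 (show 0 ≤ 1 + ε / 2 by positivity)
    nlinarith

end Pool.Agent.H373R2.NB
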