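import Mathlib
import Pool.Agent.H373R2.SH.STail

namespace Pool.Agent.H373R2.NB
open Finset
open Pool.Agent.H373R2.SH
open Pool.Agent.H373R2.BH (LD card_filter_real)

variable {k : ℕ}

lemma omS_le (F : Fin k → ℕ → ℕ) (h : Fin k → ℕ) (p D : ℕ) (hp : 0 < p)
    (hD : ∀ i, ∀ c : ℕ, #{r ∈ range p | F i r ≡ c [MOD p]} ≤ D) : omS F h p ≤ k * D := by
  classical
  unfold omS
  have h1 : (range p).filter (fun r => ∃ i, p ∣ h i + F i r) ⊆
      (univ : Finset (Fin k)).biUnion (fun i => (range p).filter (fun r => F i r ≡ (p - 1) * h i [MOD p])) := by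
    intro r hr
    rw [mem_filter] at hr
    obtain ⟨hr1, i, hi⟩ := hr
    rw [mem_biUnion]
    refine ⟨i, mem_univ _, ?_⟩
    rw [mem_filter]
    refine ⟨hr1, ?_⟩
    apply Nat.ModEq.add_left_cancel' (h i)
    have e1 : h i + F i r ≡ 0 [MOD p] := (Nat.modEq_zero_iff_dvd).2 hi
    have e2 : h i + (p - 1) * h i ≡ 0 [MOD p] := by
      rw [Nat.modEq_zero_iff_dvd]
      have : h i + (p - 1) * h i = p * h i := by
        obtain ⟨q, rfl⟩ : ∃ q, p = q + 1 := ⟨p - 1, by omega⟩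
        rw [Nat.add_sub_cancel]; ring
      rw [this]
      exact Dvd.intro _ rfl
    exact e1.trans e2.symm
  calc _ ≤ _ := card_le_card h1
    _ ≤ _ := card_biUnion_le
    _ ≤ ∑ _i : Fin k, D := sum_le_sum fun i _ => hD i _
    _ = _ := by rw [sum_const, card_fin, smul_eq_mul]

lemma omS_le_self (F : Fin k → ℕ → ℕ) (h : Fin k → ℕ) (p : ℕ) : omS F h p ≤ p := by
  unfold omS
  exact (card_filter_le _ _).trans (by rw [card_range])

lemma one_le_inv_pow (k : ℕ) {p : ℕ} (hp : p.Prime) : (1 : ℝ) ≤ ((1 - 1 / (p : ℝ)) ^ k)⁻¹ := by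
  have h1 := one_sub_pos hp
  have hp0 : (0 : ℝ) < p := by exact_mod_cast hp.pos
  apply (one_le_inv₀ (by positivity)).2
  apply pow_le_one₀ h1.le
  have : 0 < 1 / (p : ℝ) := by positivity
  linarith

lemma ufS_close (F : Fin k → ℕ → ℕ) (h : Fin k → ℕ) (p D : ℕ) (hp : p.Prime)
    (hD : ∀ i, ∀ c : ℕ, #{r ∈ range p | F i r ≡ c [MOD p]} ≤ D) :
    |ufS F h p - 1| ≤ (2 ^ (k + 1) + k * D) / p := by
  have hp0 : (0 : ℝ) < p := by exact_mod_cast hp.pos
  have h1 := one_le_inv_pow k hp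
  have h2 := inv_pow_le k hp
  have h3 : (omS F h p : ℝ) / p ≤ (k * D) / p := by
    apply div_le_div_of_nonneg_right _ hp0.le
    exact_mod_cast omS_le F h p D hp.pos hD
  have h4 : 0 ≤ (omS F h p : ℝ) / p := by positivity
  have h5 := dnS_nonneg F h hp.pos
  have e : (2 ^ (k + 1) + k * D : ℝ) / p = 2 ^ k * (2 / p) + k * D / p := by
    rw [pow_succ]; field_simp
  have h6 : 0 ≤ (k * D : ℝ) / p := by positivity
  have h7 : (0 : ℝ) ≤ 2 ^ k * (2 / p) := by positivity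
  unfold ufS
  have h8 : dnS F h p = 1 - (omS F h p : ℝ) / p := rfl
  rw [abs_le, e]
  constructor
  · nlinarith
  · have : ((1 - 1 / (p : ℝ)) ^ k)⁻¹ * dnS F h p ≤ ((1 - 1 / (p : ℝ)) ^ k)⁻¹ * 1 := by
      apply mul_le_mul_of_nonneg_left _ (by linarith)
      linarith
    linarith

lemma exp_le_one_add (u : ℝ) (hu : -(1 / 2) ≤ u) : Real.exp (u - 2 * u ^ 2) ≤ 1 + u := by
  have h0 : 0 < 1 + u := by linarith
  have h1 := Real.one_sub_inv_le_log_of_pos h0
  have h2 : u - 2 * u ^ 2 ≤ 1 - (1 + u)⁻¹ := by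
    have h3 : 1 - (1 + u)⁻¹ - (u - 2 * u ^ 2) = u ^ 2 * (1 + 2 * u) / (1 + u) := by
      field_simp; ring
    have h4 : 0 ≤ u ^ 2 * (1 + 2 * u) / (1 + u) := by
      apply div_nonneg _ h0.le
      apply mul_nonneg (sq_nonneg _)
      linarith
    linarith
  calc Real.exp (u - 2 * u ^ 2) ≤ Real.exp (Real.log (1 + u)) := Real.exp_le_exp.2 (h2.trans h1)
    _ = _ := Real.exp_log h0

lemma sgS_ge (F : Fin k → ℕ → ℕ) (h : Fin k → ℕ) (D y z : ℕ)
    (hD : ∀ i, ∀ p : ℕ, p.Prime → ∀ c : ℕ, #{r ∈ range p | F i r ≡ c [MOD p]} ≤ D) (hyz : y ≤ z) (hy : 1 ≤ y)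
    (hyD : 2 * (2 ^ (k + 1) + k * D : ℝ) ≤ y) :
    sgS F h y * Real.exp (TTS F h y z - 2 * (2 ^ (k + 1) + k * D) ^ 2 / y) ≤ sgS F h z := by
  set c : ℝ := 2 ^ (k + 1) + k * D with hc
  have hc0 : 0 < c := by positivity
  have hy0 : (0 : ℝ) < y := by exact_mod_cast hy
  have h1 : (range (z + 1)).filter Nat.Prime = (range (y + 1)).filter Nat.Prime ∪ PQ y z := by
    ext p; simp only [mem_filter, mem_range, mem_union, PQ, mem_Ioc]; constructor
    · rintro ⟨h1, h2⟩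
      by_cases h : p < y + 1
      · exact Or.inl ⟨h, h2⟩
      · exact Or.inr ⟨⟨by omega, by omega⟩, h2⟩
    · rintro (⟨h1, h2⟩ | ⟨⟨h1, h2⟩, h3⟩)
      · exact ⟨by omega, h2⟩
      · exact ⟨by omega, h3⟩
  have h2 : Disjoint ((range (y + 1)).filter Nat.Prime) (PQ y z) := by
    rw [disjoint_left]
    intro p hp hq
    simp only [mem_filter, mem_range, PQ, mem_Ioc] at hp hq
    omega
  have hbound : ∀ p ∈ PQ y z, |ufS F h p - 1| ≤ c / p := fun p hp =>
    ufS_close F h p D (mem_filter.1 hp).2 (fun i => hD i p (mem_filter.1 hp).2)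
  have hpy : ∀ p ∈ PQ y z, (y : ℝ) ≤ p := fun p hp => by
    exact_mod_cast (mem_Ioc.1 (mem_filter.1 hp).1).1.le
  have hsq : ∑ p ∈ PQ y z, (ufS F h p - 1) ^ 2 ≤ c ^ 2 / y := by
    calc ∑ p ∈ PQ y z, (ufS F h p - 1) ^ 2 ≤ ∑ p ∈ PQ y z, c ^ 2 * ((p : ℝ) ^ 2)⁻¹ := by
          apply sum_le_sum
          intro p hp
          have h3 := hbound p hp
          have h4 : (ufS F h p - 1) ^ 2 ≤ (c / p) ^ 2 := by
            rw [← sq_abs]
            exact pow_le_pow_left₀ (abs_nonneg _) h3 2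
          rw [div_pow, div_eq_mul_inv] at h4
          exact h4
      _ ≤ ∑ p ∈ Ioc y z, c ^ 2 * ((p : ℝ) ^ 2)⁻¹ := by
          apply sum_le_sum_of_subset_of_nonneg (filter_subset _ _)
          intro p _ _; positivity
      _ = c ^ 2 * ∑ p ∈ Ioc y z, ((p : ℝ) ^ 2)⁻¹ := by rw [mul_sum]
      _ ≤ c ^ 2 * ((y : ℝ)⁻¹ - (z : ℝ)⁻¹) := by
          apply mul_le_mul_of_nonneg_left _ (by positivity)
          exact sum_Ioc_inv_sq_le_sub (by omega) hyz
      _ ≤ c ^ 2 / y := by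
          rw [div_eq_mul_inv]
          apply mul_le_mul_of_nonneg_left _ (by positivity)
          have : (0 : ℝ) ≤ (z : ℝ)⁻¹ := by positivity
          linarith
  have hexp : Real.exp (∑ p ∈ PQ y z, ((ufS F h p - 1) - 2 * (ufS F h p - 1) ^ 2)) ≤ ∏ p ∈ PQ y z, ufS F h p := by
    rw [Real.exp_sum]
    apply prod_le_prod
    · intro p _; exact (Real.exp_pos _).le
    · intro p hp
      have h3 := hbound p hp
      have h4 : c / p ≤ 1 / 2 := by
        have h5 := hpy p hp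
        rw [div_le_div_iff₀ (by linarith) (by norm_num)]
        linarith
      have h5 := (abs_le.1 h3).1
      have := exp_le_one_add (ufS F h p - 1) (by linarith)
      linarith
  unfold sgS
  rw [h1, prod_union h2]
  apply mul_le_mul_of_nonneg_left _ (prod_nonneg fun _ hp => ufS_nonneg F h (mem_filter.1 hp).2)
  refine le_trans ?_ hexp
  apply Real.exp_le_exp.2
  rw [sum_sub_distrib, ← mul_sum]
  unfold TTS
  have : 2 * c ^ 2 / y = 2 * (c ^ 2 / y) := by ring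
  rw [this]
  linarith

/-- the tail of the Euler product is negligible for almost all shifts -/
theorem tail_two (k D : ℕ) (κ : ℝ) (hκ : 0 < κ) (ε : ℝ) (hε : 0 < ε) : ∃ y₁ : ℕ, 1 ≤ y₁ ∧ ∀ (F : Fin k → ℕ → ℕ),
    (∀ i, ∀ p : ℕ, p.Prime → ∀ c : ℕ, #{r ∈ range p | F i r ≡ c [MOD p]} ≤ D) →
    ∀ (H : Fin k → ℕ) (Hm y z : ℕ), (∀ i, Hm ≤ H i) → y₁ ≤ y → y ≤ z → z ^ 5 ≤ Hm → 2 ≤ Hm →
    ∃ T : Finset (Fin k → ℕ), T ⊆ Sx H ∧ (#T : ℝ) ≤ ε * #(Sx H) ∧ ∀ h ∈ Sx H, h ∉ T →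
      sgS F h y * Real.exp (-κ) ≤ sgS F h z ∧ sgS F h z ≤ sgS F h y * Real.exp κ := by
  obtain ⟨C, hC, hT⟩ := tailS k D
  set c : ℝ := 2 ^ (k + 1) + k * D with hc
  have hc0 : 0 < c := by positivity
  obtain ⟨y₁, hy₁⟩ := exists_nat_gt (2 * c + 4 * c ^ 2 / κ + 8 * C / (κ ^ 2 * ε) + 1)
  have ha : 0 ≤ 4 * c ^ 2 / κ := by positivity
  have hb : 0 ≤ 8 * C / (κ ^ 2 * ε) := by positivity
  have hy₁0 : (1 : ℝ) < y₁ := by linarith
  refine ⟨y₁, by exact_mod_cast hy₁0.le, ?_⟩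
  intro F hF H Hm y z hHm hy hyz hz5 hH2
  have hyr : (y₁ : ℝ) ≤ y := by exact_mod_cast hy
  have hy0 : (0 : ℝ) < y := by linarith
  have hy1 : 1 ≤ y := by
    have : (1 : ℝ) < y := by linarith
    exact_mod_cast this.le
  have hz1 : 1 ≤ z := hy1.trans hyz
  have hz2 : z ^ 2 ≤ Hm := (Nat.pow_le_pow_right hz1 (by norm_num)).trans hz5
  have hHpos : (0 : ℝ) < Hm := by exact_mod_cast (by omega : 0 < Hm)
  have hz0 : (0 : ℝ) < z := by exact_mod_cast hz1
  have hzy : (z : ℝ) ^ 4 / Hm ≤ 1 / y := by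
    rw [div_le_div_iff₀ hHpos hy0, one_mul]
    have h5 : (z : ℝ) ^ 5 ≤ Hm := by exact_mod_cast hz5
    calc (z : ℝ) ^ 4 * y ≤ (z : ℝ) ^ 4 * z := by
          apply mul_le_mul_of_nonneg_left _ (by positivity)
          exact_mod_cast hyz
      _ = (z : ℝ) ^ 5 := by ring
      _ ≤ Hm := h5
  have h1 := hT F hF H Hm y z hHm hy1 hz2 hH2
  classical
  set T := (Sx H).filter (fun h => κ / 2 < |TTS F h y z|) with hTdef
  have hN0 : (0 : ℝ) ≤ #(Sx H) := Nat.cast_nonneg _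
  refine ⟨T, filter_subset _ _, ?_, ?_⟩
  · have h2 : (#T : ℝ) * (κ / 2) ^ 2 ≤ ∑ h ∈ Sx H, (TTS F h y z) ^ 2 := by
      calc (#T : ℝ) * (κ / 2) ^ 2 = ∑ _h ∈ T, (κ / 2) ^ 2 := by rw [sum_const, nsmul_eq_mul]
        _ ≤ ∑ h ∈ T, (TTS F h y z) ^ 2 := by
            apply sum_le_sum
            intro h hh
            rw [hTdef, mem_filter] at hh
            rw [← sq_abs (TTS F h y z)]
            exact pow_le_pow_left₀ (by positivity) hh.2.le 2
        _ ≤ _ := sum_le_sum_of_subset_of_nonneg (filter_subset _ _) fun _ _ _ => sq_nonneg _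
    have h3 : C * (1 / y + (z : ℝ) ^ 4 / Hm) ≤ ε * (κ / 2) ^ 2 := by
      have h4 : C * (1 / y + (z : ℝ) ^ 4 / Hm) ≤ C * (1 / y + 1 / y) :=
        mul_le_mul_of_nonneg_left (by linarith) hC.le
      have h5 : 8 * C / (κ ^ 2 * ε) ≤ y := by
        have : 0 ≤ 2 * c := by positivity
        linarith
      rw [div_le_iff₀ (by positivity)] at h5
      have h6 : C * (1 / (y : ℝ) + 1 / y) = 2 * C / y := by ring
      rw [h6] at h4
      refine h4.trans ?_
      rw [div_le_iff₀ hy0]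
      nlinarith
    have h4 : (#T : ℝ) * (κ / 2) ^ 2 ≤ (ε * #(Sx H)) * (κ / 2) ^ 2 := by
      calc _ ≤ _ := h2.trans h1
        _ ≤ ε * (κ / 2) ^ 2 * #(Sx H) := mul_le_mul_of_nonneg_right h3 hN0
        _ = _ := by ring
    exact le_of_mul_le_mul_right h4 (by positivity)
  · intro h hh hhT
    have h2 : |TTS F h y z| ≤ κ / 2 := by
      by_contra hcon
      push Not at hcon
      exact hhT (by rw [hTdef, mem_filter]; exact ⟨hh, hcon⟩)
    have h3 := abs_le.1 h2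
    have hs := sgS_nonneg F h y
    constructor
    · refine le_trans ?_ (sgS_ge F h D y z hF hyz hy1 (by linarith))
      apply mul_le_mul_of_nonneg_left _ hs
      apply Real.exp_le_exp.2
      have h4 : 2 * c ^ 2 / y ≤ κ / 2 := by
        rw [div_le_iff₀ hy0]
        have h5 : 4 * c ^ 2 / κ ≤ y := by
          have : 0 ≤ 2 * c := by positivity
          linarith
        rw [div_le_iff₀ hκ] at h5
        linarith
      linarith
    · refine (sgS_le F h y z hyz).trans ?_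
      apply mul_le_mul_of_nonneg_left _ hs
      apply Real.exp_le_exp.2
      linarith

/-- if the truncated product does not vanish it is bounded below -/
lemma sgS_lower (F : Fin k → ℕ → ℕ) (h : Fin k → ℕ) (y : ℕ) (hne : sgS F h y ≠ 0) :
    (((∏ p ∈ (range (y + 1)).filter Nat.Prime, p : ℕ) : ℝ))⁻¹ ≤ sgS F h y := by
  unfold sgS at hne ⊢
  push_cast
  rw [← prod_inv_distrib]
  apply prod_le_prod
  · intro p _; positivity
  · intro p hp
    have hpp : p.Prime := (mem_filter.1 hp).2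
    have hp0 : (0 : ℝ) < p := by exact_mod_cast hpp.pos
    have h1 : ufS F h p ≠ 0 := fun h0 => hne (prod_eq_zero hp h0)
    have h2 : dnS F h p ≠ 0 := fun h0 => h1 (by unfold ufS; rw [h0, mul_zero])
    have h3 := omS_le_self F h p
    have h4 : omS F h p ≠ p := by
      intro h0
      apply h2
      unfold dnS
      rw [h0, div_self hp0.ne', sub_self]
    have h5 : omS F h p + 1 ≤ p := by omega
    have h6 : (omS F h p : ℝ) + 1 ≤ p := by exact_mod_cast h5
    have h7 : (p : ℝ)⁻¹ ≤ dnS F h p := by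
      unfold dnS
      rw [le_sub_iff_add_le, inv_eq_one_div, ← add_div, div_le_one hp0]
      linarith
    unfold ufS
    have h8 := one_le_inv_pow k hpp
    have h9 : (0 : ℝ) ≤ (p : ℝ)⁻¹ := by positivity
    nlinarith

/-- if the truncated product vanishes there is a fixed prime divisor -/
lemma sgS_zero (F : Fin k → ℕ → ℕ) (h : Fin k → ℕ) (y : ℕ) (he : sgS F h y = 0) :
    ∃ p : ℕ, p.Prime ∧ p ≤ y ∧ omS F h p = p := by
  unfold sgS at he
  rw [prod_eq_zero_iff] at he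
  obtain ⟨p, hp, h0⟩ := he
  have hpp : p.Prime := (mem_filter.1 hp).2
  have hp0 : (0 : ℝ) < p := by exact_mod_cast hpp.pos
  refine ⟨p, hpp, ?_, ?_⟩
  · have := mem_range.1 (mem_filter.1 hp).1
    omega
  · unfold ufS at h0
    rcases mul_eq_zero.1 h0 with h1 | h1
    · exact absurd h1 (by have := one_sub_pos hpp; positivity)
    · unfold dnS at h1
      have h2 : (omS F h p : ℝ) / p = 1 := by linarith
      rw [div_eq_one_iff_eq hp0.ne'] at h2
      exact_mod_cast h2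

end Pool.Agent.H373R2.NB
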