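import Mathlib
import Pool.Agent.H373R2.NB.SupE

namespace Pool.Agent.H373R2.NB
open Finset Polynomial
open Pool.Agent.Helper602.MK
open Pool.Agent.Helper602.MK.N_J5b (ee_add ee_zero ee_conj norm_ee ee_int norm_one_sub_ee)

/-- the correlations of `EZ` along differences of values of `f` are small in mean square -/
theorem corr_small (f : ℤ[X]) (hd : 1 ≤ f.natDegree) (hl : 0 < f.leadingCoeff) (B : ℕ) (hB : 1 ≤ B) (ε : ℝ) (hε : 0 < ε) :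
    ∃ W₀ : ℕ, 1 ≤ W₀ ∧ ∃ τ₀ : ℝ, 0 < τ₀ ∧ ∃ k0 : ℕ, 2 ≤ k0 ∧ ∀ k : ℕ, k0 ≤ k →
    ∀ M : ℕ, [NeZero M] → k < M → M ≤ 100 * k → ∀ x : ℕ, 1 ≤ x → M ≤ B * x ^ f.natDegree →
    ∀ W J : ℕ, 1 ≤ J → W₀ ∣ W → ((J * W : ℕ) : ℝ) ≤ τ₀ * k →
      ∑ m ∈ Icc 1 x, ∑ n ∈ Icc 1 x, cor (EZ k M W J) (((f.eval (m : ℤ) : ℤ) : ZMod M) - ((f.eval (n : ℤ) : ℤ) : ZMod M)) ^ 2 ≤
        ε * (x : ℝ) ^ 2 * ((k : ℝ) / (Real.log k) ^ 2) ^ 2 := by
  obtain ⟨p₀, hp₀, C₁, hC₁, hW⟩ := weyl_moment f hd hl B hB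
  set p := p₀ + 1 with hp
  have hp2 : 2 ≤ p := by omega
  have hp0 : (0 : ℝ) < p := by positivity
  have hp2r : (2 : ℝ) ≤ p := by exact_mod_cast hp2
  set η : ℝ := 1 / (2 * p : ℝ) with hη
  have hη0 : 0 < η := by positivity
  have hη1 : η ≤ 1 := by rw [hη, div_le_one (by positivity)]; linarith
  obtain ⟨C₂, hC₂, k1, hk1, hR⟩ := restr η hη0 hη1
  set C₃ : ℝ := 4 ^ (1 + η) * C₂ with hC₃
  have hC₃0 : 0 < C₃ := by positivity
  set δ : ℝ := min 1 (ε / (C₃ ^ 2 + 2 * C₃ * C₁)) with hδ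
  have hδ0 : 0 < δ := by positivity
  have hδ1 : δ ≤ 1 := min_le_left _ _
  have hδ2 : δ * (C₃ ^ 2 + 2 * C₃ * C₁) ≤ ε := by
    have := min_le_right 1 (ε / (C₃ ^ 2 + 2 * C₃ * C₁))
    rw [← hδ, le_div_iff₀ (by positivity)] at this
    exact this
  set κ : ℝ := δ ^ (1 / η) with hκ
  have hκ0 : 0 < κ := by positivity
  obtain ⟨W₀, hW₀, τ₀, hτ₀, k2, hk2, hS⟩ := sup_small κ hκ0
  refine ⟨W₀, hW₀, τ₀, hτ₀, k1 + k2, by omega, ?_⟩
  intro k hk M hM hkM hM100 x hx hMx W J hJ hWd hJW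
  have hkpos : (0 : ℝ) < k := by exact_mod_cast (by omega : 0 < k)
  have hlk : 0 < Real.log k := Real.log_pos (by exact_mod_cast (by omega : 1 < k))
  have hMpos : (0 : ℝ) < M := by exact_mod_cast (by omega : 0 < M)
  have hxpos : (0 : ℝ) < x := by exact_mod_cast hx
  set g : ZMod M → ℝ := fun ξ => ‖hat (EZ k M W J) ξ‖ ^ 2 * (Real.log k / k) ^ 2 with hg
  set s : ZMod M → ℝ := fun t => ‖∑ n ∈ Icc 1 x, (ZMod.stdAddChar (t * ((f.eval (n : ℤ) : ℤ) : ZMod M)) : ℂ)‖ / x with hs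
  have hs1 : ∀ t, s t ≤ 1 := by
    intro t
    simp only [hs]
    rw [div_le_one hxpos]
    calc _ ≤ ∑ n ∈ Icc 1 x, ‖(ZMod.stdAddChar (t * ((f.eval (n : ℤ) : ℤ) : ZMod M)) : ℂ)‖ := norm_sum_le _ _
      _ = x := by simp [norm_chi]
  have hs0 : ∀ t, 0 ≤ s t := fun t => by simp only [hs]; positivity
  have h1 : ∑ t, s t ^ p ≤ C₁ := by
    have h2 : ∑ t : ZMod M, s t ^ p₀ ≤ C₁ := by
      have h3 : ∑ t : ZMod M, s t ^ p₀ = ∑ t : ZMod M, (fun t : ℕ => (‖∑ n ∈ Icc 1 x, ee ((t : ℝ) * ((f.eval (n : ℤ) : ℤ) : ℝ) / M)‖ / x) ^ p₀) t.val := by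
        apply sum_congr rfl
        intro t _
        simp only [hs]
        congr 3
        apply sum_congr rfl
        intro n _
        exact chi_eq_int t _
      rw [h3, sum_val (fun t : ℕ => (‖∑ n ∈ Icc 1 x, ee ((t : ℝ) * ((f.eval (n : ℤ) : ℤ) : ℝ) / M)‖ / x) ^ p₀)]
      exact hW x M hx (by omega) hMx
    refine le_trans (sum_le_sum fun t _ => ?_) h2
    exact pow_le_pow_of_le_one (hs0 t) (hs1 t) (by omega)
  have h2 : ∑ ξ, g ξ ^ (1 + 1 / (2 * p : ℝ)) ≤ C₃ := by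
    have h3 := hR k (by omega) M hkM hM100
    calc ∑ ξ, g ξ ^ (1 + 1 / (2 * p : ℝ)) ≤ ∑ ξ : ZMod M, 4 ^ (1 + η) * (‖hat (aZ k M) ξ‖ ^ 2 * (Real.log k / k) ^ 2) ^ (1 + η) := by
          apply sum_le_sum
          intro ξ _
          rw [← Real.mul_rpow (by norm_num) (by positivity)]
          apply Real.rpow_le_rpow (by simp only [hg]; positivity) _ (by linarith)
          simp only [hg]
          rw [← mul_assoc]
          apply mul_le_mul_of_nonneg_right _ (by positivity)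
          rw [hat_EZ, norm_mul, mul_pow]
          apply mul_le_mul_of_nonneg_right _ (by positivity)
          have := one_sub_nuZ_two W J hJ ξ
          have h0 := norm_nonneg (1 - nuZ W J ξ)
          nlinarith
      _ = 4 ^ (1 + η) * ∑ ξ : ZMod M, (‖hat (aZ k M) ξ‖ ^ 2 * (Real.log k / k) ^ 2) ^ (1 + η) := by rw [mul_sum]
      _ ≤ _ := mul_le_mul_of_nonneg_left h3 (by positivity)
  have hcs := conv_small g s p hp2 κ C₁ C₃ hκ0.le (fun ξ => by simp only [hg]; positivity)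
    (fun ξ => hS k (by omega) M hkM W J hJ hWd hJW ξ) hs0 hs1 h1 h2
  have hκη : κ ^ (1 / (2 * p : ℝ)) = δ := by
    rw [← hη, hκ, ← Real.rpow_mul hδ0.le, one_div, inv_mul_cancel₀ hη0.ne', Real.rpow_one]
  rw [hκη] at hcs
  have hcs2 : ∑ ξ, ∑ ξ', g ξ * g ξ' * s (ξ - ξ') ^ 2 ≤ ε := by
    refine hcs.trans ?_
    have h5 : (δ * C₃) ^ 2 ≤ δ * C₃ ^ 2 := by
      rw [mul_pow]
      apply mul_le_mul_of_nonneg_right _ (by positivity)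
      nlinarith
    linarith
  have hid := sum_cor_sq (EZ k M W J) (Icc 1 x) (fun n : ℕ => ((f.eval (n : ℤ) : ℤ) : ZMod M))
  have hrhs : ∑ ξ, ∑ ξ', ‖hat (EZ k M W J) ξ‖ ^ 2 * ‖hat (EZ k M W J) ξ'‖ ^ 2 *
      ‖∑ i ∈ Icc 1 x, (ZMod.stdAddChar ((ξ - ξ') * ((f.eval (i : ℤ) : ℤ) : ZMod M)) : ℂ)‖ ^ 2 =
      ((k / Real.log k) ^ 4 * x ^ 2) * ∑ ξ, ∑ ξ', g ξ * g ξ' * s (ξ - ξ') ^ 2 := by
    rw [mul_sum]
    apply sum_congr rfl; intro ξ _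
    rw [mul_sum]
    apply sum_congr rfl; intro ξ' _
    simp only [hg, hs]
    field_simp
  rw [hrhs] at hid
  have hM2 : (k : ℝ) ^ 2 ≤ (M : ℝ) ^ 2 := by
    apply pow_le_pow_left₀ hkpos.le
    exact_mod_cast hkM.le
  set T := ∑ m ∈ Icc 1 x, ∑ n ∈ Icc 1 x, cor (EZ k M W J) (((f.eval (m : ℤ) : ℤ) : ZMod M) - ((f.eval (n : ℤ) : ℤ) : ZMod M)) ^ 2 with hT
  have hT0 : 0 ≤ T := sum_nonneg fun _ _ => sum_nonneg fun _ _ => sq_nonneg _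
  have h6 : (k : ℝ) ^ 2 * T ≤ ((k / Real.log k) ^ 4 * x ^ 2) * ε := by
    calc (k : ℝ) ^ 2 * T ≤ (M : ℝ) ^ 2 * T := mul_le_mul_of_nonneg_right hM2 hT0
      _ = _ := hid
      _ ≤ _ := mul_le_mul_of_nonneg_left hcs2 (by positivity)
  have h7 : ((k / Real.log k) ^ 4 * x ^ 2) * ε = (k : ℝ) ^ 2 * (ε * (x : ℝ) ^ 2 * ((k : ℝ) / (Real.log k) ^ 2) ^ 2) := by
    field_simp
  rw [h7] at h6
  exact le_of_mul_le_mul_left h6 (by positivity)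

end Pool.Agent.H373R2.NB
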