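import Mathlib
import Pool.Agent.H373R2.SH.Roots

namespace Pool.Agent.H373R2.NB
open Finset Polynomial
open Pool.Agent.H646 (rat)
open Pool.Agent.H646.TuplesM (rat_ge_one rat_nonneg)
open Pool.Agent.H373R2.BH
open Pool.Agent.H373R2.SH (roots_le LD_eval' eval_modEq roots_sqfree pow_omega_le rat_le_sqfree)

/-- moments of `rat` along a function with few values divisible by `q` -/
theorem rat_gen (D d G₀ A : ℕ) (hD1 : 1 ≤ D) (hG₀ : 1 ≤ G₀) : ∃ C : ℝ, 0 < C ∧ ∀ x : ℕ, 1 ≤ x → ∀ g : ℕ → ℕ,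
    (∀ n ∈ Icc 1 x, g n ≤ G₀ * x ^ d) →
    (∀ q : ℕ, Squarefree q → #{n ∈ Icc 1 x | q ∣ g n} ≤ (x / q + 1) * D ^ (#q.primeFactors)) →
    ∑ n ∈ (Icc 1 x).filter (fun n => 1 ≤ g n), rat (g n) ^ A ≤ C * x := by
  set δ : ℝ := 1 / (3 * (d + 1)) with hδ
  have hd0 : (0 : ℝ) ≤ d := Nat.cast_nonneg d
  have hδ0 : 0 < δ := by positivity
  have hδ1 : δ ≤ 1 / 3 := by
    rw [hδ, div_le_div_iff₀ (by positivity) (by norm_num)]; nlinarith
  obtain ⟨C₁, hC₁, hrat⟩ := rat_le_sqfree A (1 - δ) (by linarith) (by linarith)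
  obtain ⟨C₂, hC₂, hom⟩ := pow_omega_le D hD1 δ hδ0
  set G : ℝ := ((G₀ : ℕ) : ℝ) with hG
  have hG1 : 1 ≤ G := by
    rw [hG]; exact_mod_cast hG₀
  have hs : Summable (fun q : ℕ => (q : ℝ) ^ (-(1 + δ))) := Real.summable_nat_rpow.2 (by linarith)
  have hs2 : Summable (fun q : ℕ => (q : ℝ) ^ (-(2 - 2 * δ))) := Real.summable_nat_rpow.2 (by linarith)
  set S₁ : ℝ := ∑' q : ℕ, (q : ℝ) ^ (-(1 + δ)) with hS₁
  set S₂ : ℝ := ∑' q : ℕ, (q : ℝ) ^ (-(2 - 2 * δ)) with hS₂
  have hS₁0 : 0 < S₁ := hs.tsum_pos (fun q => by positivity) 1 (by norm_num)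
  have hS₂0 : 0 < S₂ := hs2.tsum_pos (fun q => by positivity) 1 (by norm_num)
  refine ⟨C₁ * (C₂ * (S₂ + G * S₁)), by positivity, fun x hx g hgb hgc => ?_⟩
  have hx0 : (0 : ℝ) < x := by exact_mod_cast hx
  have hx1 : (1 : ℝ) ≤ x := by exact_mod_cast hx
  set M := G₀ * x ^ d with hM
  calc ∑ n ∈ (Icc 1 x).filter (fun n => 1 ≤ g n), rat (g n) ^ A
      ≤ ∑ n ∈ (Icc 1 x).filter (fun n => 1 ≤ g n),
          C₁ * ∑ q ∈ (g n).divisors.filter Squarefree, (q : ℝ) ^ (-(1 - δ)) := by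
        apply sum_le_sum
        intro n hn
        rw [mem_filter] at hn
        exact hrat _ hn.2
    _ = C₁ * ∑ n ∈ (Icc 1 x).filter (fun n => 1 ≤ g n),
          ∑ q ∈ (g n).divisors.filter Squarefree, (q : ℝ) ^ (-(1 - δ)) := by rw [mul_sum]
    _ = C₁ * ∑ q ∈ (Icc 1 M).filter Squarefree,
          ∑ n ∈ ((Icc 1 x).filter (fun n => 1 ≤ g n)).filter (fun n => q ∣ g n),
            (q : ℝ) ^ (-(1 - δ)) := by
        congr 1
        refine sum_comm' ?_
        intro n q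
        simp only [mem_Icc, Nat.mem_divisors, mem_filter]
        constructor
        · rintro ⟨⟨⟨h1, h2⟩, h3⟩, ⟨h4, h5⟩, h6⟩
          have h7 := Nat.le_of_dvd (by omega) h4
          have h8 := hgb n (mem_Icc.2 ⟨h1, h2⟩)
          exact ⟨⟨⟨⟨h1, h2⟩, h3⟩, h4⟩, ⟨Nat.pos_of_dvd_of_pos h4 (by omega), by omega⟩, h6⟩
        · rintro ⟨⟨⟨⟨h1, h2⟩, h3⟩, h4⟩, ⟨h5, h6⟩, h7⟩
          exact ⟨⟨⟨h1, h2⟩, h3⟩, ⟨h4, by omega⟩, h7⟩
    _ ≤ C₁ * ∑ q ∈ (Icc 1 M).filter Squarefree, (C₂ * (x * (q : ℝ) ^ (-(2 - 2 * δ)) +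
          (M : ℝ) ^ (3 * δ) * (q : ℝ) ^ (-(1 + δ)))) := by
        apply mul_le_mul_of_nonneg_left _ hC₁.le
        apply sum_le_sum
        intro q hq
        rw [mem_filter, mem_Icc] at hq
        obtain ⟨⟨hq1, hqM⟩, hqs⟩ := hq
        have hq0 : (0 : ℝ) < q := by exact_mod_cast hq1
        have hqMr : (q : ℝ) ≤ M := by exact_mod_cast hqM
        rw [sum_const, nsmul_eq_mul]
        have hcard : (#(((Icc 1 x).filter (fun n => 1 ≤ g n)).filter
            (fun n => q ∣ g n)) : ℝ) ≤ ((x : ℝ) / q + 1) * (C₂ * (q : ℝ) ^ δ) := by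
          have h1 : ((Icc 1 x).filter (fun n => 1 ≤ g n)).filter
            (fun n => q ∣ g n) ⊆ (Icc 1 x).filter (fun n => q ∣ g n) := by
            intro n hn
            rw [mem_filter, mem_filter] at hn
            rw [mem_filter]
            exact ⟨hn.1.1, hn.2⟩
          have h4 := hom q hqs
          calc (#(((Icc 1 x).filter (fun n => 1 ≤ g n)).filter
              (fun n => q ∣ g n)) : ℝ) ≤ (((x / q + 1) * D ^ (#q.primeFactors) : ℕ) : ℝ) := by
                exact_mod_cast (card_le_card h1).trans (hgc q hqs)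
            _ = (((x / q : ℕ) : ℝ) + 1) * ((D ^ (#q.primeFactors) : ℕ) : ℝ) := by push_cast; ring
            _ ≤ _ := mul_le_mul (add_le_add Nat.cast_div_le le_rfl) h4 (by positivity) (by positivity)
        calc _ ≤ (((x : ℝ) / q + 1) * (C₂ * (q : ℝ) ^ δ)) * (q : ℝ) ^ (-(1 - δ)) :=
              mul_le_mul_of_nonneg_right hcard (by positivity)
          _ = C₂ * (x * (q : ℝ) ^ (-(2 - 2 * δ)) + (q : ℝ) ^ (3 * δ) * (q : ℝ) ^ (-(1 + δ))) := by
              rw [← Real.rpow_add hq0]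
              have h1 : (q : ℝ) ^ (-(2 - 2 * δ)) = (q : ℝ) ^ (-(1 - δ)) * (q : ℝ) ^ δ / q := by
                rw [← Real.rpow_add hq0, ← Real.rpow_sub_one hq0.ne']; ring_nf
              have h2 : (q : ℝ) ^ (3 * δ + -(1 + δ)) = (q : ℝ) ^ (-(1 - δ)) * (q : ℝ) ^ δ := by
                rw [← Real.rpow_add hq0]; ring_nf
              rw [h1, h2]
              ring
          _ ≤ _ := by
              apply mul_le_mul_of_nonneg_left _ hC₂.le
              have := Real.rpow_le_rpow hq0.le hqMr (show (0 : ℝ) ≤ 3 * δ by positivity)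
              have h3 : (0 : ℝ) ≤ (q : ℝ) ^ (-(1 + δ)) := by positivity
              nlinarith
    _ ≤ C₁ * (C₂ * (x * S₂ + (G * x) * S₁)) := by
        apply mul_le_mul_of_nonneg_left _ hC₁.le
        rw [← mul_sum]
        apply mul_le_mul_of_nonneg_left _ hC₂.le
        rw [sum_add_distrib, ← mul_sum, ← mul_sum]
        have hMb : (M : ℝ) ^ (3 * δ) ≤ G * x := by
          have h1 : (M : ℝ) ≤ (G * x) ^ (d + 1) := by
            rw [hM]; push_cast
            rw [mul_pow]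
            apply mul_le_mul
            · exact le_self_pow₀ hG1 (by omega)
            · exact pow_le_pow_right₀ hx1 (by omega)
            · positivity
            · positivity
          calc (M : ℝ) ^ (3 * δ) ≤ ((G * x) ^ (d + 1)) ^ (3 * δ) :=
                Real.rpow_le_rpow (Nat.cast_nonneg _) h1 (by positivity)
            _ = G * x := by
                rw [← Real.rpow_natCast, ← Real.rpow_mul (by positivity)]
                have : ((d + 1 : ℕ) : ℝ) * (3 * δ) = 1 := by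
                  rw [hδ]; push_cast; field_simp
                rw [this, Real.rpow_one]
        apply add_le_add
        · exact mul_le_mul_of_nonneg_left (hs2.sum_le_tsum _ fun q _ => by positivity) hx0.le
        · exact mul_le_mul hMb (hs.sum_le_tsum _ fun q _ => by positivity)
            (sum_nonneg fun q _ => by positivity) (by positivity)
    _ = _ := by ring



/-- uniform moments of `rat |f(n) - c|` -/
theorem rat_poly_int (f : ℕ[X]) (hf : 1 ≤ f.natDegree) (A B : ℕ) : ∃ C : ℝ, 0 < C ∧ ∀ x : ℕ, 1 ≤ x → ∀ c : ℤ,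
    |c| ≤ B * (x : ℤ) ^ f.natDegree →
    ∑ n ∈ (Icc 1 x).filter (fun n => ((f.eval n : ℕ) : ℤ) ≠ c), rat (((f.eval n : ℕ) : ℤ) - c).natAbs ^ A ≤ C * x := by
  obtain ⟨D, hD1, hD⟩ := roots_le f hf
  obtain ⟨C, hC, h⟩ := rat_gen D f.natDegree (f.eval 1 + B + 1) A hD1 (by omega)
  refine ⟨C, hC, fun x hx c hc => ?_⟩
  have hbound : ∀ n ∈ Icc 1 x, f.eval n ≤ f.eval 1 * x ^ f.natDegree := by
    intro n hn
    rw [mem_Icc] at hn
    have h1 : f.eval n ≤ f.eval x := (LD_eval' f).mono hn.2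
    refine h1.trans ?_
    rw [eval_eq_sum_range, eval_eq_sum_range, sum_mul]
    apply sum_le_sum
    intro j hj
    rw [mem_range] at hj
    rw [one_pow, mul_one]
    exact Nat.mul_le_mul_left _ (Nat.pow_le_pow_right hx (by omega))
  have h2 := h x hx (fun n => (((f.eval n : ℕ) : ℤ) - c).natAbs) (by
    intro n hn
    have h3 := hbound n hn
    have h4 : (((f.eval n : ℕ) : ℤ) - c).natAbs ≤ f.eval n + c.natAbs := by omega
    have h5 : c.natAbs ≤ B * x ^ f.natDegree := by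
      have h6 : ((c.natAbs : ℕ) : ℤ) ≤ ((B * x ^ f.natDegree : ℕ) : ℤ) := by
        rw [Int.natCast_natAbs]; push_cast; exact hc
      exact_mod_cast h6
    show (((f.eval n : ℕ) : ℤ) - c).natAbs ≤ _
    have h7 : (f.eval 1 + B + 1) * x ^ f.natDegree = f.eval 1 * x ^ f.natDegree + B * x ^ f.natDegree + x ^ f.natDegree := by ring
    omega) (by
    intro q hq
    have hq0 : 0 < q := Nat.pos_of_ne_zero hq.ne_zero
    set c' : ℕ := (c % q).toNat with hc'
    have hc'q : (c' : ℤ) = c % q := Int.toNat_of_nonneg (Int.emod_nonneg _ (by omega))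
    have h3 : {n ∈ Icc 1 x | q ∣ (((f.eval n : ℕ) : ℤ) - c).natAbs} ⊆ {n ∈ Icc 1 x | f.eval n ≡ c' [MOD q]} := by
      intro n hn
      rw [mem_filter] at hn ⊢
      refine ⟨hn.1, ?_⟩
      have h4 : (q : ℤ) ∣ ((f.eval n : ℕ) : ℤ) - c := Int.natCast_dvd.2 hn.2
      rw [← Int.natCast_modEq_iff, hc'q]
      have h5 : ((f.eval n : ℕ) : ℤ) ≡ c [ZMOD q] := (Int.modEq_iff_dvd.2 (by
        have := h4
        rw [← Int.dvd_neg] at this
        simpa using this))
      exact h5.trans (Int.mod_modEq c q).symm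
    refine (card_le_card h3).trans ?_
    have h4 := count_periodic q hq0 (fun n => f.eval n ≡ c' [MOD q]) (by
            intro n
            apply propext
            have h3 : f.eval (n + q) ≡ f.eval n [MOD q] := eval_modEq f (by simp [Nat.ModEq])
            exact ⟨fun h => h3.symm.trans h, fun h => h3.trans h⟩) x
    exact h4.trans (Nat.mul_le_mul_left _ (roots_sqfree f D hD q hq c')))
  refine le_trans (le_of_eq ?_) h2
  congr 1
  ext n
  rw [mem_filter, mem_filter]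
  have h3 : ((f.eval n : ℕ) : ℤ) ≠ c ↔ 1 ≤ (((f.eval n : ℕ) : ℤ) - c).natAbs := by omega
  rw [h3]

end Pool.Agent.H373R2.NB
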