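import Mathlib
import Pool.Agent.H373R2.NB.CorrSmall
import Pool.Agent.H373R2.NB.RatGen
import Pool.Agent.H373R2.SH.Second

namespace Pool.Agent.H373R2.NB
open Finset Polynomial
open Pool.Agent.Helper602.MK
open Pool.Agent.H646 (rat)
open Pool.Agent.H646.TuplesM (rat_ge_one rat_nonneg)
open Pool.Agent.H373R2.BH (card_filter_real pair_window single_window)
open Pool.Agent.H373R2.SH (eval_strict)

variable {M : ℕ} [NeZero M]

lemma cor_neg (u : ZMod M → ℝ) (Δ : ZMod M) : cor u (-Δ) = cor u Δ := by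
  unfold cor
  rw [← Equiv.sum_comp (Equiv.addRight Δ)]
  apply sum_congr rfl
  intro m _
  simp only [Equiv.coe_addRight]
  rw [add_neg_cancel_right, mul_comm]

lemma bZ_nonneg (k W J : ℕ) (m : ZMod M) : 0 ≤ bZ k M W J m := by
  unfold bZ
  have := fun j => aZ_nonneg k M (m - ((j * W : ℕ) : ZMod M))
  have h2 : 0 ≤ ∑ j ∈ Icc 1 J, aZ k M (m - ((j * W : ℕ) : ZMod M)) := sum_nonneg fun j _ => this j
  positivity

lemma bZ_le (k W J : ℕ) (m : ZMod M) : bZ k M W J m ≤ 1 := by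
  unfold bZ
  rcases Nat.eq_zero_or_pos J with h0 | h0
  · subst h0; simp
  · have hJ0 : (0 : ℝ) < J := by exact_mod_cast h0
    calc (1 / (J : ℝ)) * ∑ j ∈ Icc 1 J, aZ k M (m - ((j * W : ℕ) : ZMod M)) ≤ (1 / (J : ℝ)) * ∑ _j ∈ Icc 1 J, (1 : ℝ) := by
          apply mul_le_mul_of_nonneg_left _ (by positivity)
          exact sum_le_sum fun j _ => aZ_le k M _
      _ = 1 := by
          rw [sum_const, Nat.card_Icc, Nat.add_sub_cancel, nsmul_eq_mul]; field_simp

lemma sum_aZ (k : ℕ) (hk : k < M) : ∑ m : ZMod M, aZ k M m = #(PP k) := by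
  have hsub : PP k ⊆ range M := by
    intro p hp
    rw [PP, mem_filter, mem_Icc] at hp
    exact mem_range.2 (by omega)
  have h1 : ∑ m : ZMod M, aZ k M m = ∑ m : ZMod M, (fun t : ℕ => if t ∈ PP k then (1 : ℝ) else 0) m.val := rfl
  rw [h1, sum_val (fun t : ℕ => if t ∈ PP k then (1 : ℝ) else 0), ← card_filter_real]
  congr 2
  ext p
  rw [mem_filter]
  exact ⟨fun h => h.2, fun h => ⟨hsub h, h⟩⟩

lemma sum_bZ (k W J : ℕ) (hk : k < M) (hJ : 1 ≤ J) : ∑ m : ZMod M, bZ k M W J m = #(PP k) := by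
  have hJ0 : (0 : ℝ) < J := by exact_mod_cast hJ
  unfold bZ
  rw [← mul_sum, sum_comm]
  have h1 : ∀ j ∈ Icc 1 J, ∑ m : ZMod M, aZ k M (m - ((j * W : ℕ) : ZMod M)) = #(PP k) := by
    intro j _
    rw [← sum_aZ k hk]
    exact Equiv.sum_comp (Equiv.subRight ((j * W : ℕ) : ZMod M)) (aZ k M)
  rw [sum_congr rfl h1, sum_const, Nat.card_Icc, Nat.add_sub_cancel, nsmul_eq_mul]
  field_simp

lemma card_PP_le (k : ℕ) (hk : 2 ≤ k) : (#(PP k) : ℝ) ≤ 4 * (k / Real.log k) := by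
  have hlk : 0 < Real.log k := Real.log_pos (by exact_mod_cast hk)
  have hlog4 : Real.log 4 ≤ 2 := by
    have h1 : Real.log 4 = 2 * Real.log 2 := by
      rw [show (4 : ℝ) = 2 ^ 2 by norm_num, Real.log_pow]; push_cast; ring
    have := Real.log_two_lt_d9
    linarith
  refine (N_J6.j6_card k hk).trans ?_
  apply mul_le_mul_of_nonneg_right _ (by positivity)
  linarith

lemma cor_zero_le (k : ℕ) (hk2 : 2 ≤ k) (hk : k < M) (u : ZMod M → ℝ) (h0 : ∀ m, 0 ≤ u m) (h1 : ∀ m, u m ≤ 1)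
    (hs : ∑ m, u m = #(PP k)) : cor u 0 ≤ 4 * (k / Real.log k) := by
  unfold cor
  calc ∑ m, u m * u (m + 0) ≤ ∑ m, u m := by
        apply sum_le_sum
        intro m _
        rw [add_zero]
        have := h0 m
        have := h1 m
        nlinarith
    _ = #(PP k) := hs
    _ ≤ _ := card_PP_le k hk2

lemma cor_nonneg (u : ZMod M → ℝ) (h0 : ∀ m, 0 ≤ u m) (Δ : ZMod M) : 0 ≤ cor u Δ :=
  sum_nonneg fun m _ => mul_nonneg (h0 _) (h0 _)

lemma corE_zero_le (k W J : ℕ) (hk2 : 2 ≤ k) (hk : k < M) (hJ : 1 ≤ J) : |cor (EZ k M W J) 0| ≤ 8 * (k / Real.log k) := by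
  have h1 := cor_zero_le k hk2 hk (aZ k M) (aZ_nonneg k M) (aZ_le k M) (sum_aZ k hk)
  have h2 := cor_zero_le k hk2 hk (bZ k M W J) (bZ_nonneg k W J) (bZ_le k W J) (sum_bZ k W J hk hJ)
  have h3 : 0 ≤ cor (EZ k M W J) 0 := by
    unfold cor
    apply sum_nonneg; intro m _
    rw [add_zero]; exact mul_self_nonneg _
  rw [abs_of_nonneg h3]
  have h4 : cor (EZ k M W J) 0 ≤ cor (aZ k M) 0 + cor (bZ k M W J) 0 := by
    unfold cor EZ
    rw [← sum_add_distrib]
    apply sum_le_sum; intro m _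
    rw [add_zero]
    have h5 := aZ_nonneg k M m
    have h6 : 0 ≤ bZ k M W J m := bZ_nonneg k W J m
    nlinarith [mul_nonneg h5 h6]
  linarith

lemma cor_bZ (k W J : ℕ) (Δ : ZMod M) : cor (bZ k M W J) Δ =
    ∑ v ∈ (Icc 1 J) ×ˢ (Icc 1 J), (1 / (J : ℝ)) ^ 2 * cor (aZ k M) (Δ + ((((v.1 : ℤ) - v.2) * W : ℤ) : ZMod M)) := by
  unfold cor
  rw [sum_product]
  have h1 : ∀ m : ZMod M, bZ k M W J m * bZ k M W J (m + Δ) =
      ∑ j ∈ Icc 1 J, ∑ j' ∈ Icc 1 J, (1 / (J : ℝ)) ^ 2 *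
        (aZ k M (m - ((j * W : ℕ) : ZMod M)) * aZ k M (m + Δ - ((j' * W : ℕ) : ZMod M))) := by
    intro m
    unfold bZ
    rw [mul_mul_mul_comm, sum_mul_sum, mul_sum]
    apply sum_congr rfl; intro j _
    rw [mul_sum]
    apply sum_congr rfl; intro j' _
    ring
  rw [sum_congr rfl fun m _ => h1 m, sum_comm]
  apply sum_congr rfl; intro j _
  rw [sum_comm]
  apply sum_congr rfl; intro j' _
  rw [← mul_sum]
  congr 1
  rw [← Equiv.sum_comp (Equiv.addRight ((j * W : ℕ) : ZMod M))]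
  apply sum_congr rfl; intro m _
  simp only [Equiv.coe_addRight]
  rw [add_sub_cancel_right]
  congr 2
  push_cast
  ring

/-- the correlations of the primes -/
lemma corA_ne : ∃ C : ℝ, 0 < C ∧ ∃ A k0 : ℕ, ∀ k : ℕ, k0 ≤ k → ∀ M : ℕ, [NeZero M] → 4 * k ≤ M → ∀ D : ℤ, D ≠ 0 →
    |D| ≤ 2 * k → cor (aZ k M) (D : ZMod M) * ((Real.log k) ^ 2 / k) ≤ C * rat D.natAbs ^ A := by
  obtain ⟨C, hC, A, k0, h⟩ := pair_window
  refine ⟨C, hC, A, k0 + 3, ?_⟩
  intro k hk M hM hkM D hD0 hD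
  have hkpos : (0 : ℝ) < k := by exact_mod_cast (by omega : 0 < k)
  have hlk : 0 < Real.log k := Real.log_pos (by exact_mod_cast (by omega : 1 < k))
  have key : ∀ e : ℕ, 1 ≤ e → e ≤ 2 * k → cor (aZ k M) ((e : ℕ) : ZMod M) * ((Real.log k) ^ 2 / k) ≤ C * rat e ^ A := by
    intro e he1 he2
    have h1 : cor (aZ k M) ((e : ℕ) : ZMod M) ≤ (#{u ∈ Icc 1 k | (u + 0).Prime ∧ (u + e).Prime} : ℝ) := by
      have h2 : cor (aZ k M) ((e : ℕ) : ZMod M) =
          #{m : ZMod M | m.val ∈ PP k ∧ (m + ((e : ℕ) : ZMod M)).val ∈ PP k} := by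
        rw [card_filter_real]
        unfold cor aZ
        apply sum_congr rfl; intro m _
        by_cases h3 : m.val ∈ PP k <;> by_cases h4 : (m + ((e : ℕ) : ZMod M)).val ∈ PP k <;> simp [h3, h4]
      rw [h2]
      rw [Nat.cast_le]
      apply card_le_card_of_injOn (fun m : ZMod M => m.val)
      · intro m hm
        rw [mem_coe, mem_filter] at hm
        obtain ⟨_, h3, h4⟩ := hm
        have h5 : (m + ((e : ℕ) : ZMod M)).val = m.val + e := by
          have h6 : m + ((e : ℕ) : ZMod M) = ((m.val + e : ℕ) : ZMod M) := by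
            push_cast
            rw [ZMod.natCast_zmod_val]
          rw [h6, ZMod.val_natCast_of_lt]
          rw [PP, mem_filter, mem_Icc] at h3
          omega
        rw [h5] at h4
        rw [PP, mem_filter, mem_Icc] at h3 h4
        rw [mem_coe, mem_filter, mem_Icc]
        exact ⟨h3.1, by rw [add_zero]; exact h3.2.1, h4.2.1⟩
      · intro a _ b _ hab
        exact ZMod.val_injective M hab
    have h3 := h k (by omega) e 0 (by omega)
    rw [Nat.sub_zero] at h3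
    calc cor (aZ k M) ((e : ℕ) : ZMod M) * ((Real.log k) ^ 2 / k) ≤
        (C * k / (Real.log k) ^ 2 * rat e ^ A) * ((Real.log k) ^ 2 / k) :=
          mul_le_mul_of_nonneg_right (h1.trans h3) (by positivity)
      _ = _ := by field_simp
  have hDn : D.natAbs ≤ 2 * k := by
    have := Int.abs_eq_natAbs D
    omega
  rcases lt_or_gt_of_ne hD0 with h0 | h0
  · have h1 : (D : ZMod M) = -((D.natAbs : ℕ) : ZMod M) := by
      have : D = -((D.natAbs : ℕ) : ℤ) := by omega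
      conv_lhs => rw [this]
      rw [Int.cast_neg, Int.cast_natCast]
    rw [h1, cor_neg]
    exact key _ (by omega) (by omega)
  · have h1 : (D : ZMod M) = ((D.natAbs : ℕ) : ZMod M) := by
      have : D = ((D.natAbs : ℕ) : ℤ) := by omega
      conv_lhs => rw [this]
      rw [Int.cast_natCast]
    rw [h1]
    exact key _ (by omega) (by omega)

/-- moments of the correlations of the primes along differences of values of `f` -/
theorem momA (f : ℕ[X]) (hf : 1 ≤ f.natDegree) (B r : ℕ) (hB : 1 ≤ B) : ∃ C : ℝ, 0 < C ∧ ∃ x₀ : ℕ, ∀ x : ℕ, x₀ ≤ x →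
    ∀ k : ℕ, f.eval x ≤ k → k ≤ B * x ^ f.natDegree → ∀ M : ℕ, [NeZero M] → 4 * k ≤ M → ∀ c : ℤ, |c| ≤ k →
      ∑ n ∈ Icc 1 x, ∑ m ∈ Icc 1 x, (if c = 0 ∧ m = n then 0 else
        (cor (aZ k M) ((((f.eval m : ℕ) : ℤ) - ((f.eval n : ℕ) : ℤ) + c : ℤ) : ZMod M) * ((Real.log k) ^ 2 / k)) ^ r) ≤
          C * (x : ℝ) ^ 2 := by
  obtain ⟨C₁, hC₁, A, k0, hcor⟩ := corA_ne
  obtain ⟨C₂, hC₂, hrat⟩ := rat_poly_int f hf (A * r) (2 * B)
  have hd1 : (1 : ℝ) ≤ f.natDegree := by exact_mod_cast hf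
  have hlogev : ∀ᶠ x : ℕ in Filter.atTop, (4 * (Real.log B + f.natDegree * Real.log (x : ℝ))) ^ r ≤ x := by
    have h1 : (fun x : ℝ => (Real.log x) ^ r) =o[Filter.atTop] (fun x : ℝ => x) :=
      Real.isLittleO_pow_log_id_atTop (n := r)
    have h2 := (h1.bound (show (0 : ℝ) < 1 / (8 * f.natDegree) ^ r by positivity))
    have h3 := tendsto_natCast_atTop_atTop (R := ℝ) |>.eventually h2
    have h4 := (Real.tendsto_log_atTop.comp (tendsto_natCast_atTop_atTop (R := ℝ))).eventually_ge_atTop (Real.log B)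
    filter_upwards [h3, h4, Filter.eventually_ge_atTop 1] with x hx hx2 hx1
    have hlog0 : 0 ≤ Real.log (x : ℝ) := Real.log_nonneg (by exact_mod_cast hx1)
    rw [Real.norm_of_nonneg (by positivity), Real.norm_of_nonneg (by positivity)] at hx
    have hx2' : Real.log B ≤ Real.log x := hx2
    have hB0 : 0 ≤ Real.log B := Real.log_natCast_nonneg B
    calc (4 * (Real.log B + f.natDegree * Real.log (x : ℝ))) ^ r ≤ (8 * f.natDegree * Real.log x) ^ r := by
          apply pow_le_pow_left₀ (by positivity)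
          nlinarith
      _ = (8 * f.natDegree) ^ r * (Real.log x) ^ r := by rw [mul_pow]
      _ ≤ (8 * f.natDegree) ^ r * (1 / (8 * f.natDegree) ^ r * x) := mul_le_mul_of_nonneg_left hx (by positivity)
      _ = x := by field_simp
  obtain ⟨x₁, hx₁⟩ := Filter.eventually_atTop.1 hlogev
  refine ⟨C₁ ^ r * C₂ + 1, by positivity, x₁ + k0 + 2, ?_⟩
  intro x hx k hk1 hk2 M hM hkM c hc
  have hx1 : 1 ≤ x := by omega
  have hx0 : (0 : ℝ) < x := by exact_mod_cast hx1
  have hxk : x ≤ k := by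
    have h1 := Pool.Agent.H373R2.SH.Gp_ge f hf 0
    have h2 : ∀ n : ℕ, n ≤ f.eval n := by
      intro n
      induction n with
      | zero => exact Nat.zero_le _
      | succ n ih =>
        rcases Nat.eq_zero_or_pos n with h0 | h0
        · subst h0
          rw [zero_add]
          by_contra hcon
          have h3 : f.eval 1 = 0 := by omega
          rw [eval_eq_sum_range, sum_eq_zero_iff] at h3
          have h4 := h3 f.natDegree (mem_range.2 (by omega))
          rw [one_pow, mul_one] at h4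
          have hf0 : f ≠ 0 := by rintro rfl; simp at hf
          exact leadingCoeff_ne_zero.2 hf0 h4
        · have h3 := eval_strict f hf h0 (Nat.lt_succ_self n)
          have h4 : n.succ = n + 1 := rfl
          rw [h4] at h3
          omega
    exact (h2 x).trans hk1
  have hkpos : (0 : ℝ) < k := by exact_mod_cast (by omega : 0 < k)
  have hk2' : 2 ≤ k := by omega
  have hlk : 0 < Real.log k := Real.log_pos (by exact_mod_cast (by omega : 1 < k))
  have hlogk : Real.log k ≤ Real.log B + f.natDegree * Real.log x := by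
    have hB0 : (0 : ℝ) < B := by exact_mod_cast hB
    calc Real.log k ≤ Real.log (B * (x : ℝ) ^ f.natDegree) := Real.log_le_log hkpos (by exact_mod_cast hk2)
      _ = _ := by rw [Real.log_mul hB0.ne' (by positivity), Real.log_pow]
  have hzero : (cor (aZ k M) 0 * ((Real.log k) ^ 2 / k)) ^ r ≤ x := by
    have h1 := cor_zero_le k hk2' (by omega : k < M) (aZ k M) (aZ_nonneg k M) (aZ_le k M) (sum_aZ k (by omega))
    have h2 : cor (aZ k M) 0 * ((Real.log k) ^ 2 / k) ≤ 4 * Real.log k := by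
      calc cor (aZ k M) 0 * ((Real.log k) ^ 2 / k) ≤ (4 * (k / Real.log k)) * ((Real.log k) ^ 2 / k) :=
            mul_le_mul_of_nonneg_right h1 (by positivity)
        _ = _ := by field_simp
    calc _ ≤ (4 * Real.log k) ^ r := pow_le_pow_left₀ (mul_nonneg (cor_nonneg _ (aZ_nonneg k M) _) (by positivity)) h2 r
      _ ≤ (4 * (Real.log B + f.natDegree * Real.log (x : ℝ))) ^ r :=
          pow_le_pow_left₀ (by positivity) (by linarith) r
      _ ≤ x := hx₁ x (by omega)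
  have hfx : ∀ n ∈ Icc 1 x, f.eval n ≤ k := by
    intro n hn
    rw [mem_Icc] at hn
    rcases hn.2.eq_or_lt with h0 | h0
    · rw [h0]; exact hk1
    · exact (eval_strict f hf hn.1 h0).le.trans hk1
  have hinner : ∀ n ∈ Icc 1 x, ∑ m ∈ Icc 1 x, (if c = 0 ∧ m = n then 0 else
        (cor (aZ k M) ((((f.eval m : ℕ) : ℤ) - ((f.eval n : ℕ) : ℤ) + c : ℤ) : ZMod M) * ((Real.log k) ^ 2 / k)) ^ r) ≤
        (C₁ ^ r * C₂ + 1) * x := by
    intro n hn
    set c' : ℤ := ((f.eval n : ℕ) : ℤ) - c with hc'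
    have hc'b : |c'| ≤ ((2 * B : ℕ) : ℤ) * (x : ℤ) ^ f.natDegree := by
      have h1 := hfx n hn
      have h2 : ((k : ℕ) : ℤ) ≤ B * (x : ℤ) ^ f.natDegree := by exact_mod_cast hk2
      have h3 : |c'| ≤ ((f.eval n : ℕ) : ℤ) + |c| := by
        rw [hc']
        refine (abs_sub _ _).trans ?_
        rw [abs_of_nonneg (Int.natCast_nonneg _)]
      have h4 : ((f.eval n : ℕ) : ℤ) ≤ k := by exact_mod_cast h1
      push_cast
      linarith
    have h1 := hrat x hx1 c' hc'b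
    have hterm : ∀ m ∈ Icc 1 x, (if c = 0 ∧ m = n then 0 else
        (cor (aZ k M) ((((f.eval m : ℕ) : ℤ) - ((f.eval n : ℕ) : ℤ) + c : ℤ) : ZMod M) * ((Real.log k) ^ 2 / k)) ^ r) ≤
        C₁ ^ r * (if ((f.eval m : ℕ) : ℤ) ≠ c' then rat (((f.eval m : ℕ) : ℤ) - c').natAbs ^ (A * r) else 0) +
        (if ((f.eval m : ℕ) : ℤ) = c' then (x : ℝ) else 0) := by
      intro m hm
      have hD : ((f.eval m : ℕ) : ℤ) - ((f.eval n : ℕ) : ℤ) + c = ((f.eval m : ℕ) : ℤ) - c' := by rw [hc']; ring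
      rw [hD]
      by_cases h2 : ((f.eval m : ℕ) : ℤ) = c'
      · rw [if_neg (not_not.2 h2), if_pos h2, mul_zero, zero_add]
        split_ifs with h3
        · exact hx0.le
        · rw [h2, sub_self, Int.cast_zero]
          exact hzero
      · rw [if_pos h2, if_neg h2, add_zero]
        split_ifs with h3
        · have := rat_nonneg (((f.eval m : ℕ) : ℤ) - c').natAbs
          positivity
        · have h4 : |((f.eval m : ℕ) : ℤ) - c'| ≤ 2 * k := by
            rw [← hD]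
            have h5 := hfx m hm
            have h6 := hfx n hn
            have h7 : |((f.eval m : ℕ) : ℤ) - ((f.eval n : ℕ) : ℤ)| ≤ k := by
              rw [abs_le]
              constructor <;> omega
            refine (abs_add_le _ _).trans ?_
            linarith
          have h5 := hcor k (by omega) M hkM (((f.eval m : ℕ) : ℤ) - c') (sub_ne_zero.2 h2) h4
          calc _ ≤ (C₁ * rat (((f.eval m : ℕ) : ℤ) - c').natAbs ^ A) ^ r :=
                pow_le_pow_left₀ (mul_nonneg (cor_nonneg _ (aZ_nonneg k M) _) (by positivity)) h5 r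
            _ = _ := by rw [mul_pow, ← pow_mul]
    calc _ ≤ ∑ m ∈ Icc 1 x, (C₁ ^ r * (if ((f.eval m : ℕ) : ℤ) ≠ c' then rat (((f.eval m : ℕ) : ℤ) - c').natAbs ^ (A * r) else 0) +
        (if ((f.eval m : ℕ) : ℤ) = c' then (x : ℝ) else 0)) := sum_le_sum hterm
      _ = C₁ ^ r * (∑ m ∈ (Icc 1 x).filter (fun m => ((f.eval m : ℕ) : ℤ) ≠ c'), rat (((f.eval m : ℕ) : ℤ) - c').natAbs ^ (A * r)) +
          ∑ m ∈ (Icc 1 x).filter (fun m => ((f.eval m : ℕ) : ℤ) = c'), (x : ℝ) := by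
            rw [sum_add_distrib, ← mul_sum, sum_filter, sum_filter]
      _ ≤ C₁ ^ r * (C₂ * x) + x := by
          apply add_le_add
          · exact mul_le_mul_of_nonneg_left h1 (by positivity)
          · rw [sum_const, nsmul_eq_mul]
            have h2 : #((Icc 1 x).filter (fun m => ((f.eval m : ℕ) : ℤ) = c')) ≤ 1 := by
              rw [card_le_one]
              intro a ha b hb
              rw [mem_filter, mem_Icc] at ha hb
              by_contra hne
              have h3 : f.eval a = f.eval b := by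
                have := ha.2.trans hb.2.symm
                exact_mod_cast this
              rcases lt_or_gt_of_ne hne with h4 | h4
              · exact absurd h3 (eval_strict f hf ha.1.1 h4).ne
              · exact absurd h3 (eval_strict f hf hb.1.1 h4).ne'
            have h3 : (#((Icc 1 x).filter (fun m => ((f.eval m : ℕ) : ℤ) = c')) : ℝ) ≤ 1 := by exact_mod_cast h2
            nlinarith
      _ = _ := by ring
  calc _ ≤ ∑ _n ∈ Icc 1 x, (C₁ ^ r * C₂ + 1) * (x : ℝ) := sum_le_sum hinner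
    _ = _ := by rw [sum_const, Nat.card_Icc, Nat.add_sub_cancel, nsmul_eq_mul]; ring

/-- moments of the correlations of the averaged primes -/
theorem momB (f : ℕ[X]) (hf : 1 ≤ f.natDegree) (B r : ℕ) (hB : 1 ≤ B) : ∃ C : ℝ, 0 < C ∧ ∃ x₀ : ℕ, ∀ x : ℕ, x₀ ≤ x →
    ∀ k : ℕ, f.eval x ≤ k → k ≤ B * x ^ f.natDegree → ∀ M : ℕ, [NeZero M] → 4 * k ≤ M → ∀ W J : ℕ, 1 ≤ J → J * W ≤ k →
      ∑ n ∈ Icc 1 x, ∑ m ∈ Icc 1 x, (if m = n then 0 else
        (cor (bZ k M W J) ((((f.eval m : ℕ) : ℤ) - ((f.eval n : ℕ) : ℤ) : ℤ) : ZMod M) * ((Real.log k) ^ 2 / k)) ^ r) ≤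
          C * (x : ℝ) ^ 2 := by
  obtain ⟨C, hC, x₀, h⟩ := momA f hf B r hB
  refine ⟨C, hC, x₀, ?_⟩
  intro x hx k hk1 hk2 M hM hkM W J hJ hJW
  have hJ0 : (0 : ℝ) < J := by exact_mod_cast hJ
  set L : ℝ := (Real.log k) ^ 2 / k with hL
  have hL0 : 0 ≤ L := by positivity
  have hw : ∑ _v ∈ (Icc 1 J) ×ˢ (Icc 1 J), (1 / (J : ℝ)) ^ 2 = 1 := by
    rw [sum_const, card_product, Nat.card_Icc, Nat.add_sub_cancel, nsmul_eq_mul]
    push_cast; field_simp
  have hterm : ∀ n ∈ Icc 1 x, ∀ m ∈ Icc 1 x, (if m = n then 0 else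
        (cor (bZ k M W J) ((((f.eval m : ℕ) : ℤ) - ((f.eval n : ℕ) : ℤ) : ℤ) : ZMod M) * L) ^ r) ≤
        ∑ v ∈ (Icc 1 J) ×ˢ (Icc 1 J), (1 / (J : ℝ)) ^ 2 * (if (((v.1 : ℤ) - v.2) * W : ℤ) = 0 ∧ m = n then 0 else
        (cor (aZ k M) ((((f.eval m : ℕ) : ℤ) - ((f.eval n : ℕ) : ℤ) + ((v.1 : ℤ) - v.2) * W : ℤ) : ZMod M) * L) ^ r) := by
    intro n _ m _
    split_ifs with h1
    · apply sum_nonneg
      intro v _
      split_ifs
      · simp
      · have := cor_nonneg (aZ k M) (aZ_nonneg k M) ((((f.eval m : ℕ) : ℤ) - ((f.eval n : ℕ) : ℤ) + ((v.1 : ℤ) - v.2) * W : ℤ) : ZMod M)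
        positivity
    · rw [cor_bZ, sum_mul]
      have h2 := Real.pow_arith_mean_le_arith_mean_pow ((Icc 1 J) ×ˢ (Icc 1 J)) (fun _ => (1 / (J : ℝ)) ^ 2)
        (fun v : ℕ × ℕ => cor (aZ k M) ((((f.eval m : ℕ) : ℤ) - ((f.eval n : ℕ) : ℤ) + ((v.1 : ℤ) - v.2) * W : ℤ) : ZMod M) * L)
        (fun _ _ => by positivity) hw
        (fun v _ => mul_nonneg (cor_nonneg _ (aZ_nonneg k M) _) hL0) r
      refine le_trans (le_of_eq ?_) (h2.trans (le_of_eq ?_))
      · congr 1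
        apply sum_congr rfl
        intro v _
        rw [← Int.cast_add]; ring
      · apply sum_congr rfl
        intro v _
        rw [if_neg (fun h3 => h1 h3.2)]
  calc _ ≤ ∑ n ∈ Icc 1 x, ∑ m ∈ Icc 1 x, ∑ v ∈ (Icc 1 J) ×ˢ (Icc 1 J), (1 / (J : ℝ)) ^ 2 *
        (if (((v.1 : ℤ) - v.2) * W : ℤ) = 0 ∧ m = n then 0 else
        (cor (aZ k M) ((((f.eval m : ℕ) : ℤ) - ((f.eval n : ℕ) : ℤ) + ((v.1 : ℤ) - v.2) * W : ℤ) : ZMod M) * L) ^ r) :=
        sum_le_sum fun n hn => sum_le_sum fun m hm => hterm n hn m hm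
    _ = ∑ v ∈ (Icc 1 J) ×ˢ (Icc 1 J), (1 / (J : ℝ)) ^ 2 * ∑ n ∈ Icc 1 x, ∑ m ∈ Icc 1 x,
        (if (((v.1 : ℤ) - v.2) * W : ℤ) = 0 ∧ m = n then 0 else
        (cor (aZ k M) ((((f.eval m : ℕ) : ℤ) - ((f.eval n : ℕ) : ℤ) + ((v.1 : ℤ) - v.2) * W : ℤ) : ZMod M) * L) ^ r) := by
        have e1 : ∀ n ∈ Icc 1 x, ∑ m ∈ Icc 1 x, ∑ v ∈ (Icc 1 J) ×ˢ (Icc 1 J), (1 / (J : ℝ)) ^ 2 *
            (if (((v.1 : ℤ) - v.2) * W : ℤ) = 0 ∧ m = n then 0 else
            (cor (aZ k M) ((((f.eval m : ℕ) : ℤ) - ((f.eval n : ℕ) : ℤ) + ((v.1 : ℤ) - v.2) * W : ℤ) : ZMod M) * L) ^ r) =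
            ∑ v ∈ (Icc 1 J) ×ˢ (Icc 1 J), (1 / (J : ℝ)) ^ 2 * ∑ m ∈ Icc 1 x,
            (if (((v.1 : ℤ) - v.2) * W : ℤ) = 0 ∧ m = n then 0 else
            (cor (aZ k M) ((((f.eval m : ℕ) : ℤ) - ((f.eval n : ℕ) : ℤ) + ((v.1 : ℤ) - v.2) * W : ℤ) : ZMod M) * L) ^ r) := by
          intro n _
          rw [sum_comm]
          apply sum_congr rfl; intro v _
          rw [mul_sum]
        rw [sum_congr rfl e1, sum_comm]
        apply sum_congr rfl; intro v _
        rw [mul_sum]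
    _ ≤ ∑ _v ∈ (Icc 1 J) ×ˢ (Icc 1 J), (1 / (J : ℝ)) ^ 2 * (C * (x : ℝ) ^ 2) := by
        apply sum_le_sum
        intro v hv
        apply mul_le_mul_of_nonneg_left _ (by positivity)
        rw [mem_product, mem_Icc, mem_Icc] at hv
        apply h x hx k hk1 hk2 M hkM
        rw [abs_mul, Nat.abs_cast]
        have h1 : |(v.1 : ℤ) - v.2| ≤ J := by
          rw [abs_le]; constructor <;> omega
        calc |(v.1 : ℤ) - v.2| * (W : ℤ) ≤ (J : ℤ) * W := mul_le_mul_of_nonneg_right h1 (Int.natCast_nonneg _)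
          _ ≤ k := by exact_mod_cast hJW
    _ = C * (x : ℝ) ^ 2 := by rw [← sum_mul, hw, one_mul]

end Pool.Agent.H373R2.NB
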