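import Mathlib
import Pool.Agent.H373R2.NB.CorA

namespace Pool.Agent.H373R2.NB
open Finset Polynomial
open Pool.Agent.Helper602.MK
open Pool.Agent.H373R2.SH (eval_strict prod_le_sum_pow)

variable {r : ℕ}

/-- expansion of a mean square -/
lemma prod_cor (M : Fin r → ℕ) [∀ i, NeZero (M i)] (u : ∀ i, ZMod (M i) → ℝ) {ι : Type*} (s : Finset ι)
    (c : ∀ i, ι → ZMod (M i)) :
    ∑ h : (∀ i, ZMod (M i)), (∑ n ∈ s, ∏ i, u i (c i n + h i)) ^ 2 =
      ∑ n ∈ s, ∑ m ∈ s, ∏ i, cor (u i) (c i m - c i n) := by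
  have h1 : ∀ h : (∀ i, ZMod (M i)), (∑ n ∈ s, ∏ i, u i (c i n + h i)) ^ 2 =
      ∑ n ∈ s, ∑ m ∈ s, ∏ i, (u i (c i n + h i) * u i (c i m + h i)) := by
    intro h
    rw [sq, sum_mul_sum]
    apply sum_congr rfl; intro n _
    apply sum_congr rfl; intro m _
    rw [prod_mul_distrib]
  rw [sum_congr rfl fun h _ => h1 h, sum_comm]
  apply sum_congr rfl; intro n _
  rw [sum_comm]
  apply sum_congr rfl; intro m _
  have h2 := Finset.prod_univ_sum (fun i => (univ : Finset (ZMod (M i)))) (fun i t => u i (c i n + t) * u i (c i m + t))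
  rw [Fintype.piFinset_univ] at h2
  rw [← h2]
  apply prod_congr rfl; intro i _
  unfold cor
  rw [← Equiv.sum_comp (Equiv.addLeft (c i n)) (fun t => u i t * u i (t + (c i m - c i n)))]
  apply sum_congr rfl; intro t _
  simp only [Equiv.coe_addLeft]
  congr 2
  ring

lemma log_prod_small (B D r : ℕ) (δ : ℝ) (hδ : 0 < δ) :
    ∃ x₀ : ℕ, ∀ x : ℕ, x₀ ≤ x → (8 * (Real.log B + D * Real.log (x : ℝ))) ^ r ≤ δ * x := by
  have h1 : (fun x : ℝ => (Real.log x) ^ r) =o[Filter.atTop] (fun x : ℝ => x) :=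
    Real.isLittleO_pow_log_id_atTop (n := r)
  have h2 := (h1.bound (show (0 : ℝ) < δ / (8 * (D + 1)) ^ r by positivity))
  have h3 := tendsto_natCast_atTop_atTop (R := ℝ) |>.eventually h2
  have h4 := (Real.tendsto_log_atTop.comp (tendsto_natCast_atTop_atTop (R := ℝ))).eventually_ge_atTop (Real.log B)
  have h5 : ∀ᶠ x : ℕ in Filter.atTop, (8 * (Real.log B + D * Real.log (x : ℝ))) ^ r ≤ δ * x := by
    filter_upwards [h3, h4, Filter.eventually_ge_atTop 1] with x hx hx2 hx1
    have hlog0 : 0 ≤ Real.log (x : ℝ) := Real.log_nonneg (by exact_mod_cast hx1)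
    rw [Real.norm_of_nonneg (by positivity), Real.norm_of_nonneg (by positivity)] at hx
    have hx2' : Real.log B ≤ Real.log x := hx2
    have hB0 : 0 ≤ Real.log B := Real.log_natCast_nonneg B
    calc (8 * (Real.log B + D * Real.log (x : ℝ))) ^ r ≤ (8 * (D + 1) * Real.log x) ^ r := by
          apply pow_le_pow_left₀ (by positivity)
          nlinarith
      _ = (8 * (D + 1)) ^ r * (Real.log x) ^ r := by rw [mul_pow]
      _ ≤ (8 * (D + 1)) ^ r * (δ / (8 * (D + 1)) ^ r * x) := mul_le_mul_of_nonneg_left hx (by positivity)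
      _ = δ * x := by field_simp
  exact Filter.eventually_atTop.1 h5

/-- the mean square of one mixed term -/
theorem tele_one (hr : 1 ≤ r) (f : Fin r → ℕ[X]) (hf : ∀ i, 1 ≤ (f i).natDegree) (B : ℕ) (hB : 1 ≤ B) (ε : ℝ) (hε : 0 < ε) :
    ∃ W₀ : ℕ, 1 ≤ W₀ ∧ ∃ τ₀ : ℝ, 0 < τ₀ ∧ ∃ x₀ : ℕ, ∀ x : ℕ, x₀ ≤ x → ∀ K M : Fin r → ℕ, [∀ i, NeZero (M i)] →
    (∀ i, 2 ≤ K i ∧ (f i).eval x ≤ K i ∧ K i ≤ B * x ^ (f i).natDegree ∧ 4 * K i ≤ M i ∧ M i ≤ 100 * K i) →
    ∀ W : ℕ, W₀ ∣ W → ∀ J : Fin r → ℕ, (∀ i, 1 ≤ J i ∧ J i * W ≤ K i ∧ ((J i * W : ℕ) : ℝ) ≤ τ₀ * K i) → ∀ j : Fin r,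
      ∑ h : (∀ i, ZMod (M i)), (∑ n ∈ Icc 1 x, ∏ i, (if i < j then bZ (K i) (M i) W (J i) else
        if i = j then EZ (K i) (M i) W (J i) else aZ (K i) (M i)) ((((f i).eval n : ℕ) : ZMod (M i)) + h i)) ^ 2 ≤
        ε * (x : ℝ) ^ 2 * ∏ i, ((K i : ℝ) / (Real.log (K i)) ^ 2) := by
  have h1 := fun i => momA (f i) (hf i) B (2 * r) hB
  choose Ca hCa xa hmA using h1
  have h2 := fun i => momB (f i) (hf i) B (2 * r) hB
  choose Cb hCb xb hmB using h2
  set Ct : ℝ := ∑ i, (Ca i + Cb i + 1) with hCt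
  have : Nonempty (Fin r) := ⟨⟨0, hr⟩⟩
  have hCt0 : 0 < Ct := sum_pos (fun i _ => by have := hCa i; have := hCb i; linarith) univ_nonempty
  set lam : ℝ := ε / Ct with hlam
  have hlam0 : 0 < lam := by positivity
  have h3 := fun i => corr_small ((f i).map (Nat.castRingHom ℤ))
    (by
      rw [natDegree_map_eq_of_injective (RingHom.injective_nat (Nat.castRingHom ℤ))]
      exact hf i)
    (by
      rw [leadingCoeff_map_of_injective (RingHom.injective_nat (Nat.castRingHom ℤ))]
      have h0 : (f i) ≠ 0 := by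
        intro h0
        have := hf i
        rw [h0] at this; simp at this
      have : (f i).leadingCoeff ≠ 0 := leadingCoeff_ne_zero.2 h0
      simp only [eq_natCast]
      omega)
    (100 * B) (by omega) (lam * ε / 2) (by positivity)
  choose W₁ hW₁ τ₁ hτ₁ k₁ hk₁ hcorr using h3
  obtain ⟨x₁, hx₁⟩ := log_prod_small B (∑ i, (f i).natDegree) r (ε / 4) (by positivity)
  have hW1 : 1 ≤ ∏ i, W₁ i := by
    have h0 : 0 < ∏ i, W₁ i := prod_pos fun i _ => hW₁ i
    exact h0
  refine ⟨∏ i, W₁ i, hW1, univ.inf' univ_nonempty τ₁,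
    (lt_inf'_iff _).2 fun i _ => hτ₁ i, (∑ i, (xa i + xb i + k₁ i)) + x₁ + 2, ?_⟩
  intro x hx K M hM hK W hW J hJ j
  have hxi : ∀ i, xa i + xb i + k₁ i ≤ ∑ i, (xa i + xb i + k₁ i) := fun i =>
    single_le_sum (f := fun i => xa i + xb i + k₁ i) (fun _ _ => Nat.zero_le _) (mem_univ i)
  have hx0 : (0 : ℝ) < x := by exact_mod_cast (by omega : 0 < x)
  have hKpos : ∀ i, (0 : ℝ) < K i := fun i => by exact_mod_cast (by have := (hK i).1; omega : 0 < K i)
  have hlK : ∀ i, 0 < Real.log (K i) := fun i =>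
    Real.log_pos (by exact_mod_cast (by have := (hK i).1; omega : 1 < K i))
  have hxK : ∀ i, x ≤ K i := by
    intro i
    have h4 : ∀ n : ℕ, n ≤ (f i).eval n := by
      intro n
      induction n with
      | zero => exact Nat.zero_le _
      | succ n ih =>
        rcases Nat.eq_zero_or_pos n with h0 | h0
        · subst h0
          rw [zero_add]
          by_contra hcon
          have h3 : (f i).eval 1 = 0 := by omega
          rw [eval_eq_sum_range, sum_eq_zero_iff] at h3
          have h4 := h3 (f i).natDegree (mem_range.2 (by omega))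
          rw [one_pow, mul_one] at h4
          have hf0 : (f i) ≠ 0 := by
            intro h0
            have := hf i
            rw [h0] at this; simp at this
          exact leadingCoeff_ne_zero.2 hf0 h4
        · have h3 := eval_strict (f i) (hf i) h0 (Nat.lt_succ_self n)
          have h4 : n.succ = n + 1 := rfl
          rw [h4] at h3
          omega
    exact (h4 x).trans (hK i).2.1
  rw [prod_cor]
  set u : ∀ i, ZMod (M i) → ℝ := fun i => (if i < j then bZ (K i) (M i) W (J i) else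
        if i = j then EZ (K i) (M i) W (J i) else aZ (K i) (M i)) with hu
  set L : Fin r → ℝ := fun i => (Real.log (K i)) ^ 2 / K i with hL
  have hL0 : ∀ i, 0 < L i := fun i => by
    have := hKpos i
    have := hlK i
    simp only [hL]; positivity
  have hLN : ∏ i, ((K i : ℝ) / (Real.log (K i)) ^ 2) = (∏ i, L i)⁻¹ := by
    rw [← prod_inv_distrib]
    apply prod_congr rfl; intro i _
    simp only [hL]; rw [inv_div]
  rw [hLN, ← div_eq_mul_inv, le_div_iff₀ (prod_pos fun i _ => hL0 i)]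
  set y : Fin r → ℕ → ℕ → ℝ := fun i n m => cor (u i) ((((f i).eval m : ℕ) : ZMod (M i)) - (((f i).eval n : ℕ) : ZMod (M i))) * L i with hy
  have hcast : ∀ i (n m : ℕ), ((((f i).eval m : ℕ) : ZMod (M i)) - (((f i).eval n : ℕ) : ZMod (M i))) =
      ((((f i).eval m : ℕ) : ℤ) - (((f i).eval n : ℕ) : ℤ) : ℤ) := by
    intro i n m; push_cast; rfl
  set y' : Fin r → ℕ → ℕ → ℝ := fun i n m => if i = j then 1 else y i n m with hy'
  have hprod : ∀ n m, ∏ i, y i n m = y j n m * ∏ i, y' i n m := by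
    intro n m
    have e1 : ∀ i, y i n m = (if i = j then y j n m else 1) * y' i n m := by
      intro i
      simp only [hy']
      by_cases h : i = j
      · rw [if_pos h, if_pos h, h, mul_one]
      · rw [if_neg h, if_neg h, one_mul]
    rw [prod_congr rfl fun i _ => e1 i, prod_mul_distrib, prod_ite_eq' univ j, if_pos (mem_univ _)]
  have hsum : (∑ n ∈ Icc 1 x, ∑ m ∈ Icc 1 x, ∏ i, cor (u i) ((((f i).eval m : ℕ) : ZMod (M i)) - (((f i).eval n : ℕ) : ZMod (M i)))) * ∏ i, L i =
      ∑ n ∈ Icc 1 x, ∑ m ∈ Icc 1 x, ∏ i, y i n m := by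
    rw [sum_mul]
    apply sum_congr rfl; intro n _
    rw [sum_mul]
    apply sum_congr rfl; intro m _
    rw [← prod_mul_distrib]
  rw [hsum]
  -- bound for off-diagonal moments
  have hmom : ∀ i, ∑ n ∈ Icc 1 x, ∑ m ∈ Icc 1 x, (if m = n then 0 else y' i n m ^ (2 * r)) ≤ (Ca i + Cb i + 1) * (x : ℝ) ^ 2 := by
    intro i
    have hca := hCa i
    have hcb := hCb i
    have hKi := hK i
    have hxi' := hxi i
    have hx2 : (0 : ℝ) ≤ (x : ℝ) ^ 2 := by positivity
    rcases lt_trichotomy i j with h | h | h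
    · have h4 := hmB i x (by omega) (K i) hKi.2.1 hKi.2.2.1 (M i) hKi.2.2.2.1 W (J i) (hJ i).1 (hJ i).2.1
      have e : ∀ n ∈ Icc 1 x, ∀ m ∈ Icc 1 x, (if m = n then 0 else y' i n m ^ (2 * r)) = (if m = n then 0 else
          (cor (bZ (K i) (M i) W (J i)) (((((f i).eval m : ℕ) : ℤ) - (((f i).eval n : ℕ) : ℤ) : ℤ) : ZMod (M i)) *
            ((Real.log (K i)) ^ 2 / K i)) ^ (2 * r)) := by
        intro n _ m _
        simp only [hy', hy, hu, hL, hcast]
        rw [if_neg h.ne, if_pos h]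
      rw [sum_congr rfl fun n hn => sum_congr rfl fun m hm => e n hn m hm]
      refine h4.trans ?_
      nlinarith
    · have e : ∀ n ∈ Icc 1 x, ∀ m ∈ Icc 1 x, (if m = n then 0 else y' i n m ^ (2 * r)) ≤ (1 : ℝ) := by
        intro n _ m _
        simp only [hy']
        rw [if_pos h, one_pow]
        split_ifs <;> norm_num
      calc _ ≤ ∑ _n ∈ Icc 1 x, ∑ _m ∈ Icc 1 x, (1 : ℝ) := sum_le_sum fun n hn => sum_le_sum fun m hm => e n hn m hm
        _ = (x : ℝ) ^ 2 := by simp; ring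
        _ ≤ _ := by nlinarith
    · have h4 := hmA i x (by omega) (K i) hKi.2.1 hKi.2.2.1 (M i) hKi.2.2.2.1 0 (by simp)
      have e : ∀ n ∈ Icc 1 x, ∀ m ∈ Icc 1 x, (if m = n then 0 else y' i n m ^ (2 * r)) = (if (0 : ℤ) = 0 ∧ m = n then 0 else
          (cor (aZ (K i) (M i)) (((((f i).eval m : ℕ) : ℤ) - (((f i).eval n : ℕ) : ℤ) + 0 : ℤ) : ZMod (M i)) *
            ((Real.log (K i)) ^ 2 / K i)) ^ (2 * r)) := by
        intro n _ m _
        simp only [hy', hy, hu, hL, hcast, add_zero, true_and]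
        rw [if_neg h.ne', if_neg (not_lt.2 h.le), if_neg h.ne']
      rw [sum_congr rfl fun n hn => sum_congr rfl fun m hm => e n hn m hm]
      refine h4.trans ?_
      nlinarith
  -- the small factor
  have hsmall : ∑ n ∈ Icc 1 x, ∑ m ∈ Icc 1 x, y j n m ^ 2 ≤ (lam * ε / 2) * (x : ℝ) ^ 2 := by
    have hKj := hK j
    have hxj := hxi j
    have hxKj := hxK j
    have h4 := hcorr j (K j) (by omega) (M j) (by omega) hKj.2.2.2.2 x (by omega)
      (by
        rw [natDegree_map_eq_of_injective (RingHom.injective_nat (Nat.castRingHom ℤ))]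
        calc M j ≤ 100 * K j := hKj.2.2.2.2
          _ ≤ 100 * (B * x ^ (f j).natDegree) := Nat.mul_le_mul_left _ hKj.2.2.1
          _ = _ := by ring) W (J j) (hJ j).1 ((dvd_prod_of_mem W₁ (mem_univ j)).trans hW)
      ((hJ j).2.2.trans (mul_le_mul_of_nonneg_right (inf'_le _ (mem_univ j)) (hKpos j).le))
    have hev : ∀ n : ℕ, ((((f j).map (Nat.castRingHom ℤ)).eval (n : ℤ) : ℤ) : ZMod (M j)) = (((f j).eval n : ℕ) : ZMod (M j)) := by
      intro n
      rw [eval_natCast_map]
      simp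
    simp only [hev] at h4
    have h5 : ∑ n ∈ Icc 1 x, ∑ m ∈ Icc 1 x, y j n m ^ 2 =
        (∑ n ∈ Icc 1 x, ∑ m ∈ Icc 1 x, cor (EZ (K j) (M j) W (J j)) ((((f j).eval n : ℕ) : ZMod (M j)) - (((f j).eval m : ℕ) : ZMod (M j))) ^ 2) * (L j) ^ 2 := by
      rw [sum_comm, sum_mul]
      apply sum_congr rfl; intro n _
      rw [sum_mul]
      apply sum_congr rfl; intro m _
      simp only [hy, hu]
      rw [if_neg (lt_irrefl j), if_pos trivial, mul_pow]
    rw [h5]
    have hLj := hL0 j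
    calc _ ≤ ((lam * ε / 2) * (x : ℝ) ^ 2 * ((K j : ℝ) / (Real.log (K j)) ^ 2) ^ 2) * (L j) ^ 2 :=
          mul_le_mul_of_nonneg_right h4 (by positivity)
      _ = _ := by
        have h6 := hKpos j
        have h7 := hlK j
        simp only [hL]
        field_simp
  -- diagonal
  have hdiag : ∀ n ∈ Icc 1 x, ∏ i, y i n n ≤ (ε / 4) * x := by
    intro n _
    have h4 : ∀ i, |y i n n| ≤ 8 * (Real.log B + ((∑ i, (f i).natDegree : ℕ) : ℝ) * Real.log x) := by
      intro i
      have hKi := hK i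
      have h5 : |y i n n| ≤ 8 * Real.log (K i) := by
        simp only [hy]
        rw [sub_self, abs_mul, abs_of_pos (hL0 i)]
        have h6 : |cor (u i) 0| ≤ 8 * (K i / Real.log (K i)) := by
          have h8 : 0 ≤ (K i : ℝ) / Real.log (K i) := div_nonneg (hKpos i).le (hlK i).le
          simp only [hu]
          split_ifs with h9 h10
          · rw [abs_of_nonneg (cor_nonneg _ (bZ_nonneg _ _ _) _)]
            have := cor_zero_le (K i) hKi.1 (by omega) (bZ (K i) (M i) W (J i)) (bZ_nonneg _ _ _) (bZ_le _ _ _)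
              (sum_bZ _ _ _ (by omega) (hJ i).1)
            linarith
          · exact corE_zero_le (K i) W (J i) hKi.1 (by omega) (hJ i).1
          · rw [abs_of_nonneg (cor_nonneg _ (aZ_nonneg _ _) _)]
            have := cor_zero_le (K i) hKi.1 (by omega) (aZ (K i) (M i)) (aZ_nonneg _ _) (aZ_le _ _) (sum_aZ _ (by omega))
            linarith
        calc |cor (u i) 0| * L i ≤ (8 * (K i / Real.log (K i))) * L i := mul_le_mul_of_nonneg_right h6 (hL0 i).le
          _ = _ := by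
            have h7 := hKpos i
            have h8 := hlK i
            simp only [hL]
            field_simp
      refine h5.trans ?_
      have hB0 : (0 : ℝ) < B := by exact_mod_cast hB
      have hlogx : 0 ≤ Real.log (x : ℝ) := Real.log_natCast_nonneg x
      have h6 : Real.log (K i) ≤ Real.log B + ((f i).natDegree : ℝ) * Real.log x := by
        calc Real.log (K i) ≤ Real.log (B * (x : ℝ) ^ (f i).natDegree) :=
              Real.log_le_log (hKpos i) (by exact_mod_cast hKi.2.2.1)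
          _ = _ := by rw [Real.log_mul hB0.ne' (by positivity), Real.log_pow]
      have h7 : ((f i).natDegree : ℝ) ≤ ((∑ i, (f i).natDegree : ℕ) : ℝ) := by
        exact_mod_cast single_le_sum (f := fun i => (f i).natDegree) (fun _ _ => Nat.zero_le _) (mem_univ i)
      nlinarith
    calc ∏ i, y i n n ≤ |∏ i, y i n n| := le_abs_self _
      _ = ∏ i, |y i n n| := by rw [abs_prod]
      _ ≤ ∏ _i : Fin r, (8 * (Real.log B + ((∑ i, (f i).natDegree : ℕ) : ℝ) * Real.log x)) :=
          prod_le_prod (fun i _ => abs_nonneg _) fun i _ => h4 i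
      _ = (8 * (Real.log B + ((∑ i, (f i).natDegree : ℕ) : ℝ) * Real.log x)) ^ r := by rw [prod_const, card_fin]
      _ ≤ _ := hx₁ x (by omega)
  -- combine
  have hterm : ∀ n ∈ Icc 1 x, ∀ m ∈ Icc 1 x, ∏ i, y i n m ≤ (if m = n then (ε / 4) * x else 0) +
      (1 / (2 * lam)) * y j n m ^ 2 + (lam / 2) * ∑ i, (if m = n then 0 else y' i n m ^ (2 * r)) := by
    intro n hn m hm
    by_cases h : m = n
    · subst h
      rw [if_pos rfl]
      simp only [if_true, sum_const_zero, mul_zero, add_zero]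
      have h5 := hdiag m hm
      have h6 : 0 ≤ (1 / (2 * lam)) * y j m m ^ 2 := by positivity
      linarith
    · rw [if_neg h, zero_add]
      simp only [if_neg h]
      rw [hprod]
      have h5 : (∏ i, y' i n m) ^ 2 ≤ ∑ i, y' i n m ^ (2 * r) := by
        rw [← prod_pow]
        have h6 := prod_le_sum_pow hr (fun i => y' i n m ^ 2) (fun i => sq_nonneg _)
        refine h6.trans (le_of_eq ?_)
        apply sum_congr rfl; intro i _
        rw [← pow_mul]
      have h6 : y j n m * ∏ i, y' i n m ≤ (1 / (2 * lam)) * y j n m ^ 2 + (lam / 2) * (∏ i, y' i n m) ^ 2 := by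
        set a := y j n m
        set b := ∏ i, y' i n m
        have h7 : (1 / (2 * lam)) * a ^ 2 + (lam / 2) * b ^ 2 - a * b = (1 / (2 * lam)) * (a - lam * b) ^ 2 := by
          field_simp; ring
        have h8 : 0 ≤ (1 / (2 * lam)) * (a - lam * b) ^ 2 := by positivity
        linarith
      have h7 := mul_le_mul_of_nonneg_left h5 (show 0 ≤ lam / 2 by positivity)
      linarith
  calc ∑ n ∈ Icc 1 x, ∑ m ∈ Icc 1 x, ∏ i, y i n m ≤ ∑ n ∈ Icc 1 x, ∑ m ∈ Icc 1 x, ((if m = n then (ε / 4) * x else 0) +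
      (1 / (2 * lam)) * y j n m ^ 2 + (lam / 2) * ∑ i, (if m = n then 0 else y' i n m ^ (2 * r))) :=
        sum_le_sum fun n hn => sum_le_sum fun m hm => hterm n hn m hm
    _ = (ε / 4) * (x : ℝ) ^ 2 + (1 / (2 * lam)) * (∑ n ∈ Icc 1 x, ∑ m ∈ Icc 1 x, y j n m ^ 2) +
        (lam / 2) * ∑ i, ∑ n ∈ Icc 1 x, ∑ m ∈ Icc 1 x, (if m = n then 0 else y' i n m ^ (2 * r)) := by
        simp_rw [sum_add_distrib, ← mul_sum]
        congr 1
        · congr 1
          have : ∀ n ∈ Icc 1 x, ∑ m ∈ Icc 1 x, (if m = n then (ε / 4) * (x : ℝ) else 0) = (ε / 4) * x := by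
            intro n hn
            rw [sum_ite_eq' (Icc 1 x) n, if_pos hn]
          rw [sum_congr rfl this, sum_const, Nat.card_Icc, Nat.add_sub_cancel, nsmul_eq_mul]; ring
        · congr 1
          rw [sum_comm (s := univ)]
          apply sum_congr rfl; intro n _
          rw [sum_comm]
    _ ≤ (ε / 4) * (x : ℝ) ^ 2 + (1 / (2 * lam)) * ((lam * ε / 2) * (x : ℝ) ^ 2) +
        (lam / 2) * ∑ i, (Ca i + Cb i + 1) * (x : ℝ) ^ 2 := by
        apply add_le_add
        · apply add_le_add le_rfl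
          exact mul_le_mul_of_nonneg_left hsmall (by positivity)
        · exact mul_le_mul_of_nonneg_left (sum_le_sum fun i _ => hmom i) (by positivity)
    _ = (ε / 4) * (x : ℝ) ^ 2 + (ε / 4) * (x : ℝ) ^ 2 + (ε / 2) * (x : ℝ) ^ 2 := by
        rw [← sum_mul, ← hCt, hlam]; field_simp; ring
    _ = _ := by ring

end Pool.Agent.H373R2.NB
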