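import Mathlib
import Pool.Agent.H373R2.NB.Tele

namespace Pool.Agent.H373R2.NB
open Finset Polynomial
open Pool.Agent.Helper602.MK

variable {r : ℕ}

lemma prod_split (a b E : Fin r → ℝ) (j : Fin r) :
    ∏ i, (if i < j then b i else if i = j then E i else a i) =
      E j * (∏ i ∈ univ with i < j, b i) * ∏ i ∈ univ with j < i, a i := by
  rw [prod_ite]
  have h1 : (univ.filter (fun i : Fin r => ¬ i < j)) = insert j (univ.filter (fun i => j < i)) := by
    ext i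
    simp only [mem_filter, mem_univ, true_and, mem_insert, not_lt]
    exact le_iff_eq_or_lt.trans (by rw [eq_comm])
  have h2 : j ∉ univ.filter (fun i : Fin r => j < i) := by simp
  rw [h1, prod_insert h2, if_pos rfl]
  have h3 : ∏ i ∈ univ.filter (fun i : Fin r => j < i), (if i = j then E i else a i) =
      ∏ i ∈ univ.filter (fun i : Fin r => j < i), a i := by
    apply prod_congr rfl; intro i hi
    rw [mem_filter] at hi
    rw [if_neg hi.2.ne']
  rw [h3]; ring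

lemma prod_tele (a b : Fin r → ℝ) :
    ∏ i, a i - ∏ i, b i = ∑ j, ∏ i, (if i < j then b i else if i = j then a i - b i else a i) := by
  have h1 := prod_sub_ordered univ a (fun i => a i - b i)
  simp only [sub_sub_cancel] at h1
  rw [h1, sub_sub_cancel]
  apply sum_congr rfl; intro j _
  rw [prod_split]

/-- the primes and the averaged primes have the same correlations for almost all shifts -/
theorem tele (hr : 1 ≤ r) (f : Fin r → ℕ[X]) (hf : ∀ i, 1 ≤ (f i).natDegree) (B : ℕ) (hB : 1 ≤ B) (ε : ℝ) (hε : 0 < ε) :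
    ∃ W₀ : ℕ, 1 ≤ W₀ ∧ ∃ τ₀ : ℝ, 0 < τ₀ ∧ ∃ x₀ : ℕ, ∀ x : ℕ, x₀ ≤ x → ∀ K M : Fin r → ℕ, [∀ i, NeZero (M i)] →
    (∀ i, 2 ≤ K i ∧ (f i).eval x ≤ K i ∧ K i ≤ B * x ^ (f i).natDegree ∧ 4 * K i ≤ M i ∧ M i ≤ 100 * K i) →
    ∀ W : ℕ, W₀ ∣ W → ∀ J : Fin r → ℕ, (∀ i, 1 ≤ J i ∧ J i * W ≤ K i ∧ ((J i * W : ℕ) : ℝ) ≤ τ₀ * K i) →
      ∑ h : (∀ i, ZMod (M i)), (∑ n ∈ Icc 1 x, ∏ i, aZ (K i) (M i) ((((f i).eval n : ℕ) : ZMod (M i)) + h i) -
        ∑ n ∈ Icc 1 x, ∏ i, bZ (K i) (M i) W (J i) ((((f i).eval n : ℕ) : ZMod (M i)) + h i)) ^ 2 ≤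
        ε * (x : ℝ) ^ 2 * ∏ i, ((K i : ℝ) / (Real.log (K i)) ^ 2) := by
  have hr0 : (0 : ℝ) < r := by exact_mod_cast hr
  obtain ⟨W₀, hW₀, τ₀, hτ₀, x₀, h⟩ := tele_one hr f hf B hB (ε / r ^ 2) (by positivity)
  refine ⟨W₀, hW₀, τ₀, hτ₀, x₀, ?_⟩
  intro x hx K M hM hK W hW J hJ
  set N : ℝ := ∏ i, ((K i : ℝ) / (Real.log (K i)) ^ 2) with hN
  set T : Fin r → (∀ i, ZMod (M i)) → ℝ := fun j h => ∑ n ∈ Icc 1 x, ∏ i, (if i < j then bZ (K i) (M i) W (J i) else
        if i = j then EZ (K i) (M i) W (J i) else aZ (K i) (M i)) ((((f i).eval n : ℕ) : ZMod (M i)) + h i) with hT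
  have h1 : ∀ h : (∀ i, ZMod (M i)), ∑ n ∈ Icc 1 x, ∏ i, aZ (K i) (M i) ((((f i).eval n : ℕ) : ZMod (M i)) + h i) -
        ∑ n ∈ Icc 1 x, ∏ i, bZ (K i) (M i) W (J i) ((((f i).eval n : ℕ) : ZMod (M i)) + h i) = ∑ j, T j h := by
    intro h
    rw [← sum_sub_distrib]
    simp only [hT]
    rw [sum_comm]
    apply sum_congr rfl; intro n _
    rw [prod_tele]
    apply sum_congr rfl; intro j _
    apply prod_congr rfl; intro i _
    by_cases h2 : i < j
    · rw [if_pos h2, if_pos h2]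
    · rw [if_neg h2, if_neg h2]
      by_cases h3 : i = j
      · rw [if_pos h3, if_pos h3]; rfl
      · rw [if_neg h3, if_neg h3]
  calc _ = ∑ h : (∀ i, ZMod (M i)), (∑ j, T j h) ^ 2 := by
        apply sum_congr rfl; intro h _
        rw [h1]
    _ ≤ ∑ h : (∀ i, ZMod (M i)), (r : ℝ) * ∑ j, T j h ^ 2 := by
        apply sum_le_sum; intro h _
        have h2 := sq_sum_le_card_mul_sum_sq (s := (univ : Finset (Fin r))) (f := fun j => T j h)
        rw [card_univ, Fintype.card_fin] at h2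
        exact h2
    _ = r * ∑ j, ∑ h : (∀ i, ZMod (M i)), T j h ^ 2 := by rw [← mul_sum, sum_comm]
    _ ≤ r * ∑ _j : Fin r, (ε / r ^ 2) * (x : ℝ) ^ 2 * N := by
        apply mul_le_mul_of_nonneg_left _ hr0.le
        apply sum_le_sum; intro j _
        exact h x hx K M hK W hW J hJ j
    _ = _ := by
        rw [sum_const, card_univ, Fintype.card_fin, nsmul_eq_mul]; field_simp

end Pool.Agent.H373R2.NB
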