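import Mathlib
import Pool.Agent.H373R2.NB.Tele2
import Pool.Agent.H373R2.NB.ModelCount
import Pool.Agent.H373R2.NB.TailTwo
import Pool.Agent.H373R2.SH.Second

namespace Pool.Agent.H373R2.NB
open Finset Polynomial
open Pool.Agent.Helper602.MK
open Pool.Agent.H373R2.SH

variable {r : ℕ}

lemma eval_le_one (f : ℕ[X]) (x : ℕ) (hx : 1 ≤ x) : f.eval x ≤ f.eval 1 * x ^ f.natDegree := by
  rw [eval_eq_sum_range, eval_eq_sum_range, sum_mul]
  apply sum_le_sum
  intro i hi
  rw [mem_range] at hi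
  rw [one_pow, mul_one]
  exact Nat.mul_le_mul_left _ (Nat.pow_le_pow_right hx (by omega))

lemma eval_mono_nat (f : ℕ[X]) {m n : ℕ} (h : m ≤ n) : f.eval m ≤ f.eval n := by
  rw [eval_eq_sum_range, eval_eq_sum_range]
  apply sum_le_sum
  intro i _
  exact Nat.mul_le_mul_left _ (Nat.pow_le_pow_left h _)

/-- the model of the primes counts the prime values -/
lemma cnt_eq (f : Fin r → ℕ[X]) (K M h : Fin r → ℕ) (x : ℕ) (hM : ∀ i, K i < M i)
    (hK : ∀ i, ∀ n ∈ Icc 1 x, h i + (f i).eval n ≤ K i) (hh : ∀ i, K i < h i ^ 2) :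
    ∑ n ∈ Icc 1 x, ∏ i, aZ (K i) (M i) ((((f i).eval n : ℕ) : ZMod (M i)) + ((h i : ℕ) : ZMod (M i))) =
      cntS (fun i n => (f i).eval n) h x := by
  rw [cntS_eq]
  apply sum_congr rfl
  intro n hn
  apply prod_congr rfl
  intro i _
  have e : (((f i).eval n : ℕ) : ZMod (M i)) + ((h i : ℕ) : ZMod (M i)) = ((h i + (f i).eval n : ℕ) : ZMod (M i)) := by
    push_cast; ring
  rw [e]
  unfold aZ
  have h1 := hK i n hn
  rw [ZMod.val_natCast_of_lt (lt_of_le_of_lt h1 (hM i))]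
  have h2 : h i + (f i).eval n ∈ PP (K i) ↔ (h i + (f i).eval n).Prime := by
    unfold PP
    rw [mem_filter, mem_Icc]
    constructor
    · exact fun h => h.2.1
    · intro hp
      refine ⟨⟨hp.one_lt.le, h1⟩, hp, lt_of_lt_of_le (hh i) ?_⟩
      exact Nat.pow_le_pow_left (by omega) 2
  by_cases h3 : (h i + (f i).eval n).Prime
  · rw [if_pos h3, if_pos (h2.2 h3)]
  · rw [if_neg h3, if_neg (fun h => h3 (h2.1 h))]

lemma sum_cast_le (H M : Fin r → ℕ) [∀ i, NeZero (M i)] (hHM : ∀ i, H i < M i) (G : (∀ i, ZMod (M i)) → ℝ) (hG : ∀ h, 0 ≤ G h) :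
    ∑ h ∈ Sx H, G (fun i => ((h i : ℕ) : ZMod (M i))) ≤ ∑ h : (∀ i, ZMod (M i)), G h := by
  classical
  have hinj : Set.InjOn (fun (h : Fin r → ℕ) => (fun i => ((h i : ℕ) : ZMod (M i)))) (Sx H : Set (Fin r → ℕ)) := by
    intro a ha b hb hab
    rw [mem_coe, mem_Sx] at ha hb
    funext i
    have h1 : ((a i : ℕ) : ZMod (M i)) = ((b i : ℕ) : ZMod (M i)) := congrFun hab i
    have h2 := congrArg ZMod.val h1
    rw [ZMod.val_natCast_of_lt (lt_of_le_of_lt (ha i).2 (hHM i)), ZMod.val_natCast_of_lt (lt_of_le_of_lt (hb i).2 (hHM i))] at h2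
    exact h2
  rw [← sum_image (f := G) hinj]
  exact sum_le_sum_of_subset_of_nonneg (subset_univ _) fun h _ _ => hG h

lemma one_add_pow_close (r : ℕ) (ε : ℝ) (hε : 0 < ε) :
    ∃ ε₁ : ℝ, 0 < ε₁ ∧ ε₁ ≤ 1 ∧ (1 + ε₁) ^ r ≤ 1 + ε ∧ 1 - ε ≤ (1 - ε₁) ^ r := by
  have hrr : (0 : ℝ) ≤ r := Nat.cast_nonneg r
  have hmin0 : 0 < min 1 ε := by positivity
  refine ⟨min 1 ε / (2 ^ r * (r + 1)), by positivity, ?_, ?_, ?_⟩
  · rw [div_le_one (by positivity)]
    have h1 : min 1 ε ≤ 1 := min_le_left _ _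
    have h2 : (1 : ℝ) ≤ 2 ^ r := one_le_pow₀ (by norm_num)
    nlinarith
  · have h2 : (1 : ℝ) ≤ 2 ^ r := one_le_pow₀ (by norm_num)
    have h1 := pow_one_add_le (min 1 ε / (2 ^ r * (r + 1))) (by positivity) (by
      rw [div_le_one (by positivity)]
      have h1 : min 1 ε ≤ 1 := min_le_left _ _
      nlinarith) r
    refine h1.trans ?_
    have h3 : (2 : ℝ) ^ r * (min 1 ε / (2 ^ r * (r + 1))) = min 1 ε / (r + 1) := by field_simp
    rw [h3]
    have h4 : min 1 ε / ((r : ℝ) + 1) ≤ min 1 ε := div_le_self hmin0.le (by linarith)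
    have h5 : min 1 ε ≤ ε := min_le_right _ _
    linarith
  · have h2 : (1 : ℝ) ≤ 2 ^ r := one_le_pow₀ (by norm_num)
    have h0 : min 1 ε / (2 ^ r * ((r : ℝ) + 1)) ≤ 1 := by
      rw [div_le_one (by positivity)]
      have h1 : min 1 ε ≤ 1 := min_le_left _ _
      nlinarith
    have h1 := one_add_mul_le_pow (show -2 ≤ -(min 1 ε / (2 ^ r * ((r : ℝ) + 1))) by linarith) r
    have e1 : 1 + -(min 1 ε / (2 ^ r * ((r : ℝ) + 1))) = 1 - min 1 ε / (2 ^ r * ((r : ℝ) + 1)) := by ring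
    rw [e1] at h1
    refine le_trans ?_ h1
    have h3 : (r : ℝ) * (min 1 ε / (2 ^ r * (r + 1))) ≤ ε := by
      have h5 : min 1 ε ≤ ε := min_le_right _ _
      rw [mul_div_assoc', div_le_iff₀ (by positivity)]
      have h6 : (r : ℝ) * min 1 ε ≤ r * ε := mul_le_mul_of_nonneg_left h5 hrr
      have h7 : (r : ℝ) * ε ≤ (r + 1) * ε := by nlinarith
      have h8 : ((r : ℝ) + 1) * ε ≤ ε * (2 ^ r * (r + 1)) := by
        have : 0 ≤ (2 ^ r - 1) * (ε * ((r : ℝ) + 1)) := mul_nonneg (by linarith) (by positivity)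
        nlinarith
      linarith
    have e2 : (r : ℝ) * -(min 1 ε / (2 ^ r * (r + 1))) = -(r * (min 1 ε / (2 ^ r * (r + 1)))) := by ring
    rw [e2]
    linarith

/-- the product of the logarithms -/
lemma prod_log_close (d : Fin r → ℕ) (hd : ∀ i, 1 ≤ d i) (B : ℕ) (hB : 1 ≤ B) (ε : ℝ) (hε : 0 < ε) :
    ∃ x₀ : ℕ, 2 ≤ x₀ ∧ ∀ x : ℕ, x₀ ≤ x → ∀ K : Fin r → ℕ, (∀ i, x ^ d i ≤ B * K i ∧ K i ≤ B * x ^ d i) →
      (1 - ε) * ∏ i, (d i * Real.log x) ≤ ∏ i, Real.log (K i) ∧ ∏ i, Real.log (K i) ≤ (1 + ε) * ∏ i, (d i * Real.log x) := by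
  obtain ⟨ε₁, hε₁, hε₁1, hup, hdown⟩ := one_add_pow_close r ε hε
  have hlogB : 0 ≤ Real.log B := Real.log_nonneg (by exact_mod_cast hB)
  have hB0 : (0 : ℝ) < B := by exact_mod_cast hB
  have htend := Real.tendsto_log_atTop.comp (tendsto_natCast_atTop_atTop (R := ℝ))
  obtain ⟨x₁, hx₁⟩ := Filter.eventually_atTop.1 (htend.eventually_ge_atTop (Real.log B / ε₁ + 1))
  refine ⟨x₁ + 2, by omega, ?_⟩
  intro x hx K hK
  have hlx := hx₁ x (by omega)
  simp only [Function.comp_apply] at hlx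
  have hx0 : (0 : ℝ) < x := by exact_mod_cast (by omega : 0 < x)
  have h0 : 0 ≤ Real.log B / ε₁ := by positivity
  have hlogx : 0 < Real.log x := by linarith
  have hlB : Real.log B ≤ ε₁ * Real.log x := by
    have : Real.log B / ε₁ ≤ Real.log x := by linarith
    rw [div_le_iff₀ hε₁] at this
    linarith
  have hper : ∀ i, (1 - ε₁) * (d i * Real.log x) ≤ Real.log (K i) ∧ Real.log (K i) ≤ (1 + ε₁) * (d i * Real.log x) := by
    intro i
    obtain ⟨h1, h2⟩ := hK i
    have hd1 : (1 : ℝ) ≤ d i := by exact_mod_cast hd i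
    have hxd : 0 < x ^ d i := Nat.pow_pos (by omega)
    have hKpos : 0 < K i := by
      rcases Nat.eq_zero_or_pos (K i) with h | h
      · rw [h, mul_zero] at h1; omega
      · exact h
    have hK0 : (0 : ℝ) < K i := by exact_mod_cast hKpos
    have h3 : ((x : ℝ) ^ d i) ≤ B * K i := by exact_mod_cast h1
    have h4 : (K i : ℝ) ≤ B * (x : ℝ) ^ d i := by exact_mod_cast h2
    have h5 := Real.log_le_log (by positivity) h3
    have h6 := Real.log_le_log hK0 h4
    rw [Real.log_pow, Real.log_mul hB0.ne' hK0.ne'] at h5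
    rw [Real.log_mul hB0.ne' (by positivity), Real.log_pow] at h6
    have h7 : ε₁ * Real.log x ≤ ε₁ * (d i * Real.log x) := by
      apply mul_le_mul_of_nonneg_left _ hε₁.le
      nlinarith
    constructor <;> linarith
  have e1 : ∀ c : ℝ, ∏ i : Fin r, (c * (d i * Real.log x)) = c ^ r * ∏ i, (d i * Real.log x) := by
    intro c
    rw [prod_mul_distrib, prod_const, card_fin]
  have hL0 : 0 ≤ ∏ i, (d i * Real.log x) := prod_nonneg fun i _ => by positivity
  constructor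
  · calc (1 - ε) * ∏ i, (d i * Real.log x) ≤ (1 - ε₁) ^ r * ∏ i, (d i * Real.log x) := mul_le_mul_of_nonneg_right hdown hL0
      _ = ∏ i : Fin r, ((1 - ε₁) * (d i * Real.log x)) := (e1 _).symm
      _ ≤ _ := prod_le_prod (fun i _ => mul_nonneg (by linarith) (by positivity)) fun i _ => (hper i).1
  · calc ∏ i, Real.log (K i) ≤ ∏ i : Fin r, ((1 + ε₁) * (d i * Real.log x)) := by
          apply prod_le_prod
          · intro i _
            exact le_trans (mul_nonneg (by linarith) (by positivity)) (hper i).1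
          · intro i _; exact (hper i).2
      _ = (1 + ε₁) ^ r * ∏ i, (d i * Real.log x) := e1 _
      _ ≤ _ := mul_le_mul_of_nonneg_right hup hL0

/-- few tuples have a small entry -/
lemma small_Sx (H : Fin r → ℕ) (i : Fin r) (t : ℝ) (ht : 0 ≤ t) (T : Finset (Fin r → ℕ)) (hT : T ⊆ Sx H)
    (hT2 : ∀ h ∈ T, (h i : ℝ) < t) : (#T : ℝ) * H i ≤ t * #(Sx H) := by
  classical
  have h : #(T ×ˢ Icc 1 (H i)) ≤ #(Sx H ×ˢ Icc 1 ⌊t⌋₊) := by
    apply card_le_card_of_injOn (fun q => (Function.update q.1 i q.2, q.1 i))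
    · intro q hq
      rw [mem_coe, mem_product, mem_Icc] at hq
      obtain ⟨h1, h3⟩ := hq
      have h1' := mem_Sx.1 (hT h1)
      rw [mem_coe, mem_product, mem_Sx, mem_Icc]
      refine ⟨fun l => ?_, (h1' i).1, ?_⟩
      · change 1 ≤ Function.update q.1 i q.2 l ∧ Function.update q.1 i q.2 l ≤ H l
        by_cases hl : l = i
        · subst hl
          rw [Function.update_self]
          exact h3
        · rw [Function.update_of_ne hl]; exact h1' _
      · apply Nat.le_floor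
        exact (hT2 _ h1).le
    · intro q hq q' hq' heq
      simp only [Prod.mk.injEq] at heq
      obtain ⟨he1, he2⟩ := heq
      have e1 := congrFun he1 i
      rw [Function.update_self, Function.update_self] at e1
      have e5 : q.1 = q'.1 := by
        funext l
        by_cases hl : l = i
        · rw [hl]; exact he2
        · have := congrFun he1 l
          rwa [Function.update_of_ne hl, Function.update_of_ne hl] at this
      exact Prod.ext e5 e1
  rw [card_product, card_product, Nat.card_Icc, Nat.card_Icc, Nat.add_sub_cancel, Nat.add_sub_cancel] at h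
  have h2 : (#T : ℝ) * H i ≤ #(Sx H) * (⌊t⌋₊ : ℕ) := by exact_mod_cast h
  refine h2.trans ?_
  rw [mul_comm]
  exact mul_le_mul_of_nonneg_right (Nat.floor_le ht) (Nat.cast_nonneg _)

lemma exp_bounds (κ : ℝ) (h0 : 0 ≤ κ) (h1 : κ ≤ 1 / 2) : Real.exp κ ≤ 1 + 2 * κ ∧ 1 - κ ≤ Real.exp (-κ) := by
  have h2 := Real.add_one_le_exp (-κ)
  refine ⟨?_, by linarith⟩
  have h3 : Real.exp κ * Real.exp (-κ) = 1 := by rw [← Real.exp_add, add_neg_cancel, Real.exp_zero]
  have h4 : Real.exp κ * (1 - κ) ≤ 1 := by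
    rw [← h3]
    apply mul_le_mul_of_nonneg_left _ (Real.exp_pos _).le
    linarith
  have h5 : Real.exp κ ≤ 1 / (1 - κ) := by
    rw [le_div_iff₀ (by linarith)]
    exact h4
  refine h5.trans ?_
  rw [div_le_iff₀ (by linarith)]
  nlinarith

end Pool.Agent.H373R2.NB
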