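import Mathlib
import Pool.Agent.H373R2.NB.CoreAux

namespace Pool.Agent.H373R2.NB
open Finset Polynomial
open Pool.Agent.Helper602.MK
open Pool.Agent.H373R2.SH

variable {r : ℕ}

lemma combine (ε A L L' x σ σz : ℝ) (hε : 0 < ε) (hε1 : ε ≤ 1) (hA : 0 ≤ A) (hL' : 0 < L') (hx : 0 < x)
    (h1 : |A * L - σ * x| ≤ (3 * ε / 32) * (σ * x)) (hL1 : (1 - ε / 32) * L' ≤ L) (hL2 : L ≤ (1 + ε / 32) * L')
    (hz1 : σ * (1 - ε / 32) ≤ σz) (hz2 : σz ≤ σ * (1 + ε / 16)) : |A - σz * (x / L')| ≤ ε * (σz * (x / L')) := by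
  set q := x / L' with hq
  have hq0 : 0 < q := by positivity
  have hxq : x = q * L' := by rw [hq]; field_simp
  rw [hxq] at h1
  obtain ⟨h2, h3⟩ := abs_le.1 h1
  have hup : A * (1 - ε / 32) ≤ (1 + 3 * ε / 32) * (σ * q) := by
    have h4 : A * ((1 - ε / 32) * L') ≤ A * L := mul_le_mul_of_nonneg_left hL1 hA
    have h5 : (A * (1 - ε / 32)) * L' ≤ ((1 + 3 * ε / 32) * (σ * q)) * L' := by nlinarith
    exact le_of_mul_le_mul_right h5 hL'
  have hdn : (1 - 3 * ε / 32) * (σ * q) ≤ A * (1 + ε / 32) := by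
    have h4 : A * L ≤ A * ((1 + ε / 32) * L') := mul_le_mul_of_nonneg_left hL2 hA
    have h5 : ((1 - 3 * ε / 32) * (σ * q)) * L' ≤ (A * (1 + ε / 32)) * L' := by nlinarith
    exact le_of_mul_le_mul_right h5 hL'
  have hσz0 : 0 ≤ σz * q := by
    by_contra hcon
    push Not at hcon
    have hσz : σz < 0 := by
      by_contra h; push Not at h; nlinarith [mul_nonneg h hq0.le]
    have h4 : σ < 0 := by
      by_contra h; push Not at h
      nlinarith [mul_nonneg h (show 0 ≤ 1 - ε / 32 by linarith)]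
    have h5 : 0 ≤ (1 + 3 * ε / 32) * (σ * q) := le_trans (mul_nonneg hA (by linarith)) hup
    have h6 : σ * q < 0 := mul_neg_of_neg_of_pos h4 hq0
    nlinarith
  have e1 : (σ * q) * (1 - ε / 32) ≤ σz * q := by nlinarith
  have e2 : σz * q ≤ (σ * q) * (1 + ε / 16) := by nlinarith
  set S := σ * q with hS
  set Z := σz * q with hZ
  have hS0 : 0 ≤ S := by
    by_contra h; push Not at h
    nlinarith
  rw [abs_le]
  constructor
  · have h4 : (1 - ε) * Z ≤ A := by
      have h5 : (1 - ε) * Z ≤ (1 - ε) * (S * (1 + ε / 16)) := mul_le_mul_of_nonneg_left e2 (by linarith)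
      have h6 : (1 - ε) * (1 + ε / 16) * (1 + ε / 32) ≤ 1 - 3 * ε / 32 := by nlinarith [mul_pos hε hε, mul_pos hε (mul_pos hε hε)]
      have h7 : ((1 - ε) * (S * (1 + ε / 16))) * (1 + ε / 32) ≤ A * (1 + ε / 32) := by
        have h8 := mul_le_mul_of_nonneg_left h6 hS0
        calc _ = S * ((1 - ε) * (1 + ε / 16) * (1 + ε / 32)) := by ring
          _ ≤ S * (1 - 3 * ε / 32) := h8
          _ = (1 - 3 * ε / 32) * S := by ring
          _ ≤ _ := hdn
      exact h5.trans (le_of_mul_le_mul_right h7 (by linarith))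
    linarith
  · have h4 : A ≤ (1 + ε) * Z := by
      have h6 : (1 + 3 * ε / 32) ≤ (1 + ε) * (1 - ε / 32) * (1 - ε / 32) := by nlinarith [mul_pos hε hε, mul_pos hε (mul_pos hε hε)]
      have h7 : A * ((1 - ε / 32) * (1 - ε / 32)) ≤ ((1 + ε) * Z) * ((1 - ε / 32) * (1 - ε / 32)) := by
        calc A * ((1 - ε / 32) * (1 - ε / 32)) = (A * (1 - ε / 32)) * (1 - ε / 32) := by ring
          _ ≤ ((1 + 3 * ε / 32) * S) * (1 - ε / 32) := mul_le_mul_of_nonneg_right hup (by linarith)
          _ = (1 + 3 * ε / 32) * (S * (1 - ε / 32)) := by ring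
          _ ≤ (1 + 3 * ε / 32) * Z := mul_le_mul_of_nonneg_left e1 (by linarith)
          _ ≤ ((1 + ε) * (1 - ε / 32) * (1 - ε / 32)) * Z := mul_le_mul_of_nonneg_right h6 hσz0
          _ = _ := by ring
      exact le_of_mul_le_mul_right h7 (by nlinarith)
    linarith

lemma le_eval_self (f : ℕ[X]) (hf : 1 ≤ f.natDegree) (x : ℕ) : x ≤ f.eval x := by
  rw [eval_eq_sum_range]
  have h1 : f.coeff f.natDegree * x ^ f.natDegree ≤ ∑ i ∈ range (f.natDegree + 1), f.coeff i * x ^ i :=
    single_le_sum (f := fun i => f.coeff i * x ^ i) (fun _ _ => Nat.zero_le _) (mem_range.2 (Nat.lt_succ_self _))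
  refine le_trans ?_ h1
  have h2 : f.coeff f.natDegree ≠ 0 := by
    intro h
    have h3 : f = 0 := leadingCoeff_eq_zero.1 h
    rw [h3, natDegree_zero] at hf
    omega
  calc x ≤ x ^ f.natDegree := Nat.le_self_pow (by omega) x
    _ = 1 * x ^ f.natDegree := (one_mul _).symm
    _ ≤ _ := Nat.mul_le_mul_right _ (by omega)

/-- the main theorem for natural polynomials -/
theorem core_two (hr : 1 ≤ r) (f : Fin r → ℕ[X]) (hf : ∀ i, 1 ≤ (f i).natDegree) (B : ℕ) (hB : 1 ≤ B) (ε : ℝ) (hε : 0 < ε)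
    (hε1 : ε ≤ 1) :
    ∃ c : ℝ, 0 < c ∧ ∃ y₀ x₀ : ℕ, ∀ x : ℕ, x₀ ≤ x → ∀ H : Fin r → ℕ,
      (∀ i, x ^ (f i).natDegree ≤ B * H i ∧ H i ≤ B * x ^ (f i).natDegree) → ∀ z : ℕ, y₀ ≤ z → (∀ i, z ^ 5 ≤ H i) →
      ∃ T : Finset (Fin r → ℕ), T ⊆ Sx H ∧ (#T : ℝ) ≤ ε * #(Sx H) ∧ ∀ h ∈ Sx H, h ∉ T →
        (∀ i, c * x ≤ h i) ∧
        ((∃ p : ℕ, p.Prime ∧ p ≤ y₀ ∧ omS (fun i n => (f i).eval n) h p = p) ∨
          (c ≤ sgS (fun i n => (f i).eval n) h z ∧
            |(cntS (fun i n => (f i).eval n) h x : ℝ) -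
              sgS (fun i n => (f i).eval n) h z * (x / ∏ i, ((f i).natDegree * Real.log x))| ≤
              ε * (sgS (fun i n => (f i).eval n) h z * (x / ∏ i, ((f i).natDegree * Real.log x))))) := by
  classical
  set F : Fin r → ℕ → ℕ := fun i n => (f i).eval n with hF
  have hNe : Nonempty (Fin r) := ⟨⟨0, hr⟩⟩
  have hrr : (1 : ℝ) ≤ r := by exact_mod_cast hr
  -- number of roots
  have hroots := fun i => roots_le (f i) (hf i)
  choose D hD1 hDr using hroots
  set DD := ∑ i, D i with hDD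
  have hDD' : ∀ i, ∀ p : ℕ, p.Prime → ∀ c : ℕ, #{t ∈ range p | F i t ≡ c [MOD p]} ≤ DD := fun i p hp c =>
    (hDr i p hp c).trans (single_le_sum (f := D) (fun _ _ => Nat.zero_le _) (mem_univ i))
  -- size of K
  set B₁ := ∑ i, (f i).eval 1 with hB₁
  have hfx : ∀ i, ∀ x : ℕ, 1 ≤ x → (f i).eval x ≤ B₁ * x ^ (f i).natDegree := fun i x hx =>
    (eval_le_one (f i) x hx).trans (Nat.mul_le_mul_right _
      (single_le_sum (f := fun i => (f i).eval 1) (fun _ _ => Nat.zero_le _) (mem_univ i)))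
  set B' := B + B₁ with hB'
  have hB'1 : 1 ≤ B' := by omega
  have hB'r : (1 : ℝ) ≤ B' := by exact_mod_cast hB'1
  have hBr : (1 : ℝ) ≤ B := by exact_mod_cast hB
  -- tail
  set κ : ℝ := ε / 32 with hκ
  have hκ0 : 0 < κ := by positivity
  obtain ⟨hexp1, hexp2⟩ := exp_bounds κ hκ0.le (by rw [hκ]; linarith)
  obtain ⟨y₁, hy₁1, htail⟩ := tail_two r DD κ hκ0 (ε / 8) (by positivity)
  set P₁ : ℝ := ((∏ p ∈ (range (y₁ + 1)).filter Nat.Prime, p : ℕ) : ℝ) with hP₁
  have hP₁0 : 1 ≤ P₁ := by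
    rw [hP₁]
    have : 0 < ∏ p ∈ (range (y₁ + 1)).filter Nat.Prime, p := prod_pos fun p hp => (mem_filter.1 hp).2.pos
    exact_mod_cast this
  set c₂ : ℝ := P₁⁻¹ / 4 with hc₂
  have hc₂0 : 0 < c₂ := by positivity
  have hc₂1 : c₂ ≤ 1 := by
    rw [hc₂]
    have : P₁⁻¹ ≤ 1 := inv_le_one_of_one_le₀ hP₁0
    linarith
  set δ : ℝ := ε * c₂ / 32 with hδ
  have hδ0 : 0 < δ := by positivity
  set B₂ : ℝ := ((B' : ℝ) * B) ^ r with hB₂
  have hB₂0 : 0 < B₂ := by positivity
  set ε₄ : ℝ := δ ^ 2 * (ε / 8) / B₂ with hε₄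
  have hε₄0 : 0 < ε₄ := by positivity
  obtain ⟨W₀, hW₀1, τ₀, hτ₀, xt, htele⟩ := tele hr f hf B' hB'1 ε₄ hε₄0
  set y := max y₁ W₀ with hy
  have hyy₁ : y₁ ≤ y := le_max_left _ _
  have hyW : W₀ ≤ y := le_max_right _ _
  set W := y.factorial with hW
  have hW1 : 1 ≤ W := Nat.factorial_pos y
  have hWr : (1 : ℝ) ≤ W := by exact_mod_cast hW1
  have hWdvd : W₀ ∣ W := Nat.dvd_factorial (by omega) hyW
  set η : ℝ := ε / (8 * r * B * B') with hη
  have hη0 : 0 < η := by positivity
  have hη1 : η ≤ 1 := by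
    rw [hη, div_le_one (by positivity)]
    have h1 : (1 : ℝ) ≤ r * B * B' := by
      have : (1 : ℝ) ≤ r * B := by nlinarith
      nlinarith
    nlinarith
  set τ : ℝ := min τ₀ (η / 2) with hτ
  have hτ0 : 0 < τ := by positivity
  have hττ₀ : τ ≤ τ₀ := min_le_left _ _
  have hτη : 2 * τ ≤ η := by
    have := min_le_right τ₀ (η / 2)
    linarith
  obtain ⟨xm, hmodel⟩ := model_count hr f y τ η δ hτ0 hτη hη1 hδ0
  obtain ⟨xl, hxl2, hlog⟩ := prod_log_close (fun i => (f i).natDegree) hf B' hB'1 (ε / 32) (by positivity)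
  obtain ⟨x₅, hx₅⟩ := exists_nat_gt (B * (2 * W / τ + 1 / η ^ 2 + 2 + W / τ))
  set c : ℝ := min c₂ (η / B) with hc
  have hc0 : 0 < c := by positivity
  refine ⟨c, hc0, y, xt + xm + xl + x₅ + 2, ?_⟩
  intro x hx H hH z hz hz5
  have hx1 : 1 ≤ x := by omega
  have hxr : (1 : ℝ) ≤ x := by exact_mod_cast hx1
  have hx0 : (0 : ℝ) < x := by linarith
  set K : Fin r → ℕ := fun i => H i + (f i).eval x with hK
  set M : Fin r → ℕ := fun i => 4 * K i with hM
  have hxd : ∀ i, x ≤ x ^ (f i).natDegree := fun i => Nat.le_self_pow (by have := hf i; omega) x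
  have hxH : ∀ i, x ≤ B * H i := fun i => (hxd i).trans (hH i).1
  have hbig : B * (2 * W / τ + 1 / η ^ 2 + 2 + W / τ) < (x : ℝ) := hx₅.trans_le (by exact_mod_cast (by omega : x₅ ≤ x))
  have hHbig : ∀ i, 2 * W / τ + 1 / η ^ 2 + 2 + W / τ < (H i : ℝ) := by
    intro i
    have h1 : (x : ℝ) ≤ B * H i := by exact_mod_cast hxH i
    exact lt_of_mul_lt_mul_left (hbig.trans_le h1) (by linarith)
  have hHK : ∀ i, (H i : ℝ) ≤ K i := fun i => by exact_mod_cast Nat.le_add_right _ _
  have p1 : 0 ≤ 2 * W / τ := by positivity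
  have p2 : 0 ≤ 1 / η ^ 2 := by positivity
  have p3 : 0 ≤ W / τ := by positivity
  have hH2 : ∀ i, 2 ≤ H i := by
    intro i
    have h1 : (2 : ℝ) < H i := by linarith [hHbig i]
    exact_mod_cast h1.le
  have hK2 : ∀ i, 2 ≤ K i := fun i => (hH2 i).trans (Nat.le_add_right _ _)
  have hKup : ∀ i, K i ≤ B' * x ^ (f i).natDegree := by
    intro i
    have h1 := (hH i).2
    have h2 := hfx i x hx1
    rw [hB', add_mul]
    exact Nat.add_le_add h1 h2
  have hM0 : ∀ i, NeZero (M i) := fun i => ⟨by have := hK2 i; simp only [hM]; omega⟩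
  set J : Fin r → ℕ := fun i => ⌊τ * K i / W⌋₊ with hJ
  have hJup : ∀ i, ((J i * W : ℕ) : ℝ) ≤ τ * K i := by
    intro i
    have h1 : (J i : ℝ) ≤ τ * K i / W := Nat.floor_le (by positivity)
    rw [le_div_iff₀ (by linarith)] at h1
    push_cast
    exact h1
  have hJdn : ∀ i, τ / 2 * K i ≤ ((J i * W : ℕ) : ℝ) := by
    intro i
    have h1 : τ * K i / W < (J i : ℝ) + 1 := Nat.lt_floor_add_one _
    rw [div_lt_iff₀ (by linarith)] at h1
    push_cast
    have h2 : 2 * W / τ < (K i : ℝ) := by linarith [hHbig i, hHK i]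
    rw [div_lt_iff₀ hτ0] at h2
    nlinarith
  have hJ1 : ∀ i, 1 ≤ J i := by
    intro i
    apply Nat.le_floor
    rw [Nat.cast_one, le_div_iff₀ (by linarith), one_mul]
    have h2 : W / τ < (K i : ℝ) := by linarith [hHbig i, hHK i]
    rw [div_lt_iff₀ hτ0] at h2
    linarith
  have hτ1 : τ ≤ 1 := by linarith
  have hJK : ∀ i, J i * W ≤ K i := by
    intro i
    have h1 : ((J i * W : ℕ) : ℝ) ≤ K i := (hJup i).trans (by
      have : (0 : ℝ) ≤ K i := Nat.cast_nonneg _
      nlinarith)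
    exact_mod_cast h1
  -- size of z
  set Hm := max (z ^ 5) 2 with hHm
  have hHmH : ∀ i, Hm ≤ H i := fun i => max_le (hz5 i) (hH2 i)
  obtain ⟨T₁, hT₁s, hT₁c, hT₁⟩ := htail F hDD' H Hm y₁ z hHmH le_rfl (hyy₁.trans hz) (le_max_left _ _) (le_max_right _ _)
  obtain ⟨T₂, hT₂s, hT₂c, hT₂⟩ := htail F hDD' H Hm y z hHmH hyy₁ hz (le_max_left _ _) (le_max_right _ _)
  -- the comparison with the model
  set L : ℝ := ∏ i, Real.log (K i) with hL
  have hlK : ∀ i, 0 < Real.log (K i) := fun i => Real.log_pos (by exact_mod_cast (by have := hK2 i; omega : 1 < K i))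
  have hL0 : 0 < L := prod_pos fun i _ => hlK i
  set aa : (Fin r → ℕ) → ℝ := fun h => ∑ n ∈ Icc 1 x, ∏ i, aZ (K i) (M i) ((((f i).eval n : ℕ) : ZMod (M i)) + ((h i : ℕ) : ZMod (M i)))
    with haa
  set bb : (Fin r → ℕ) → ℝ := fun h => ∑ n ∈ Icc 1 x, ∏ i, bZ (K i) (M i) W (J i) ((((f i).eval n : ℕ) : ZMod (M i)) +
    ((h i : ℕ) : ZMod (M i))) with hbb
  have hHM : ∀ i, H i < M i := by
    intro i
    have h1 := hK2 i
    have h2 : H i ≤ K i := Nat.le_add_right _ _
    simp only [hM]; omega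
  have hsq : ∑ h ∈ Sx H, (aa h - bb h) ^ 2 ≤ ε₄ * (x : ℝ) ^ 2 * ∏ i, ((K i : ℝ) / (Real.log (K i)) ^ 2) := by
    have h1 := sum_cast_le H M hHM (fun h : (∀ i, ZMod (M i)) => (∑ n ∈ Icc 1 x, ∏ i, aZ (K i) (M i) ((((f i).eval n : ℕ) : ZMod (M i)) + h i) -
        ∑ n ∈ Icc 1 x, ∏ i, bZ (K i) (M i) W (J i) ((((f i).eval n : ℕ) : ZMod (M i)) + h i)) ^ 2) (fun h => sq_nonneg _)
    refine h1.trans ?_
    apply htele x (by omega) K M (fun i => ⟨hK2 i, Nat.le_add_left _ _, hKup i, le_rfl, ?_⟩) W hWdvd J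
      (fun i => ⟨hJ1 i, hJK i, (hJup i).trans (mul_le_mul_of_nonneg_right hττ₀ (Nat.cast_nonneg _))⟩)
    simp only [hM]; omega
  set T₃ := (Sx H).filter (fun h => δ * x < |aa h - bb h| * L) with hT₃
  have hT₃c : (#T₃ : ℝ) ≤ ε / 8 * #(Sx H) := by
    have h1 : (#T₃ : ℝ) * (δ * x) ^ 2 ≤ (∑ h ∈ Sx H, (aa h - bb h) ^ 2) * L ^ 2 := by
      calc (#T₃ : ℝ) * (δ * x) ^ 2 = ∑ _h ∈ T₃, (δ * x) ^ 2 := by rw [sum_const, nsmul_eq_mul]
        _ ≤ ∑ h ∈ T₃, (aa h - bb h) ^ 2 * L ^ 2 := by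
            apply sum_le_sum
            intro h hh
            rw [hT₃, mem_filter] at hh
            calc (δ * x) ^ 2 ≤ (|aa h - bb h| * L) ^ 2 := pow_le_pow_left₀ (by positivity) hh.2.le 2
              _ = _ := by rw [mul_pow, sq_abs]
        _ ≤ ∑ h ∈ Sx H, (aa h - bb h) ^ 2 * L ^ 2 :=
            sum_le_sum_of_subset_of_nonneg (filter_subset _ _) fun _ _ _ => by positivity
        _ = _ := by rw [sum_mul]
    have h2 : (∏ i, ((K i : ℝ) / (Real.log (K i)) ^ 2)) * L ^ 2 = ∏ i, (K i : ℝ) := by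
      rw [hL, ← prod_pow, ← prod_mul_distrib]
      apply prod_congr rfl; intro i _
      have := (hlK i).ne'
      field_simp
    have h3 : ∏ i, (K i : ℝ) ≤ B₂ * #(Sx H) := by
      rw [hB₂, pow_mul_card_Sx]
      apply prod_le_prod
      · intro i _; exact Nat.cast_nonneg _
      · intro i _
        have h4 : (K i : ℝ) ≤ B' * (x : ℝ) ^ (f i).natDegree := by exact_mod_cast hKup i
        have h5 : (x : ℝ) ^ (f i).natDegree ≤ B * H i := by exact_mod_cast (hH i).1
        calc (K i : ℝ) ≤ _ := h4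
          _ ≤ B' * (B * H i) := mul_le_mul_of_nonneg_left h5 (by linarith)
          _ = _ := by ring
    have h4 : (#T₃ : ℝ) * (δ * x) ^ 2 ≤ (ε / 8 * #(Sx H)) * (δ * x) ^ 2 := by
      calc _ ≤ _ := h1
        _ ≤ (ε₄ * (x : ℝ) ^ 2 * ∏ i, ((K i : ℝ) / (Real.log (K i)) ^ 2)) * L ^ 2 :=
            mul_le_mul_of_nonneg_right hsq (by positivity)
        _ = ε₄ * (x : ℝ) ^ 2 * ∏ i, (K i : ℝ) := by rw [mul_assoc, h2]
        _ ≤ ε₄ * (x : ℝ) ^ 2 * (B₂ * #(Sx H)) := mul_le_mul_of_nonneg_left h3 (by positivity)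
        _ = _ := by rw [hε₄]; field_simp
    exact le_of_mul_le_mul_right h4 (by positivity)
  -- small entries
  set T₄ : Finset (Fin r → ℕ) := (univ : Finset (Fin r)).biUnion (fun i => (Sx H).filter (fun h => (h i : ℝ) < η * K i)) with hT₄
  have hT₄c : (#T₄ : ℝ) ≤ ε / 8 * #(Sx H) := by
    have h1 : ∀ i, (#((Sx H).filter (fun h => (h i : ℝ) < η * K i)) : ℝ) ≤ ε / (8 * r) * #(Sx H) := by
      intro i
      have h2 := small_Sx H i (η * K i) (by positivity) ((Sx H).filter (fun h => (h i : ℝ) < η * K i)) (filter_subset _ _)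
        (fun h hh => (mem_filter.1 hh).2)
      have hHpos : (0 : ℝ) < H i := by exact_mod_cast (by have := hH2 i; omega : 0 < H i)
      have h4 : (K i : ℝ) ≤ B' * (x : ℝ) ^ (f i).natDegree := by exact_mod_cast hKup i
      have h5 : (x : ℝ) ^ (f i).natDegree ≤ B * H i := by exact_mod_cast (hH i).1
      have h6 : η * K i ≤ ε / (8 * r) * H i := by
        calc η * K i ≤ η * (B' * (B * H i)) := by
              apply mul_le_mul_of_nonneg_left _ hη0.le
              exact h4.trans (mul_le_mul_of_nonneg_left h5 (by linarith))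
          _ = _ := by rw [hη]; field_simp
      have h7 : (#((Sx H).filter (fun h => (h i : ℝ) < η * K i)) : ℝ) * H i ≤ (ε / (8 * r) * #(Sx H)) * H i := by
        calc _ ≤ _ := h2
          _ ≤ (ε / (8 * r) * H i) * #(Sx H) := mul_le_mul_of_nonneg_right h6 (Nat.cast_nonneg _)
          _ = _ := by ring
      exact le_of_mul_le_mul_right h7 hHpos
    calc (#T₄ : ℝ) ≤ ∑ i, (#((Sx H).filter (fun h => (h i : ℝ) < η * K i)) : ℝ) := by
          exact_mod_cast card_biUnion_le
      _ ≤ ∑ _i : Fin r, ε / (8 * r) * #(Sx H) := sum_le_sum fun i _ => h1 i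
      _ = _ := by rw [sum_const, card_fin, nsmul_eq_mul]; field_simp
  refine ⟨T₁ ∪ T₂ ∪ T₃ ∪ T₄, ?_, ?_, ?_⟩
  · apply union_subset
    · apply union_subset
      · exact union_subset hT₁s hT₂s
      · exact filter_subset _ _
    · intro h hh
      rw [hT₄, mem_biUnion] at hh
      obtain ⟨i, _, hi⟩ := hh
      exact (mem_filter.1 hi).1
  · have h1 : (#(T₁ ∪ T₂ ∪ T₃ ∪ T₄) : ℝ) ≤ #T₁ + #T₂ + #T₃ + #T₄ := by
      have a1 := card_union_le (T₁ ∪ T₂ ∪ T₃) T₄
      have a2 := card_union_le (T₁ ∪ T₂) T₃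
      have a3 := card_union_le T₁ T₂
      exact_mod_cast (by omega : #(T₁ ∪ T₂ ∪ T₃ ∪ T₄) ≤ #T₁ + #T₂ + #T₃ + #T₄)
    have hN0 : (0 : ℝ) ≤ ε * #(Sx H) := by positivity
    linarith
  · intro h hh hhT
    rw [mem_union, mem_union, mem_union] at hhT
    push Not at hhT
    obtain ⟨⟨⟨h1, h2⟩, h3⟩, h4⟩ := hhT
    have hhx := mem_Sx.1 hh
    have hhη : ∀ i, η * K i ≤ h i := by
      intro i
      by_contra hcon
      push Not at hcon
      apply h4
      rw [hT₄, mem_biUnion]
      exact ⟨i, mem_univ _, mem_filter.2 ⟨hh, hcon⟩⟩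
    have hclose : |aa h - bb h| * L ≤ δ * x := by
      by_contra hcon
      push Not at hcon
      exact h3 (by rw [hT₃, mem_filter]; exact ⟨hh, hcon⟩)
    obtain ⟨ha1, ha2⟩ := hT₁ h hh h1
    obtain ⟨hb1, hb2⟩ := hT₂ h hh h2
    refine ⟨?_, ?_⟩
    · intro i
      have e1 : (x : ℝ) ≤ B * H i := by exact_mod_cast hxH i
      calc c * x ≤ (η / B) * x := mul_le_mul_of_nonneg_right (min_le_right _ _) hx0.le
        _ ≤ (η / B) * (B * H i) := mul_le_mul_of_nonneg_left e1 (by positivity)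
        _ = η * H i := by field_simp
        _ ≤ η * K i := mul_le_mul_of_nonneg_left (hHK i) hη0.le
        _ ≤ _ := hhη i
    · by_cases hzero : sgS F h y₁ = 0
      · left
        obtain ⟨p, hp, hpy, hom⟩ := sgS_zero F h y₁ hzero
        exact ⟨p, hp, hpy.trans hyy₁, hom⟩
      · right
        have hlow := sgS_lower F h y₁ hzero
        rw [← hP₁] at hlow
        have hPinv : 0 < P₁⁻¹ := by positivity
        have hσ₁ := sgS_nonneg F h y₁
        have hσy := sgS_nonneg F h y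
        have hσz := sgS_nonneg F h z
        have hhalf : 1 / 2 ≤ Real.exp (-κ) := by
          rw [hκ] at hexp2 ⊢
          linarith
        have hz₀ : P₁⁻¹ / 2 ≤ sgS F h z := by
          refine le_trans ?_ ha1
          nlinarith
        have hy₀ : c₂ ≤ sgS F h y := by
          have e1 : Real.exp κ ≤ 2 := by
            have : κ ≤ 1 / 2 := by rw [hκ]; linarith
            linarith
          have e2 : sgS F h y * Real.exp κ ≤ sgS F h y * 2 := mul_le_mul_of_nonneg_left e1 hσy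
          rw [hc₂]
          linarith
        refine ⟨?_, ?_⟩
        · refine (min_le_left _ _).trans ?_
          rw [hc₂]; linarith
        · have hcnt : aa h = cntS F h x := by
            apply cnt_eq f K M h x
            · intro i; have := hK2 i; simp only [hM]; omega
            · intro i n hn
              rw [mem_Icc] at hn
              exact Nat.add_le_add (hhx i).2 (eval_mono_nat (f i) hn.2)
            · intro i
              have e1 : 1 / η ^ 2 < (K i : ℝ) := by linarith [hHbig i, hHK i]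
              rw [div_lt_iff₀ (by positivity)] at e1
              have hK0 : (0 : ℝ) < K i := by exact_mod_cast (by have := hK2 i; omega : 0 < K i)
              have e2 : (K i : ℝ) < (h i : ℝ) ^ 2 := by
                calc (K i : ℝ) = K i * 1 := by ring
                  _ < K i * (K i * η ^ 2) := mul_lt_mul_of_pos_left e1 hK0
                  _ = (η * K i) ^ 2 := by ring
                  _ ≤ _ := pow_le_pow_left₀ (by positivity) (hhη i) 2
              exact_mod_cast e2
          have hmod := hmodel x (by omega) K M J h (fun i => ⟨?_, ?_, hJdn i, hJup i, hhη i, ?_⟩)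
          · have hbL : bb h * L = (∑ n ∈ Icc 1 x, ∏ i, bZ (K i) (M i) y.factorial (J i) ((((f i).eval n : ℕ) : ZMod (M i)) +
              ((h i : ℕ) : ZMod (M i)))) * (∏ i, Real.log (K i)) := rfl
            rw [← hbL] at hmod
            have hσF : sgS (fun i n => (f i).eval n) h y = sgS F h y := rfl
            rw [hσF] at hmod
            have hAL : |(cntS F h x : ℝ) * L - sgS F h y * x| ≤ (3 * ε / 32) * (sgS F h y * x) := by
              rw [← hcnt]
              have e1 : aa h * L - sgS F h y * x = (aa h - bb h) * L + (bb h * L - sgS F h y * x) := by ring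
              rw [e1]
              refine (abs_add_le _ _).trans ?_
              rw [abs_mul, abs_of_pos hL0]
              have e2 : δ * x ≤ ε / 32 * (sgS F h y * x) := by
                rw [hδ]
                have : ε * c₂ / 32 * x = ε / 32 * (c₂ * x) := by ring
                rw [this]
                apply mul_le_mul_of_nonneg_left _ (by positivity)
                exact mul_le_mul_of_nonneg_right hy₀ hx0.le
              have e3 : δ * (sgS F h y + 1) * x ≤ ε / 32 * (2 * (sgS F h y * x)) := by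
                rw [hδ]
                have : ε * c₂ / 32 * (sgS F h y + 1) * x = ε / 32 * ((c₂ * sgS F h y + c₂) * x) := by ring
                rw [this]
                apply mul_le_mul_of_nonneg_left _ (by positivity)
                have e4 : c₂ * sgS F h y ≤ 1 * sgS F h y := mul_le_mul_of_nonneg_right hc₂1 hσy
                nlinarith
              linarith
            have hlogs := hlog x (by omega) K (fun i => ⟨?_, hKup i⟩)
            · have hlogx : 0 < Real.log x := Real.log_pos (by exact_mod_cast (by omega : 1 < x))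
              have hL'0 : 0 < ∏ i, (((f i).natDegree : ℝ) * Real.log x) := prod_pos fun i _ => by
                have : 0 < (f i).natDegree := hf i
                positivity
              apply combine ε (cntS F h x) L _ x (sgS F h y) (sgS F h z) hε hε1 (Nat.cast_nonneg _) hL'0 hx0 hAL hlogs.1 hlogs.2
              · refine le_trans ?_ hb1
                apply mul_le_mul_of_nonneg_left _ hσy
                rw [hκ] at hexp2 ⊢
                exact hexp2
              · refine hb2.trans ?_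
                apply mul_le_mul_of_nonneg_left _ hσy
                rw [hκ] at hexp1 ⊢
                linarith
            · calc x ^ (f i).natDegree ≤ B * H i := (hH i).1
                _ ≤ B' * K i := Nat.mul_le_mul (by omega) (Nat.le_add_right _ _)
          · exact (le_eval_self (f i) (hf i) x).trans (Nat.le_add_left _ _)
          · have := hK2 i; simp only [hM]; omega
          · intro n hn
            rw [mem_Icc] at hn
            exact Nat.add_le_add (hhx i).2 (eval_mono_nat (f i) hn.2)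

end Pool.Agent.H373R2.NB
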