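import Mathlib
import Pool.Agent.H373R2.NB.CoreTwo
import Pool.Agent.H373R2.SH.ShiftMain

namespace Pool.Agent.H373R2.NB
open Finset Polynomial
open Pool.Agent.H373R2.SH
open Pool.Agent.H373R2.BH (BHFamily omegaP eulerProduct primeCount BHFamily_of_many)

variable {k : ℕ}

lemma primeCount_shift_le' (f : Fin k → ℤ[X]) (g : Fin k → ℕ[X]) (N : ℕ)
    (hg : ∀ i, ∀ m : ℕ, (((g i).eval m : ℕ) : ℤ) = (f i).eval ((m : ℤ) + N)) (h : Fin k → ℕ) (x : ℕ) :
    primeCount (fun i => f i + C (h i : ℤ)) x ≤ cntS (fun i n => (g i).eval n) h (x - N) + N := by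
  classical
  unfold cntS primeCount
  have h1 : (Icc 1 x).filter (fun n : ℕ => ∀ i, Nat.Prime (((f i + C (h i : ℤ)).eval (n : ℤ)).toNat)) ⊆
      (((Icc 1 (x - N)).filter (fun n => ∀ i, (h i + (g i).eval n).Prime)).image (fun n => n + N)) ∪ Icc 1 N := by
    intro n hn
    rw [mem_filter, mem_Icc] at hn
    rw [mem_union]
    by_cases hnN : n ≤ N
    · exact Or.inr (mem_Icc.2 ⟨hn.1.1, hnN⟩)
    · left
      rw [mem_image]
      refine ⟨n - N, ?_, by omega⟩
      rw [mem_filter, mem_Icc]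
      refine ⟨⟨by omega, by omega⟩, fun i => ?_⟩
      have h2 := hn.2 i
      have h3 : (n : ℤ) = ((n - N : ℕ) : ℤ) + N := by
        rw [Nat.cast_sub (by omega)]; ring
      rw [eval_add, eval_C, h3, ← hg i (n - N), ← Nat.cast_add, Int.toNat_natCast, add_comm] at h2
      exact h2
  calc _ ≤ _ := card_le_card h1
    _ ≤ _ := card_union_le _ _
    _ ≤ _ := by
        apply Nat.add_le_add card_image_le
        rw [Nat.card_Icc]; omega

/-- few tuples of shifts make two polynomials equal -/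
lemma dup_poly (f : Fin k → ℤ[X]) (H : Fin k → ℕ) (i j : Fin k) (hij : i ≠ j) (T : Finset (Fin k → ℕ)) (hT : T ⊆ Sx H)
    (hT2 : ∀ h ∈ T, f i + C (h i : ℤ) = f j + C (h j : ℤ)) : #T * H i ≤ #(Sx H) := by
  classical
  have h : #(T ×ˢ Icc 1 (H i)) ≤ #(Sx H) := by
    apply card_le_card_of_injOn (fun q => Function.update q.1 i q.2)
    · intro q hq
      rw [mem_coe, mem_product, mem_Icc] at hq
      obtain ⟨h1, h3⟩ := hq
      have h1' := mem_Sx.1 (hT h1)
      rw [mem_coe, mem_Sx]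
      intro l
      change 1 ≤ Function.update q.1 i q.2 l ∧ Function.update q.1 i q.2 l ≤ H l
      by_cases hl : l = i
      · subst hl
        rw [Function.update_self]
        exact h3
      · rw [Function.update_of_ne hl]; exact h1' _
    · intro q hq q' hq' heq
      rw [mem_coe, mem_product] at hq hq'
      simp only at heq
      have e1 := congrFun heq i
      rw [Function.update_self, Function.update_self] at e1
      have e3 : ∀ l, l ≠ i → q.1 l = q'.1 l := by
        intro l hl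
        have := congrFun heq l
        rwa [Function.update_of_ne hl, Function.update_of_ne hl] at this
      have e5 : q.1 = q'.1 := by
        funext l
        by_cases hl : l = i
        · rw [hl]
          have a1 := hT2 _ hq.1
          have a2 := hT2 _ hq'.1
          rw [e3 j hij.symm, ← a2] at a1
          have a3 := C_injective (add_left_cancel a1)
          exact_mod_cast a3
        · exact e3 l hl
      exact Prod.ext e5 e1
  rwa [card_product, Nat.card_Icc, Nat.add_sub_cancel] at h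

/-- a fixed prime divisor -/
lemma fixed_prime (f : Fin k → ℤ[X]) (p : ℕ) (hp : p.Prime) (h : omegaP f p = p) (n : ℤ) : ∃ i, (p : ℤ) ∣ (f i).eval n := by
  classical
  unfold omegaP at h
  have h1 : (range p).filter (fun r : ℕ => ∃ i, (p : ℤ) ∣ (f i).eval (r : ℤ)) = range p := by
    apply eq_of_subset_of_card_le (filter_subset _ _)
    rw [card_range]
    exact h.ge
  have hp0 : (0 : ℤ) < p := by exact_mod_cast hp.pos
  have h2 : (n % p).toNat ∈ range p := by
    rw [mem_range]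
    have h3 := Int.emod_lt_of_pos n hp0
    have h4 := Int.emod_nonneg n hp0.ne'
    omega
  rw [← h1, mem_filter] at h2
  obtain ⟨_, i, hi⟩ := h2
  refine ⟨i, ?_⟩
  have h4 := Int.emod_nonneg n hp0.ne'
  rw [Int.toNat_of_nonneg h4] at hi
  have h5 := sub_dvd_eval_sub n (n % p) (f i)
  have h6 : (p : ℤ) ∣ n - n % p := Int.dvd_self_sub_emod
  have h7 := dvd_add (h6.trans h5) hi
  rwa [sub_add_cancel] at h7

/-- the expected number of prime values for shifted arguments -/
lemma mu_shift (d : Fin k → ℕ) (hd : ∀ i, 1 ≤ d i) (N : ℕ) (δ : ℝ) (hδ : 0 < δ) :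
    ∃ x₀ : ℕ, ∀ x : ℕ, x₀ ≤ x →
      |((x - N : ℕ) : ℝ) / ∏ i, (d i * Real.log ((x - N : ℕ) : ℝ)) - x / ∏ i, (d i * Real.log x)| ≤
        δ * (x / ∏ i, (d i * Real.log x)) := by
  set δ₁ : ℝ := min δ 1 / 4 with hδ₁
  have hδ₁0 : 0 < δ₁ := by positivity
  have hδ₁1 : δ₁ ≤ 1 / 4 := by
    have := min_le_right δ 1
    rw [hδ₁]; linarith
  have hδ₁δ : 4 * δ₁ ≤ δ := by
    have := min_le_left δ 1
    rw [hδ₁]; linarith
  set B : ℕ := 2 ^ (∑ i, d i) with hB
  obtain ⟨xl, hxl, hlog⟩ := prod_log_close d hd B (Nat.one_le_two_pow) δ₁ hδ₁0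
  obtain ⟨x₁, hx₁⟩ := exists_nat_gt (N / δ₁)
  refine ⟨xl + x₁ + 2 * N + 2, ?_⟩
  intro x hx
  set x' := x - N with hx'
  have hx'x : x' ≤ x := Nat.sub_le _ _
  have hx2 : x ≤ 2 * x' := by omega
  have hx'2 : 2 ≤ x' := by omega
  have hxr : (0 : ℝ) < x := by exact_mod_cast (by omega : 0 < x)
  have hx'r : (x' : ℝ) = x - N := by rw [hx', Nat.cast_sub (by omega)]
  have hlogx : 0 < Real.log x := Real.log_pos (by exact_mod_cast (by omega : 1 < x))
  have hlogx' : 0 < Real.log x' := Real.log_pos (by exact_mod_cast (by omega : 1 < x'))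
  have hlogle : Real.log x' ≤ Real.log x := Real.log_le_log (by exact_mod_cast (by omega : 0 < x'))
    (by exact_mod_cast hx'x)
  have hNx : (N : ℝ) ≤ δ₁ * x := by
    have h1 : N / δ₁ < x := hx₁.trans_le (by exact_mod_cast (by omega : x₁ ≤ x))
    rw [div_lt_iff₀ hδ₁0] at h1
    linarith
  have h1 := hlog x (by omega) (fun i => x' ^ d i) (fun i => ⟨?_, ?_⟩)
  · have e1 : ∏ i, Real.log (((x' ^ d i : ℕ) : ℝ)) = ∏ i, (d i * Real.log (x' : ℝ)) := by
      apply prod_congr rfl; intro i _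
      push_cast
      rw [Real.log_pow]
    rw [e1] at h1
    set L := ∏ i, (d i * Real.log (x : ℝ)) with hL
    set L' := ∏ i, (d i * Real.log (x' : ℝ)) with hL'
    have hd0 : ∀ i, (0 : ℝ) < d i := fun i => by exact_mod_cast hd i
    have hL0 : 0 < L := prod_pos fun i _ => mul_pos (hd0 i) hlogx
    have hL'0 : 0 < L' := prod_pos fun i _ => mul_pos (hd0 i) hlogx'
    have hL'L : L' ≤ L := prod_le_prod (fun i _ => (mul_pos (hd0 i) hlogx').le) fun i _ =>
      mul_le_mul_of_nonneg_left hlogle (hd0 i).le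
    have hμ0 : 0 < (x : ℝ) / L := by positivity
    rw [abs_le]
    constructor
    · have h2 : (1 - δ₁) * (x / L) ≤ x' / L' := by
        calc (1 - δ₁) * (x / L) = ((1 - δ₁) * x) / L := by ring
          _ ≤ x' / L := by
              apply div_le_div_of_nonneg_right _ hL0.le
              rw [hx'r]; linarith
          _ ≤ _ := div_le_div_of_nonneg_left (Nat.cast_nonneg _) hL'0 hL'L
      nlinarith
    · have h2 : (x' : ℝ) / L' ≤ (1 + 2 * δ₁) * (x / L) := by
        have h3 : (1 - δ₁) * L ≤ L' := h1.1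
        rw [div_le_iff₀ hL'0]
        have h4 : (1 + 2 * δ₁) * (x / L) * ((1 - δ₁) * L) ≤ (1 + 2 * δ₁) * (x / L) * L' :=
          mul_le_mul_of_nonneg_left h3 (by positivity)
        refine le_trans ?_ h4
        have h5 : (1 + 2 * δ₁) * (x / L) * ((1 - δ₁) * L) = ((1 + 2 * δ₁) * (1 - δ₁)) * x := by
          field_simp
        rw [h5]
        have h6 : (1 : ℝ) ≤ (1 + 2 * δ₁) * (1 - δ₁) := by nlinarith
        have h7 : (x' : ℝ) ≤ x := by exact_mod_cast hx'x
        nlinarith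
      nlinarith
  · calc x ^ d i ≤ (2 * x') ^ d i := Nat.pow_le_pow_left hx2 _
      _ = 2 ^ d i * x' ^ d i := mul_pow _ _ _
      _ ≤ _ := by
          apply Nat.mul_le_mul_right
          exact Nat.pow_le_pow_right (by norm_num) (single_le_sum (f := d) (fun _ _ => Nat.zero_le _) (mem_univ i))
  · calc x' ^ d i ≤ x ^ d i := Nat.pow_le_pow_left hx'x _
      _ = 1 * x ^ d i := (one_mul _).symm
      _ ≤ _ := Nat.mul_le_mul_right _ Nat.one_le_two_pow

lemma mu_large (d : Fin k → ℕ) (hd : ∀ i, 1 ≤ d i) (A : ℝ) : ∃ x₀ : ℕ, ∀ x : ℕ, x₀ ≤ x → A ≤ x / ∏ i, (d i * Real.log x) := by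
  set Q : ℝ := ∏ i, (d i : ℝ) with hQ
  have hQ1 : 0 < Q := prod_pos fun i _ => by exact_mod_cast hd i
  obtain ⟨x₀, hx₀⟩ := log_pow_small k (1 / ((|A| + 1) * (Q + 1))) (by positivity)
  refine ⟨x₀ + 2, fun x hx => ?_⟩
  have h1 := hx₀ x (by omega)
  have hlogx : 0 < Real.log x := Real.log_pos (by exact_mod_cast (by omega : 1 < x))
  have hxr : (0 : ℝ) < x := by exact_mod_cast (by omega : 0 < x)
  rw [prod_mul_distrib, prod_const, card_fin, ← hQ, le_div_iff₀ (by positivity)]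
  calc A * (Q * Real.log x ^ k) ≤ (|A| + 1) * ((Q + 1) * Real.log x ^ k) := by
        apply mul_le_mul
        · have := le_abs_self A; linarith
        · apply mul_le_mul_of_nonneg_right _ (by positivity); linarith
        · positivity
        · positivity
    _ ≤ (|A| + 1) * ((Q + 1) * (1 / ((|A| + 1) * (Q + 1)) * x)) := by
        apply mul_le_mul_of_nonneg_left _ (by positivity)
        exact mul_le_mul_of_nonneg_left h1 (by positivity)
    _ = x := by field_simp

open Classical in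
/-- Bateman-Horn for almost all shifts -/
theorem almost_all (hk : 1 ≤ k) (f : Fin k → ℤ[X]) (hf : ∀ i, 1 ≤ (f i).natDegree) (hl : ∀ i, 0 < (f i).leadingCoeff)
    (B : ℕ) (hB : 1 ≤ B) (ε : ℝ) (hε : 0 < ε) :
    ∃ y₀ x₀ : ℕ, ∀ x : ℕ, x₀ ≤ x → ∀ H : Fin k → ℕ,
      (∀ i, x ^ (f i).natDegree ≤ B * H i ∧ H i ≤ B * x ^ (f i).natDegree) → ∀ z : ℕ, y₀ ≤ z → (∀ i, z ^ 5 ≤ H i) →
      (1 - ε) * ∏ i, (H i : ℝ) ≤ #((Fintype.piFinset fun i => Icc 1 (H i)).filter (fun h =>
        |(primeCount (fun i => f i + C (h i : ℤ)) x : ℝ) - eulerProduct (fun i => f i + C (h i : ℤ)) z *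
            (x / ∏ i, ((f i).natDegree * Real.log x))| ≤
          ε * (eulerProduct (fun i => f i + C (h i : ℤ)) z * (x / ∏ i, ((f i).natDegree * Real.log x))) ∧
        (eulerProduct (fun i => f i + C (h i : ℤ)) z = 0 ∨ BHFamily (fun i => f i + C (h i : ℤ))))) := by
  have hN := fun i => exists_nat_poly (f i) (hl i)
  choose N₀ hN₀ using hN
  set N := ∑ i, N₀ i with hN
  have hNi : ∀ i, N₀ i ≤ N := fun i => single_le_sum (f := N₀) (fun _ _ => Nat.zero_le _) (mem_univ i)
  have hg' := fun i => hN₀ i N (hNi i)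
  choose g hgd hg using hg'
  set d : Fin k → ℕ := fun i => (f i).natDegree with hd
  set ε₁ : ℝ := min ε 1 / 8 with hε₁
  have hε₁0 : 0 < ε₁ := by positivity
  have hε₁1 : ε₁ ≤ 1 / 8 := by
    have := min_le_right ε 1
    rw [hε₁]; linarith
  have hε₁ε : 8 * ε₁ ≤ ε := by
    have := min_le_left ε 1
    rw [hε₁]; linarith
  set B' := B * 2 ^ (∑ i, d i) with hB'
  have hB'1 : 1 ≤ B' := Nat.mul_pos hB (by positivity)
  have hgd1 : ∀ i, 1 ≤ (g i).natDegree := fun i => by rw [hgd]; exact hf i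
  obtain ⟨c, hc, y₀, x₁, hcore⟩ := core_two hk g hgd1 B' hB'1 ε₁ hε₁0 (by linarith)
  obtain ⟨x₂, hx₂⟩ := mu_shift d hf N ε₁ hε₁0
  obtain ⟨x₃, hx₃⟩ := mu_large d hf ((N + 2) / (ε₁ * c) + (4 * (∑ i, d i) + 4) / c)
  -- a lower bound for the values at small arguments
  obtain ⟨A, hA⟩ : ∃ A : ℕ, ∀ i, ∀ n : ℕ, n ≤ N → -(A : ℤ) ≤ (f i).eval (n : ℤ) := by
    refine ⟨∑ i, ∑ n ∈ range (N + 1), ((f i).eval (n : ℤ)).natAbs, fun i n hn => ?_⟩
    have h1 : ((f i).eval (n : ℤ)).natAbs ≤ ∑ n ∈ range (N + 1), ((f i).eval (n : ℤ)).natAbs :=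
      single_le_sum (f := fun n : ℕ => ((f i).eval (n : ℤ)).natAbs) (fun _ _ => Nat.zero_le _) (mem_range.2 (by omega))
    have h2 : ∑ n ∈ range (N + 1), ((f i).eval (n : ℤ)).natAbs ≤ ∑ i, ∑ n ∈ range (N + 1), ((f i).eval (n : ℤ)).natAbs :=
      single_le_sum (f := fun i => ∑ n ∈ range (N + 1), ((f i).eval (n : ℤ)).natAbs) (fun _ _ => Nat.zero_le _) (mem_univ i)
    have h3 := h1.trans h2
    set V := ∑ i, ∑ n ∈ range (N + 1), ((f i).eval (n : ℤ)).natAbs
    omega
  obtain ⟨x₄, hx₄⟩ := exists_nat_gt (2 * ((y₀ : ℝ) + A + 1) / c)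
  obtain ⟨x₅, hx₅⟩ := exists_nat_gt (B * ((k : ℝ) ^ 2 / ε₁))
  refine ⟨y₀, x₁ + x₂ + x₃ + x₄ + x₅ + 2 * N + 3, ?_⟩
  intro x hx H hH z hz hz5
  set x' := x - N with hx'
  have hx'x : x' + N = x := by omega
  have hx2 : x ≤ 2 * x' := by omega
  have hxr : (0 : ℝ) < x := by exact_mod_cast (by omega : 0 < x)
  have hxd : ∀ i, x ≤ x ^ d i := fun i => Nat.le_self_pow (by have := hf i; simp only [hd]; omega) x
  have hH' : ∀ i, x' ^ (g i).natDegree ≤ B' * H i ∧ H i ≤ B' * x' ^ (g i).natDegree := by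
    intro i
    rw [hgd]
    constructor
    · calc x' ^ (f i).natDegree ≤ x ^ (f i).natDegree := Nat.pow_le_pow_left (by omega) _
        _ ≤ B * H i := (hH i).1
        _ ≤ B' * H i := Nat.mul_le_mul_right _ (Nat.le_mul_of_pos_right _ (by positivity))
    · calc H i ≤ B * x ^ (f i).natDegree := (hH i).2
        _ ≤ B * (2 * x') ^ (f i).natDegree := Nat.mul_le_mul_left _ (Nat.pow_le_pow_left hx2 _)
        _ = B * (2 ^ (f i).natDegree * x' ^ (f i).natDegree) := by rw [mul_pow]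
        _ ≤ B * (2 ^ (∑ i, d i) * x' ^ (f i).natDegree) := by
            apply Nat.mul_le_mul_left
            apply Nat.mul_le_mul_right
            exact Nat.pow_le_pow_right (by norm_num) (single_le_sum (f := d) (fun _ _ => Nat.zero_le _) (mem_univ i))
        _ = _ := by rw [hB']; ring
  obtain ⟨T, hTs, hTc, hT⟩ := hcore x' (by omega) H hH' z hz hz5
  simp only [hgd] at hT
  -- coincidences
  set U : Finset (Fin k → ℕ) := (univ : Finset (Fin k × Fin k)).biUnion (fun q => if q.1 ≠ q.2 then (Sx H).filter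
    (fun h => f q.1 + C (h q.1 : ℤ) = f q.2 + C (h q.2 : ℤ)) else ∅) with hU
  have hHr : ∀ i, (k : ℝ) ^ 2 / ε₁ < H i := by
    intro i
    have h1 : (x : ℝ) ≤ B * H i := by exact_mod_cast (hxd i).trans (hH i).1
    have h2 : B * ((k : ℝ) ^ 2 / ε₁) < x := hx₅.trans_le (by exact_mod_cast (by omega : x₅ ≤ x))
    exact lt_of_mul_lt_mul_left (h2.trans_le h1) (Nat.cast_nonneg _)
  have hUc : (#U : ℝ) ≤ ε₁ * #(Sx H) := by
    have hk0 : (0 : ℝ) < k := by exact_mod_cast hk
    have h2 : ∀ q : Fin k × Fin k, (#(if q.1 ≠ q.2 then (Sx H).filter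
        (fun h => f q.1 + C (h q.1 : ℤ) = f q.2 + C (h q.2 : ℤ)) else ∅) : ℝ) ≤ ε₁ / (k : ℝ) ^ 2 * #(Sx H) := by
      intro q
      split_ifs with h
      · have h3 := dup_poly f H q.1 q.2 h ((Sx H).filter (fun h => f q.1 + C (h q.1 : ℤ) = f q.2 + C (h q.2 : ℤ)))
          (filter_subset _ _) (fun h hh => (mem_filter.1 hh).2)
        set V := (Sx H).filter (fun h => f q.1 + C (h q.1 : ℤ) = f q.2 + C (h q.2 : ℤ)) with hV
        have h4 : (#V : ℝ) * H q.1 ≤ #(Sx H) := by exact_mod_cast h3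
        have h5 : (#V : ℝ) * ((k : ℝ) ^ 2 / ε₁) ≤ #(Sx H) :=
          (mul_le_mul_of_nonneg_left (hHr q.1).le (Nat.cast_nonneg _)).trans h4
        have h6 : (#V : ℝ) = (ε₁ / (k : ℝ) ^ 2) * ((#V : ℝ) * ((k : ℝ) ^ 2 / ε₁)) := by field_simp
        rw [h6]
        exact mul_le_mul_of_nonneg_left h5 (by positivity)
      · simp only [card_empty, Nat.cast_zero]; positivity
    calc (#U : ℝ) ≤ ∑ q : Fin k × Fin k, (#(if q.1 ≠ q.2 then (Sx H).filter
          (fun h => f q.1 + C (h q.1 : ℤ) = f q.2 + C (h q.2 : ℤ)) else ∅) : ℝ) := by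
          exact_mod_cast card_biUnion_le
      _ ≤ ∑ _q : Fin k × Fin k, ε₁ / (k : ℝ) ^ 2 * #(Sx H) := sum_le_sum fun q _ => h2 q
      _ = _ := by
          rw [sum_const, card_univ, Fintype.card_prod, Fintype.card_fin, nsmul_eq_mul]; push_cast; field_simp
  have hcard : (1 - ε) * ∏ i, (H i : ℝ) ≤ #(Sx H \ (T ∪ U)) := by
    have h1 : #(T ∪ U) ≤ #T + #U := card_union_le _ _
    have h2 : #(Sx H) ≤ #(Sx H \ (T ∪ U)) + #(T ∪ U) := by
      have := card_le_card_sdiff_add_card (s := Sx H) (t := T ∪ U)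
      omega
    have h3 : (#(Sx H) : ℝ) ≤ #(Sx H \ (T ∪ U)) + (#T + #U) := by exact_mod_cast (by omega : #(Sx H) ≤ #(Sx H \ (T ∪ U)) + (#T + #U))
    rw [← card_Sx]
    have h4 : (0 : ℝ) ≤ #(Sx H) := Nat.cast_nonneg _
    nlinarith
  refine hcard.trans ?_
  rw [Nat.cast_le]
  apply card_le_card
  intro h hh
  rw [mem_sdiff, mem_union] at hh
  push Not at hh
  obtain ⟨hhS, hhT, hhU⟩ := hh
  rw [mem_filter]
  refine ⟨hhS, ?_⟩
  obtain ⟨hlarge, hcases⟩ := hT h hhS hhT
  set E := eulerProduct (fun i => f i + C (h i : ℤ)) z with hE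
  have hEs : E = sgS (fun i n => (g i).eval n) h z := eulerProduct_shift f g N hg h z
  have hE0 : 0 ≤ E := by rw [hEs]; exact sgS_nonneg _ _ _
  set μ : ℝ := x / ∏ i, ((f i).natDegree * Real.log x) with hμ
  rcases hcases with ⟨p, hp, hpy, hom⟩ | ⟨hcE, hmain⟩
  · -- a fixed prime divisor
    have hp0 : (0 : ℝ) < p := by exact_mod_cast hp.pos
    have hEz : E = 0 := by
      rw [hEs]
      unfold sgS
      apply prod_eq_zero (i := p)
      · rw [mem_filter, mem_range]
        exact ⟨by omega, hp⟩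
      · unfold ufS dnS
        rw [hom, div_self hp0.ne', sub_self, mul_zero]
    have hpc : primeCount (fun i => f i + C (h i : ℤ)) x = 0 := by
      unfold primeCount
      rw [card_eq_zero, filter_eq_empty_iff]
      intro n hn hall
      rw [mem_Icc] at hn
      obtain ⟨i, hi⟩ := fixed_prime (fun i => f i + C (h i : ℤ)) p hp (by rw [omegaP_shift f g N hg, hom]) (n : ℤ)
      have h1 := hall i
      have hhi : (y₀ : ℤ) + A + 1 ≤ h i := by
        have h2 : c * x' ≤ (h i : ℝ) := hlarge i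
        have h3 : 2 * ((y₀ : ℝ) + A + 1) / c < x := hx₄.trans_le (by exact_mod_cast (by omega : x₄ ≤ x))
        rw [div_lt_iff₀ hc] at h3
        have h4 : (x : ℝ) ≤ 2 * x' := by exact_mod_cast hx2
        have h5 : (y₀ : ℝ) + A + 1 ≤ (h i : ℝ) := by nlinarith
        have h6 : y₀ + A + 1 ≤ h i := by exact_mod_cast h5
        exact_mod_cast h6
      have hval : (y₀ : ℤ) + 1 ≤ (f i + C (h i : ℤ)).eval (n : ℤ) := by
        rw [eval_add, eval_C]
        by_cases hnN : n ≤ N
        · have := hA i n hnN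
          linarith
        · have h3 : (n : ℤ) = ((n - N : ℕ) : ℤ) + N := by
            rw [Nat.cast_sub (by omega)]; ring
          rw [h3, ← hg i (n - N)]
          have : (0 : ℤ) ≤ (((g i).eval (n - N) : ℕ) : ℤ) := Nat.cast_nonneg _
          have : (0 : ℤ) ≤ A := Nat.cast_nonneg _
          linarith
      set v := (f i + C (h i : ℤ)).eval (n : ℤ) with hv
      have hv0 : 0 ≤ v := by omega
      have h7 : ((v.toNat : ℕ) : ℤ) = v := Int.toNat_of_nonneg hv0
      have h8 : p ∣ v.toNat := by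
        rw [← h7] at hi
        exact_mod_cast hi
      have h9 : p = v.toNat := (Nat.prime_dvd_prime_iff_eq hp h1).1 h8
      have : (p : ℤ) = v := by rw [h9]; exact h7
      have : (p : ℤ) ≤ y₀ := by exact_mod_cast hpy
      omega
    rw [hEz, hpc]
    simp
  · rw [← hEs] at hcE hmain
    set μ' : ℝ := (x' : ℝ) / ∏ i, ((f i).natDegree * Real.log (x' : ℝ)) with hμ'
    have hμμ : |μ' - μ| ≤ ε₁ * μ := hx₂ x (by omega)
    have hμbig : (N + 2) / (ε₁ * c) + (4 * (∑ i, d i : ℕ) + 4) / c ≤ μ := by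
      have := hx₃ x (by omega)
      push_cast at this ⊢
      exact this
    have q1 : (0 : ℝ) ≤ (N + 2) / (ε₁ * c) := by positivity
    have q2 : (0 : ℝ) ≤ (4 * (∑ i, d i : ℕ) + 4) / c := by positivity
    have hμ0 : 0 ≤ μ := by linarith
    have hEpos : 0 < E := hc.trans_le hcE
    have hcEμ : c * μ ≤ E * μ := mul_le_mul_of_nonneg_right hcE hμ0
    have hNE : (N : ℝ) ≤ ε₁ * (E * μ) := by
      have h1 : (N + 2) / (ε₁ * c) ≤ μ := by linarith
      rw [div_le_iff₀ (by positivity)] at h1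
      have h2 := mul_le_mul_of_nonneg_left hcEμ hε₁0.le
      nlinarith
    have hdE : (4 * (∑ i, d i : ℕ) + 4 : ℝ) ≤ E * μ := by
      have h1 : (4 * (∑ i, d i : ℕ) + 4) / c ≤ μ := by linarith
      rw [div_le_iff₀ hc] at h1
      linarith
    have hlow := primeCount_shift f g N hg h x (by omega)
    have hup := primeCount_shift_le' f g N hg h x
    rw [← hx'] at hlow hup
    have hlowr : (cntS (fun i n => (g i).eval n) h x' : ℝ) ≤ primeCount (fun i => f i + C (h i : ℤ)) x := by exact_mod_cast hlow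
    have hupr : (primeCount (fun i => f i + C (h i : ℤ)) x : ℝ) ≤ cntS (fun i n => (g i).eval n) h x' + N := by exact_mod_cast hup
    set PC := (primeCount (fun i => f i + C (h i : ℤ)) x : ℝ) with hPC
    set CC := (cntS (fun i n => (g i).eval n) h x' : ℝ) with hCC
    obtain ⟨m1, m2⟩ := abs_le.1 hmain
    obtain ⟨n1, n2⟩ := abs_le.1 hμμ
    have hEμ0 : 0 ≤ E * μ := by positivity
    have hEμ'1 : E * μ' ≤ E * μ + ε₁ * (E * μ) := by
      have := mul_le_mul_of_nonneg_left n2 hE0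
      nlinarith
    have hEμ'2 : E * μ - ε₁ * (E * μ) ≤ E * μ' := by
      have := mul_le_mul_of_nonneg_left n1 hE0
      nlinarith
    have hε₁EM : ε₁ * (E * μ') ≤ 2 * (ε₁ * (E * μ)) := by
      have h1 := mul_le_mul_of_nonneg_left hEμ'1 hε₁0.le
      have h2 : ε₁ * (ε₁ * (E * μ)) ≤ 1 * (ε₁ * (E * μ)) := mul_le_mul_of_nonneg_right (by linarith) (by positivity)
      linarith
    have h8 : 8 * (ε₁ * (E * μ)) ≤ ε * (E * μ) := by
      have := mul_le_mul_of_nonneg_right hε₁ε hEμ0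
      linarith
    have h9 : 0 ≤ ε₁ * (E * μ) := by positivity
    have hPClow : E * μ - 3 * (ε₁ * (E * μ)) ≤ PC := by linarith
    refine ⟨?_, Or.inr ?_⟩
    · rw [abs_le]
      constructor <;> linarith
    · apply BHFamily_shift f hf hl h ?_ x
      · have h10 : 3 * (ε₁ * (E * μ)) ≤ 1 / 2 * (E * μ) := by
          have := mul_le_mul_of_nonneg_right hε₁1 hEμ0
          linarith
        have h11 : (2 * (∑ i, d i : ℕ) + 2 : ℝ) ≤ PC := by linarith
        have h12 : 2 * (∑ i, d i) + 2 ≤ primeCount (fun i => f i + C (h i : ℤ)) x := by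
          rw [hPC] at h11
          exact_mod_cast h11
        simp only [hd] at h12
        omega
      · intro i j hij
        by_contra hne
        apply hhU
        rw [hU, mem_biUnion]
        refine ⟨(i, j), mem_univ _, ?_⟩
        simp only [ne_eq, hne, not_false_eq_true, if_true]
        rw [mem_filter]
        exact ⟨hhS, hij⟩

end Pool.Agent.H373R2.NB
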